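import Mathlib

/-!
# The Schwartz-Bruhat space of `ℚ_p^d` with values in a field `K` and the basic operators on it
-/

namespace Pool.Agent.V11283.Heis

open scoped BigOperators

/-- The `K`-vector space of locally constant, compactly supported functions `ℚ_p^d → K`. -/
def SB (p : ℕ) [Fact p.Prime] (d : ℕ) (K : Type*) [Field K] :
    Submodule K ((Fin d → ℚ_[p]) → K) where
  carrier := {f | IsLocallyConstant f ∧ HasCompactSupport f}
  add_mem' := by
    rintro f g ⟨hf, hf'⟩ ⟨hg, hg'⟩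
    exact ⟨hf.add hg, hf'.add hg'⟩
  zero_mem' := ⟨IsLocallyConstant.const 0, HasCompactSupport.zero⟩
  smul_mem' := by
    rintro c f ⟨hf, hf'⟩
    refine ⟨?_, ?_⟩
    · exact hf.comp (fun t => c * t)
    · exact hf'.comp_left (g := fun t => c * t) (mul_zero c)

section Ops

variable {p : ℕ} [Fact p.Prime] {d : ℕ} {K : Type*} [Field K]

/-- The value of an element of `SB` at a point, as a linear functional. -/
def evalAt (x : Fin d → ℚ_[p]) : SB p d K →ₗ[K] K where
  toFun f := f.1 x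
  map_add' _ _ := rfl
  map_smul' _ _ := rfl

@[simp] lemma evalAt_apply (x : Fin d → ℚ_[p]) (f : SB p d K) : evalAt x f = f.1 x := rfl

/-- Translation operator `f ↦ f(· + a)`. -/
noncomputable def trans (a : Fin d → ℚ_[p]) : SB p d K →ₗ[K] SB p d K where
  toFun f := ⟨fun x => f.1 (x + a), by
    refine ⟨f.2.1.comp_continuous (continuous_id.add continuous_const), ?_⟩
    exact f.2.2.comp_homeomorph (Homeomorph.addRight a)⟩
  map_add' _ _ := rfl
  map_smul' _ _ := rfl

@[simp] lemma trans_apply (a x : Fin d → ℚ_[p]) (f : SB p d K) :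
    (trans a f).1 x = f.1 (x + a) := rfl

/-- Multiplication by a locally constant function. -/
def mulLC (g : (Fin d → ℚ_[p]) → K) (hg : IsLocallyConstant g) : SB p d K →ₗ[K] SB p d K where
  toFun f := ⟨fun x => g x * f.1 x, by
    refine ⟨hg.mul f.2.1, ?_⟩
    exact HasCompactSupport.mul_left (f := g) f.2.2⟩
  map_add' f h := by
    apply Subtype.ext
    funext x
    simp [mul_add]
  map_smul' c f := by
    apply Subtype.ext
    funext x
    simp [mul_left_comm]

@[simp] lemma mulLC_apply (g : (Fin d → ℚ_[p]) → K) (hg : IsLocallyConstant g)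
    (x : Fin d → ℚ_[p]) (f : SB p d K) :
    (mulLC g hg f).1 x = g x * f.1 x := rfl

/-- A standard character: trivial on `ℤ_p`, nontrivial at `1/p`. -/
structure StdChar (e : AddChar ℚ_[p] K) : Prop where
  triv : ∀ z : ℚ_[p], ‖z‖ ≤ 1 → e z = 1
  ne : e ((p : ℚ_[p])⁻¹) ≠ 1

lemma StdChar.congr {e : AddChar ℚ_[p] K} (he : StdChar e) {z w : ℚ_[p]} (h : ‖z - w‖ ≤ 1) :
    e z = e w := by
  have : z = (z - w) + w := by ring
  rw [this, AddChar.map_add_eq_mul, he.triv _ h, one_mul]

lemma StdChar.isLocallyConstant {e : AddChar ℚ_[p] K} (he : StdChar e) :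
    IsLocallyConstant (fun z : ℚ_[p] => e z) := by
  rw [IsLocallyConstant.iff_eventually_eq]
  intro x
  have : Metric.ball x 1 ∈ nhds x := Metric.ball_mem_nhds x one_pos
  filter_upwards [this] with y hy
  apply he.congr
  rw [Metric.mem_ball, dist_eq_norm] at hy
  exact hy.le

lemma StdChar.isLocallyConstant_comp {e : AddChar ℚ_[p] K} (he : StdChar e)
    {q : (Fin d → ℚ_[p]) → ℚ_[p]} (hq : Continuous q) :
    IsLocallyConstant (fun x => e (q x)) :=
  he.isLocallyConstant.comp_continuous hq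

/-- The dot product is continuous in the right variable. -/
lemma continuous_dot (b : Fin d → ℚ_[p]) : Continuous (fun x : Fin d → ℚ_[p] => b ⬝ᵥ x) := by
  unfold dotProduct
  fun_prop

/-- Modulation operator `f ↦ e(b·x) f(x)`. -/
noncomputable def modu {e : AddChar ℚ_[p] K} (he : StdChar e) (b : Fin d → ℚ_[p]) : SB p d K →ₗ[K] SB p d K :=
  mulLC (fun x => e (b ⬝ᵥ x)) (he.isLocallyConstant_comp (continuous_dot b))

@[simp] lemma modu_apply {e : AddChar ℚ_[p] K} (he : StdChar e) (b x : Fin d → ℚ_[p])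
    (f : SB p d K) : (modu he b f).1 x = e (b ⬝ᵥ x) * f.1 x := rfl

/-- The lattice `ℤ_p^d` as a subset of `ℚ_p^d`. -/
def Zpd (p : ℕ) [Fact p.Prime] (d : ℕ) : Set (Fin d → ℚ_[p]) := {x | ∀ i, ‖x i‖ ≤ 1}

lemma isClopen_unit : IsClopen {z : ℚ_[p] | ‖z‖ ≤ 1} := by
  have h1 : {z : ℚ_[p] | ‖z‖ ≤ 1} = Metric.closedBall 0 1 := by
    ext z; simp
  rw [h1]
  exact IsUltrametricDist.isClopen_closedBall 0 one_ne_zero

lemma isClopen_Zpd : IsClopen (Zpd p d) := by
  have : Zpd p d = ⋂ i, (fun x : Fin d → ℚ_[p] => x i) ⁻¹' {z : ℚ_[p] | ‖z‖ ≤ 1} := by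
    ext x; simp [Zpd]
  rw [this]
  exact isClopen_iInter_of_finite (fun i => isClopen_unit.preimage (continuous_apply i))

lemma Zpd_eq_closedBall : Zpd p d = Metric.closedBall 0 1 := by
  ext x
  simp [Zpd, pi_norm_le_iff_of_nonneg]

lemma isCompact_Zpd : IsCompact (Zpd p d) := by
  rw [Zpd_eq_closedBall]
  exact isCompact_closedBall 0 1

/-- The indicator function of `ℤ_p^d`. -/
noncomputable def v0 : SB p d K :=
  ⟨Set.indicator (Zpd p d) (fun _ => 1), by
    refine ⟨?_, ?_⟩
    · classical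
      rw [IsLocallyConstant.iff_eventually_eq]
      intro x
      by_cases hx : x ∈ Zpd p d
      · filter_upwards [isClopen_Zpd.isOpen.mem_nhds hx] with y hy
        simp [hx, hy]
      · have : (Zpd p d)ᶜ ∈ nhds x := isClopen_Zpd.compl.isOpen.mem_nhds hx
        filter_upwards [this] with y hy
        have hy' : y ∉ Zpd p d := hy
        simp [hx, hy']
    · apply HasCompactSupport.intro isCompact_Zpd
      intro x hx
      simp [hx]⟩

lemma v0_apply_of_mem {x : Fin d → ℚ_[p]} (hx : x ∈ Zpd p d) : (v0 : SB p d K).1 x = 1 := by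
  simp [v0, hx]

lemma v0_apply_of_notMem {x : Fin d → ℚ_[p]} (hx : x ∉ Zpd p d) :
    (v0 : SB p d K).1 x = 0 := by
  simp [v0, hx]

/-- The generating family `mod_b trans_a v0`. -/
noncomputable def gen {e : AddChar ℚ_[p] K} (he : StdChar e) (a b : Fin d → ℚ_[p]) : SB p d K :=
  modu he b (trans a v0)

lemma gen_apply {e : AddChar ℚ_[p] K} (he : StdChar e) (a b x : Fin d → ℚ_[p]) :
    (gen he a b).1 x = e (b ⬝ᵥ x) * (v0 : SB p d K).1 (x + a) := rfl

variable {e : AddChar ℚ_[p] K} (he : StdChar e)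

lemma trans_trans (a a' : Fin d → ℚ_[p]) (f : SB p d K) :
    trans a (trans a' f) = trans (a + a') f := by
  apply Subtype.ext; funext x
  simp [add_assoc]

lemma trans_zero (f : SB p d K) : trans 0 f = f := by
  apply Subtype.ext; funext x
  simp

include he in
lemma modu_modu (b b' : Fin d → ℚ_[p]) (f : SB p d K) :
    modu he b (modu he b' f) = modu he (b + b') f := by
  apply Subtype.ext; funext x
  simp [add_dotProduct, AddChar.map_add_eq_mul, mul_assoc]

lemma modu_zero (f : SB p d K) : modu he 0 f = f := by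
  apply Subtype.ext; funext x
  simp

lemma trans_modu (a b : Fin d → ℚ_[p]) (f : SB p d K) :
    trans a (modu he b f) = e (b ⬝ᵥ a) • modu he b (trans a f) := by
  apply Subtype.ext; funext x
  simp [dotProduct_add, AddChar.map_add_eq_mul]
  ring

lemma gen_zero : gen he (0 : Fin d → ℚ_[p]) 0 = v0 := by
  rw [gen, trans_zero, modu_zero]

lemma norm_dot_le_one {l x : Fin d → ℚ_[p]} (hl : l ∈ Zpd p d) (hx : x ∈ Zpd p d) :
    ‖l ⬝ᵥ x‖ ≤ 1 := by
  unfold dotProduct
  apply IsUltrametricDist.norm_sum_le_of_forall_le_of_nonneg zero_le_one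
  intro i _
  rw [norm_mul]
  exact mul_le_one₀ (hl i) (norm_nonneg _) (hx i)

lemma Zpd_add {x y : Fin d → ℚ_[p]} (hx : x ∈ Zpd p d) (hy : y ∈ Zpd p d) :
    x + y ∈ Zpd p d := by
  intro i
  exact (IsUltrametricDist.norm_add_le_max _ _).trans (max_le (hx i) (hy i))

lemma Zpd_neg {x : Fin d → ℚ_[p]} (hx : x ∈ Zpd p d) : -x ∈ Zpd p d := by
  intro i
  simpa using hx i

lemma Zpd_zero : (0 : Fin d → ℚ_[p]) ∈ Zpd p d := by
  intro i; simp

lemma Zpd_sub {x y : Fin d → ℚ_[p]} (hx : x ∈ Zpd p d) (hy : y ∈ Zpd p d) :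
    x - y ∈ Zpd p d := by
  rw [sub_eq_add_neg]; exact Zpd_add hx (Zpd_neg hy)

lemma Zpd_add_iff {x l : Fin d → ℚ_[p]} (hl : l ∈ Zpd p d) :
    x + l ∈ Zpd p d ↔ x ∈ Zpd p d := by
  constructor
  · intro h
    have := Zpd_sub h hl
    simpa using this
  · intro h
    exact Zpd_add h hl

lemma trans_v0 {l : Fin d → ℚ_[p]} (hl : l ∈ Zpd p d) :
    trans l (v0 : SB p d K) = v0 := by
  apply Subtype.ext; funext x
  by_cases hx : x ∈ Zpd p d
  · rw [trans_apply, v0_apply_of_mem hx, v0_apply_of_mem ((Zpd_add_iff hl).2 hx)]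
  · rw [trans_apply, v0_apply_of_notMem hx, v0_apply_of_notMem]
    rwa [Zpd_add_iff hl]

lemma modu_v0 {l : Fin d → ℚ_[p]} (hl : l ∈ Zpd p d) :
    modu he l (v0 : SB p d K) = v0 := by
  apply Subtype.ext; funext x
  by_cases hx : x ∈ Zpd p d
  · rw [modu_apply, he.triv _ (norm_dot_le_one hl hx), one_mul]
  · rw [modu_apply, v0_apply_of_notMem hx, mul_zero]

lemma gen_add_left (a b : Fin d → ℚ_[p]) {l : Fin d → ℚ_[p]} (hl : l ∈ Zpd p d) :
    gen he (a + l) b = gen he a b := by
  rw [gen, gen, ← trans_trans, trans_v0 hl]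

lemma gen_add_right (a b : Fin d → ℚ_[p]) {l : Fin d → ℚ_[p]} (hl : l ∈ Zpd p d) :
    gen he a (b + l) = e (-(l ⬝ᵥ a)) • gen he a b := by
  have h1 : modu he l (trans a (v0 : SB p d K)) = e (-(l ⬝ᵥ a)) • trans a v0 := by
    have h2 := trans_modu he a l (v0 : SB p d K)
    rw [modu_v0 he hl] at h2
    conv_rhs => rw [h2]
    rw [smul_smul, ← AddChar.map_add_eq_mul]
    simp
  rw [gen, gen, ← modu_modu, h1, map_smul]

lemma trans_gen (a a' b' : Fin d → ℚ_[p]) :
    trans a (gen he a' b') = e (b' ⬝ᵥ a) • gen he (a + a') b' := by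
  rw [gen, trans_modu, trans_trans]; rfl

lemma modu_gen (b a' b' : Fin d → ℚ_[p]) :
    modu he b (gen he a' b') = gen he a' (b + b') := by
  rw [gen, modu_modu]; rfl

end Ops

end Pool.Agent.V11283.Heis
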