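import Mathlib
import Pool.Agent.V11283.Heis.Basic

/-!
# Roots of unity in ultrametric fields and standard characters of `ℚ_p`
-/

namespace Pool.Agent.V11283.Heis

open scoped BigOperators

section Roots

variable {p : ℕ} [hpp : Fact p.Prime] {K : Type*} [NormedField K] [IsUltrametricDist K]

omit [IsUltrametricDist K] in
lemma norm_eq_one_of_pow {z : K} {n : ℕ} (h : z ^ n = 1) (hn : n ≠ 0) : ‖z‖ = 1 := by
  have h1 := congrArg norm h
  rw [norm_pow, norm_one] at h1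
  exact (pow_eq_one_iff_of_nonneg (norm_nonneg _) hn).1 h1

lemma norm_sub_le_max'' (x y : K) : ‖x - y‖ ≤ max ‖x‖ ‖y‖ := by
  rw [sub_eq_add_neg]
  refine (IsUltrametricDist.norm_add_le_max _ _).trans ?_
  rw [norm_neg]

lemma norm_one_sub_pow_le {z : K} (h : ‖z‖ ≤ 1) (j : ℕ) : ‖1 - z ^ j‖ ≤ ‖1 - z‖ := by
  rw [← mul_neg_geom_sum z j, norm_mul]
  apply mul_le_of_le_one_right (norm_nonneg _)
  apply IsUltrametricDist.norm_sum_le_of_forall_le_of_nonneg zero_le_one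
  intro i _
  rw [norm_pow]
  exact pow_le_one₀ (norm_nonneg _) h

lemma norm_one_sub_primitive (hp : ‖(p : K)‖ = (p : ℝ)⁻¹) {z : K} {k : ℕ}
    (h : IsPrimitiveRoot z (p ^ (k + 1))) : ‖1 - z‖ ^ (p ^ k * (p - 1)) = (p : ℝ)⁻¹ := by
  have hp0 : 0 < p := hpp.out.pos
  have hpos : 0 < p ^ (k + 1) := pow_pos hp0 _
  have h1 : Polynomial.eval 1 (Polynomial.cyclotomic (p ^ (k + 1)) K) = p :=
    Polynomial.eval_one_cyclotomic_prime_pow k
  rw [Polynomial.cyclotomic_eq_prod_X_sub_primitiveRoots h, Polynomial.eval_prod] at h1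
  have h2 : ∀ μ ∈ primitiveRoots (p ^ (k + 1)) K,
      ‖Polynomial.eval 1 (Polynomial.X - Polynomial.C μ)‖ = ‖1 - z‖ := by
    intro μ hμ
    rw [mem_primitiveRoots hpos] at hμ
    simp only [Polynomial.eval_sub, Polynomial.eval_X, Polynomial.eval_C]
    have : NeZero (p ^ (k + 1)) := ⟨hpos.ne'⟩
    obtain ⟨i, _, hi⟩ := h.eq_pow_of_pow_eq_one hμ.pow_eq_one
    obtain ⟨j, _, hj⟩ := hμ.eq_pow_of_pow_eq_one h.pow_eq_one
    apply le_antisymm
    · rw [← hi]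
      exact norm_one_sub_pow_le (norm_eq_one_of_pow h.pow_eq_one hpos.ne').le i
    · rw [← hj]
      exact norm_one_sub_pow_le (norm_eq_one_of_pow hμ.pow_eq_one hpos.ne').le j
  have h3 := congrArg norm h1
  rw [norm_prod, Finset.prod_congr rfl h2, Finset.prod_const, h.card_primitiveRoots,
    Nat.totient_prime_pow_succ hpp.out, hp] at h3
  exact h3

lemma norm_one_sub_of_pow (hp : ‖(p : K)‖ = (p : ℝ)⁻¹) {z : K} {n : ℕ}
    (h : z ^ (p ^ (n + 1)) = 1) : ‖1 - z‖ ^ (p ^ n * (p - 1)) ≤ (p : ℝ)⁻¹ := by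
  have hp1 : 1 < p := hpp.out.one_lt
  have hexp : p ^ n * (p - 1) ≠ 0 := by
    apply mul_ne_zero
    · exact pow_ne_zero _ hpp.out.ne_zero
    · omega
  have hdvd : orderOf z ∣ p ^ (n + 1) := orderOf_dvd_of_pow_eq_one h
  obtain ⟨m, hm, hm'⟩ := (Nat.dvd_prime_pow hpp.out).1 hdvd
  rcases m with _ | m
  · have : z = 1 := by
      rw [pow_zero] at hm'
      exact orderOf_eq_one_iff.1 hm'
    rw [this, sub_self, norm_zero, zero_pow hexp]
    positivity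
  · have hprim : IsPrimitiveRoot z (p ^ (m + 1)) := by
      rw [← hm']; exact IsPrimitiveRoot.orderOf z
    have h1 := norm_one_sub_primitive hp hprim
    have h2 : p ^ n * (p - 1) = p ^ m * (p - 1) * p ^ (n - m) := by
      have : n = m + (n - m) := by omega
      conv_lhs => rw [this, pow_add]
      ring
    rw [h2, pow_mul, h1]
    have hpinv : (p : ℝ)⁻¹ ≤ 1 := by
      apply inv_le_one_of_one_le₀
      exact_mod_cast hp1.le
    calc ((p : ℝ)⁻¹) ^ p ^ (n - m) ≤ ((p : ℝ)⁻¹) ^ 1 := by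
          apply pow_le_pow_of_le_one (by positivity) hpinv
          exact Nat.one_le_pow _ _ (by omega)
      _ = (p : ℝ)⁻¹ := pow_one _

end Roots

section Chars

variable {p : ℕ} [hpp : Fact p.Prime] {K : Type*} [Field K]

/-- Approximation of p-adic numbers by natural multiples of `p^(-n)`. -/
lemma exists_nat_approx (n m : ℕ) {y : ℚ_[p]} (hy : ‖y‖ ≤ (p : ℝ) ^ n) :
    ∃ k : ℕ, k < p ^ (n + m) ∧ ‖y - (k : ℚ_[p]) / (p : ℚ_[p]) ^ n‖ ≤ ((p : ℝ) ^ m)⁻¹ := by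
  have hp0 : (p : ℝ) ≠ 0 := by exact_mod_cast hpp.out.ne_zero
  have hpQ : (p : ℚ_[p]) ≠ 0 := by exact_mod_cast hpp.out.ne_zero
  have h1 : ‖y * (p : ℚ_[p]) ^ n‖ ≤ 1 := by
    rw [norm_mul, norm_pow, Padic.norm_p, inv_pow, ← div_eq_mul_inv]
    apply div_le_one_of_le₀ hy (by positivity)
  set w : ℤ_[p] := ⟨y * (p : ℚ_[p]) ^ n, h1⟩ with hw
  refine ⟨w.appr (n + m), w.appr_lt _, ?_⟩
  have h2 := PadicInt.appr_spec (n + m) w
  rw [← PadicInt.norm_le_pow_iff_mem_span_pow] at h2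
  have h3 : y - (w.appr (n + m) : ℚ_[p]) / (p : ℚ_[p]) ^ n
      = ((w - (w.appr (n + m) : ℤ_[p]) : ℤ_[p]) : ℚ_[p]) / (p : ℚ_[p]) ^ n := by
    rw [PadicInt.coe_sub, hw]
    field_simp
    simp
  rw [h3, norm_div, norm_pow, Padic.norm_p]
  have h4 : ‖((w - (w.appr (n + m) : ℤ_[p]) : ℤ_[p]) : ℚ_[p])‖ ≤ (p : ℝ) ^ (-((n + m : ℕ) : ℤ)) := by
    exact h2
  rw [zpow_neg, zpow_natCast] at h4
  calc ‖((w - (w.appr (n + m) : ℤ_[p]) : ℤ_[p]) : ℚ_[p])‖ / ((p : ℝ)⁻¹) ^ n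
      ≤ ((p : ℝ) ^ (n + m))⁻¹ / ((p : ℝ)⁻¹) ^ n := by gcongr
    _ = ((p : ℝ) ^ m)⁻¹ := by
        rw [pow_add, inv_pow]
        field_simp

/-- The kernel of a standard character is exactly `ℤ_p`. -/
lemma StdChar.norm_le_one {e : AddChar ℚ_[p] K} (he : StdChar e) {y : ℚ_[p]} (hy : e y = 1) :
    ‖y‖ ≤ 1 := by
  by_contra hcon
  push Not at hcon
  have hpQ : (p : ℚ_[p]) ≠ 0 := by exact_mod_cast hpp.out.ne_zero
  have hp1 : (1 : ℝ) < p := by exact_mod_cast hpp.out.one_lt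
  have hy0 : y ≠ 0 := by
    rintro rfl; simp at hcon; linarith
  -- norm of y is p^(j+1)
  obtain ⟨j, hj⟩ : ∃ j : ℕ, ‖y‖ = (p : ℝ) ^ (j + 1) := by
    have h1 := Padic.norm_eq_zpow_neg_valuation hy0
    rw [h1] at hcon
    have h2 : 0 < -y.valuation := by
      by_contra h3
      push Not at h3
      have : (p : ℝ) ^ (-y.valuation) ≤ 1 := zpow_le_one_of_nonpos₀ hp1.le h3
      linarith
    refine ⟨(-y.valuation).toNat - 1, ?_⟩
    rw [h1]
    have h4 : (-y.valuation) = (((-y.valuation).toNat - 1 + 1 : ℕ) : ℤ) := by omega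
    conv_lhs => rw [h4]
    rw [zpow_natCast]
  set u : ℚ_[p] := y * (p : ℚ_[p]) ^ (j + 1) with hu
  have hun : ‖u‖ = 1 := by
    rw [hu, norm_mul, hj, norm_pow, Padic.norm_p, inv_pow]
    apply mul_inv_cancel₀
    positivity
  have hu0 : u ≠ 0 := by
    intro h; rw [h, norm_zero] at hun; norm_num at hun
  have huinv : ‖u⁻¹‖ ≤ (p : ℝ) ^ 0 := by rw [norm_inv, hun]; simp
  obtain ⟨m, _, hm⟩ := exists_nat_approx 0 1 huinv
  rw [pow_zero, div_one, pow_one] at hm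
  have h5 : e ((p : ℚ_[p])⁻¹) = e ((m * p ^ j : ℕ) • y) := by
    apply he.congr
    have : (p : ℚ_[p])⁻¹ - (m * p ^ j : ℕ) • y = (p : ℚ_[p])⁻¹ * (u * (u⁻¹ - (m : ℚ_[p]))) := by
      rw [nsmul_eq_mul, mul_sub, mul_inv_cancel₀ hu0, mul_sub, mul_one, hu]
      push_cast
      field_simp
      ring
    rw [this, norm_mul, norm_mul, hun, one_mul, norm_inv, Padic.norm_p, inv_inv]
    calc (p : ℝ) * ‖u⁻¹ - (m : ℚ_[p])‖ ≤ p * (p : ℝ)⁻¹ := by gcongr
      _ = 1 := by field_simp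
  rw [AddChar.map_nsmul_eq_pow, hy, one_pow] at h5
  exact he.ne h5

lemma StdChar.eq_one_iff {e : AddChar ℚ_[p] K} (he : StdChar e) {y : ℚ_[p]} :
    e y = 1 ↔ ‖y‖ ≤ 1 := ⟨he.norm_le_one, he.triv y⟩

lemma StdChar.isPrimitiveRoot {e : AddChar ℚ_[p] K} (he : StdChar e) {u : ℚ_[p]}
    (hu : ‖u‖ = 1) (n : ℕ) : IsPrimitiveRoot (e (u / (p : ℚ_[p]) ^ n)) (p ^ n) := by
  have hpQ : (p : ℚ_[p]) ≠ 0 := by exact_mod_cast hpp.out.ne_zero
  have hp0 : (0 : ℝ) < p := by exact_mod_cast hpp.out.pos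
  constructor
  · rw [← AddChar.map_nsmul_eq_pow]
    apply he.triv
    rw [nsmul_eq_mul]
    push_cast
    rw [mul_div_cancel₀ _ (pow_ne_zero _ hpQ)]
    exact hu.le
  · intro l hl
    rw [← AddChar.map_nsmul_eq_pow] at hl
    have h1 := he.norm_le_one hl
    rw [nsmul_eq_mul, norm_mul, norm_div, hu, norm_pow, Padic.norm_p, inv_pow, one_div, inv_inv] at h1
    have h2 : ‖((l : ℤ) : ℚ_[p])‖ ≤ (p : ℝ) ^ (-(n : ℤ)) := by
      rw [zpow_neg, zpow_natCast, Int.cast_natCast]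
      rwa [← one_div, le_div_iff₀ (pow_pos hp0 n)]
    rw [Padic.norm_int_le_pow_iff_dvd] at h2
    exact_mod_cast h2

end Chars

end Pool.Agent.V11283.Heis
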