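import Mathlib
import Pool.Agent.V11283.Heis.Char

/-!
# The generators `mod_b trans_a v0` span the Schwartz-Bruhat space
-/

namespace Pool.Agent.V11283.Heis

open scoped BigOperators

variable {p : ℕ} [hpp : Fact p.Prime] {d : ℕ} {K : Type*} [Field K]

lemma geom_root (N : ℕ) {z : K} (hz : z ^ N = 1) [Decidable (z = 1)] :
    ∑ j : Fin N, z ^ (j : ℕ) = if z = 1 then (N : K) else 0 := by
  rw [Fin.sum_univ_eq_sum_range (fun j => z ^ j) N]
  split_ifs with h
  · simp [h]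
  · have h1 := mul_neg_geom_sum z N
    rw [hz, sub_self] at h1
    rcases mul_eq_zero.1 h1 with h2 | h2
    · exact absurd (sub_eq_zero.1 h2).symm h
    · exact h2

lemma map_sum_prod {A' ι : Type*} [AddCommMonoid A'] (e : AddChar A' K)
    (s : Finset ι) (f : ι → A') : e (∑ i ∈ s, f i) = ∏ i ∈ s, e (f i) := by
  classical
  induction s using Finset.induction_on with
  | empty => simp
  | insert a s ha ih => rw [Finset.sum_insert ha, Finset.prod_insert ha, AddChar.map_add_eq_mul, ih]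

lemma norm_sub_le_max' {E : Type*} [SeminormedAddCommGroup E] [IsUltrametricDist E] (x y : E) :
    ‖x - y‖ ≤ max ‖x‖ ‖y‖ := by
  rw [sub_eq_add_neg]
  refine (IsUltrametricDist.norm_add_le_max _ _).trans ?_
  rw [norm_neg]

/-- The p-adic vector attached to a vector of naturals. -/
noncomputable def natVec (p : ℕ) [Fact p.Prime] {d N : ℕ} (k : Fin d → Fin N) : Fin d → ℚ_[p] :=
  fun i => ((k i : ℕ) : ℚ_[p])

open Classical in
lemma orth {e : AddChar ℚ_[p] K} (he : StdChar e) (n : ℕ) (y : Fin d → ℚ_[p])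
    (hy : ∀ i, ‖y i‖ ≤ (p : ℝ) ^ n) :
    ∑ k : Fin d → Fin (p ^ n), e (natVec p k ⬝ᵥ y) =
      if y ∈ Zpd p d then ((p : K) ^ n) ^ d else 0 := by
  have hpow : ∀ i, (e (y i)) ^ (p ^ n) = 1 := by
    intro i
    rw [← AddChar.map_nsmul_eq_pow]
    apply he.triv
    rw [nsmul_eq_mul]
    push_cast
    rw [norm_mul, norm_pow, Padic.norm_p, inv_pow]
    rw [inv_mul_le_iff₀ (pow_pos (by exact_mod_cast hpp.out.pos) n), mul_one]
    exact hy i
  have h1 : ∀ k : Fin d → Fin (p ^ n), e (natVec p k ⬝ᵥ y) = ∏ i, (e (y i)) ^ (k i : ℕ) := by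
    intro k
    rw [dotProduct, map_sum_prod]
    apply Finset.prod_congr rfl
    intro i _
    rw [natVec, ← AddChar.map_nsmul_eq_pow, nsmul_eq_mul]
  simp_rw [h1]
  have h2 := Finset.prod_univ_sum (fun _ : Fin d => (Finset.univ : Finset (Fin (p ^ n))))
    (fun i j => (e (y i)) ^ (j : ℕ))
  rw [Fintype.piFinset_univ] at h2
  rw [← h2]
  simp_rw [geom_root (p ^ n) (hpow _)]
  split_ifs with h
  · have : ∀ i, e (y i) = 1 := fun i => he.triv _ (h i)
    simp [this]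
  · have : ∃ i, ¬ ‖y i‖ ≤ 1 := by
      by_contra hcon
      push Not at hcon
      exact h hcon
    obtain ⟨i, hi⟩ := this
    apply Finset.prod_eq_zero (Finset.mem_univ i)
    rw [if_neg]
    intro h3
    exact hi (he.norm_le_one h3)

lemma exists_pow_ge (R : ℝ) : ∃ n : ℕ, R ≤ (p : ℝ) ^ n := by
  have hp1 : (1 : ℝ) < p := by exact_mod_cast hpp.out.one_lt
  obtain ⟨n, hn⟩ := pow_unbounded_of_one_lt R hp1
  exact ⟨n, hn.le⟩

lemma exists_uniform (f : SB p d K) : ∃ n : ℕ,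
    (∀ x, (∃ i, (p : ℝ) ^ n < ‖x i‖) → f.1 x = 0) ∧
    (∀ x z, (∀ i, ‖z i‖ ≤ ((p : ℝ) ^ n)⁻¹) → f.1 (x + z) = f.1 x) := by
  have hp1 : (1 : ℝ) < p := by exact_mod_cast hpp.out.one_lt
  have hp0 : (0 : ℝ) < p := by linarith
  have hC : IsCompact (tsupport f.1) := f.2.2
  obtain ⟨R, hR⟩ := hC.isBounded.subset_closedBall 0
  obtain ⟨n1, hn1⟩ := exists_pow_ge (p := p) R
  obtain ⟨δ, hδ, hδ'⟩ := lebesgue_number_lemma_of_metric (s := tsupport f.1)
    (c := fun y : K => f.1 ⁻¹' {y}) hC (fun y => f.2.1.isOpen_fiber y)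
    (by intro x _; simp)
  obtain ⟨n2, hn2⟩ := exists_pow_ge (p := p) (2 * δ⁻¹)
  refine ⟨n1 + n2, ?_, ?_⟩
  · rintro x ⟨i, hi⟩
    by_contra hcon
    have hx : x ∈ tsupport f.1 := subset_tsupport _ hcon
    have h1 := hR hx
    rw [mem_closedBall_zero_iff] at h1
    have h2 : ‖x i‖ ≤ ‖x‖ := norm_le_pi_norm x i
    have h3 : (p : ℝ) ^ n1 ≤ (p : ℝ) ^ (n1 + n2) := pow_le_pow_right₀ hp1.le (by omega)
    linarith
  · intro x z hz
    have hzδ : ‖z‖ < δ := by
      have h1 : ‖z‖ ≤ ((p : ℝ) ^ (n1 + n2))⁻¹ := by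
        rw [pi_norm_le_iff_of_nonneg (by positivity)]
        exact hz
      have h2 : ((p : ℝ) ^ (n1 + n2))⁻¹ ≤ ((p : ℝ) ^ n2)⁻¹ := by
        apply inv_anti₀ (by positivity)
        exact pow_le_pow_right₀ hp1.le (by omega)
      have h3 : ((p : ℝ) ^ n2)⁻¹ ≤ (2 * δ⁻¹)⁻¹ := inv_anti₀ (by positivity) hn2
      have h4 : (2 * δ⁻¹)⁻¹ = δ / 2 := by field_simp
      rw [h4] at h3
      linarith
    have key : ∀ u v : Fin d → ℚ_[p], u ∈ tsupport f.1 → dist v u < δ → f.1 v = f.1 u := by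
      intro u v hu huv
      obtain ⟨y, hy⟩ := hδ' u hu
      have h1 : f.1 u = y := hy (Metric.mem_ball_self hδ)
      have h2 : f.1 v = y := hy huv
      rw [h1, h2]
    by_cases hx : x ∈ tsupport f.1
    · apply key _ _ hx
      simpa using hzδ
    · by_cases hxz : x + z ∈ tsupport f.1
      · symm
        apply key _ _ hxz
        simpa using hzδ
      · rw [image_eq_zero_of_notMem_tsupport hx, image_eq_zero_of_notMem_tsupport hxz]

open Classical in
/-- Indicator functions of small cosets in terms of generators. -/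
lemma coset_indicator [CharZero K] {e : AddChar ℚ_[p] K} (he : StdChar e) (n : ℕ)
    (y x : Fin d → ℚ_[p]) :
    ((((p : K) ^ n) ^ d)⁻¹ • ∑ k : Fin d → Fin (p ^ n),
      e (-((((p : ℚ_[p]) ^ n)⁻¹ • natVec p k) ⬝ᵥ y)) •
        gen he (-y) (((p : ℚ_[p]) ^ n)⁻¹ • natVec p k)).1 x =
      if (∀ i, ‖x i - y i‖ ≤ ((p : ℝ) ^ n)⁻¹) then 1 else 0 := by
  have hpQ : (p : ℚ_[p]) ≠ 0 := by exact_mod_cast hpp.out.ne_zero
  have hp0 : (0 : ℝ) < p := by exact_mod_cast hpp.out.pos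
  have hpK : (p : K) ≠ 0 := by exact_mod_cast hpp.out.ne_zero
  have hp1 : (1 : ℝ) < p := by exact_mod_cast hpp.out.one_lt
  have h0 : ((((p : K) ^ n) ^ d)⁻¹ • ∑ k : Fin d → Fin (p ^ n),
      e (-((((p : ℚ_[p]) ^ n)⁻¹ • natVec p k) ⬝ᵥ y)) •
        gen he (-y) (((p : ℚ_[p]) ^ n)⁻¹ • natVec p k)).1 x =
      (((p : K) ^ n) ^ d)⁻¹ * ((∑ k : Fin d → Fin (p ^ n),
        e (natVec p k ⬝ᵥ (((p : ℚ_[p]) ^ n)⁻¹ • (x - y)))) * (v0 : SB p d K).1 (x - y)) := by
    rw [Submodule.coe_smul, Pi.smul_apply, smul_eq_mul]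
    congr 1
    rw [Submodule.coe_sum, Finset.sum_apply, Finset.sum_mul]
    apply Finset.sum_congr rfl
    intro k _
    rw [Submodule.coe_smul, Pi.smul_apply, smul_eq_mul, gen_apply, ← mul_assoc,
      ← AddChar.map_add_eq_mul, ← sub_eq_add_neg]
    congr 2
    rw [dotProduct_smul, smul_dotProduct, smul_dotProduct, dotProduct_sub, smul_eq_mul, smul_eq_mul]
    ring
  rw [h0]
  by_cases hx : x - y ∈ Zpd p d
  · rw [v0_apply_of_mem hx, mul_one, orth he n]
    · by_cases hx2 : (∀ i, ‖x i - y i‖ ≤ ((p : ℝ) ^ n)⁻¹)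
      · rw [if_pos hx2, if_pos]
        · exact inv_mul_cancel₀ (pow_ne_zero _ (pow_ne_zero _ hpK))
        · intro i
          rw [Pi.smul_apply, smul_eq_mul, norm_mul, norm_inv, norm_pow, Padic.norm_p, inv_pow,
            inv_inv, Pi.sub_apply]
          calc (p : ℝ) ^ n * ‖x i - y i‖ ≤ (p : ℝ) ^ n * ((p : ℝ) ^ n)⁻¹ := by
                gcongr
                exact hx2 i
            _ = 1 := by field_simp
      · rw [if_neg hx2, if_neg]
        · rw [mul_zero]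
        · intro hcon
          apply hx2
          intro i
          have h1 := hcon i
          rw [Pi.smul_apply, smul_eq_mul, norm_mul, norm_inv, norm_pow, Padic.norm_p, inv_pow,
            inv_inv, Pi.sub_apply] at h1
          rw [← one_div, le_div_iff₀ (pow_pos hp0 n), mul_comm]
          exact h1
    · intro i
      rw [Pi.smul_apply, smul_eq_mul, norm_mul, norm_inv, norm_pow, Padic.norm_p, inv_pow,
            inv_inv]
      exact mul_le_of_le_one_right (by positivity) (hx i)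
  · rw [v0_apply_of_notMem hx, mul_zero, mul_zero, if_neg]
    intro hcon
    apply hx
    intro i
    refine (hcon i).trans ?_
    apply inv_le_one_of_one_le₀
    exact one_le_pow₀ hp1.le

lemma natVec_unique (n : ℕ) (x : Fin d → ℚ_[p]) (j j' : Fin d → Fin (p ^ (n + n)))
    (h : ∀ i, ‖x i - (((p : ℚ_[p]) ^ n)⁻¹ • natVec p j) i‖ ≤ ((p : ℝ) ^ n)⁻¹)
    (h' : ∀ i, ‖x i - (((p : ℚ_[p]) ^ n)⁻¹ • natVec p j') i‖ ≤ ((p : ℝ) ^ n)⁻¹) : j = j' := by
  have hpQ : (p : ℚ_[p]) ≠ 0 := by exact_mod_cast hpp.out.ne_zero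
  have hp0 : (0 : ℝ) < p := by exact_mod_cast hpp.out.pos
  funext i
  have h1 := h i
  have h2 := h' i
  simp only [Pi.smul_apply, smul_eq_mul, natVec] at h1 h2
  set u : ℤ := ((j i : ℕ) : ℤ) - ((j' i : ℕ) : ℤ) with hu
  have h3 : ‖((p : ℚ_[p]) ^ n)⁻¹ * (u : ℚ_[p])‖ ≤ ((p : ℝ) ^ n)⁻¹ := by
    have : ((p : ℚ_[p]) ^ n)⁻¹ * (u : ℚ_[p]) =
        (x i - ((p : ℚ_[p]) ^ n)⁻¹ * ((j' i : ℕ) : ℚ_[p])) -
        (x i - ((p : ℚ_[p]) ^ n)⁻¹ * ((j i : ℕ) : ℚ_[p])) := by
      rw [hu]; push_cast; ring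
    rw [this]
    exact (norm_sub_le_max' _ _).trans (max_le h2 h1)
  rw [norm_mul, norm_inv, norm_pow, Padic.norm_p, inv_pow, inv_inv] at h3
  have h4 : ‖(u : ℚ_[p])‖ ≤ (p : ℝ) ^ (-((n + n : ℕ) : ℤ)) := by
    rw [zpow_neg, zpow_natCast, pow_add, mul_inv]
    rw [← le_div_iff₀' (pow_pos hp0 n)] at h3
    rwa [div_eq_mul_inv] at h3
  rw [Padic.norm_int_le_pow_iff_dvd] at h4
  have h5 : u = 0 := by
    apply Int.eq_zero_of_abs_lt_dvd h4
    rw [abs_lt]
    have a1 : ((j i : ℕ) : ℤ) < ((p ^ (n + n) : ℕ) : ℤ) := by exact_mod_cast (j i).2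
    have a2 : ((j' i : ℕ) : ℤ) < ((p ^ (n + n) : ℕ) : ℤ) := by exact_mod_cast (j' i).2
    have a3 : (0 : ℤ) ≤ ((j i : ℕ) : ℤ) := Int.natCast_nonneg _
    have a4 : (0 : ℤ) ≤ ((j' i : ℕ) : ℤ) := Int.natCast_nonneg _
    push_cast at a1 a2
    constructor
    · rw [hu]; linarith
    · rw [hu]; linarith
  apply Fin.ext
  omega

lemma span_gen [CharZero K] {e : AddChar ℚ_[p] K} (he : StdChar e) :
    Submodule.span K (Set.range (fun ab : (Fin d → ℚ_[p]) × (Fin d → ℚ_[p]) =>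
      gen he ab.1 ab.2)) = ⊤ := by
  classical
  have hpQ : (p : ℚ_[p]) ≠ 0 := by exact_mod_cast hpp.out.ne_zero
  have hp0 : (0 : ℝ) < p := by exact_mod_cast hpp.out.pos
  have hp1 : (1 : ℝ) < p := by exact_mod_cast hpp.out.one_lt
  rw [eq_top_iff]
  intro f _
  obtain ⟨n, hn1, hn2⟩ := exists_uniform f
  have key : f = ∑ j : Fin d → Fin (p ^ (n + n)), f.1 (((p : ℚ_[p]) ^ n)⁻¹ • natVec p j) •
      ((((p : K) ^ n) ^ d)⁻¹ • ∑ k : Fin d → Fin (p ^ n),
      e (-((((p : ℚ_[p]) ^ n)⁻¹ • natVec p k) ⬝ᵥ (((p : ℚ_[p]) ^ n)⁻¹ • natVec p j))) •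
        gen he (-(((p : ℚ_[p]) ^ n)⁻¹ • natVec p j)) (((p : ℚ_[p]) ^ n)⁻¹ • natVec p k)) := by
    apply Subtype.ext
    funext x
    rw [Submodule.coe_sum, Finset.sum_apply]
    simp_rw [Submodule.coe_smul (f.1 _), Pi.smul_apply, smul_eq_mul]
    have hci := fun j : Fin d → Fin (p ^ (n + n)) =>
      coset_indicator he n (((p : ℚ_[p]) ^ n)⁻¹ • natVec p j) x
    rw [Finset.sum_congr rfl (fun j _ => by rw [hci j])]
    by_cases hx : ∃ i, (p : ℝ) ^ n < ‖x i‖
    · rw [hn1 x hx]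
      symm
      apply Finset.sum_eq_zero
      intro j _
      rw [if_neg, mul_zero]
      intro hcon
      obtain ⟨i, hi⟩ := hx
      have h1 := hcon i
      have h2 : ‖(((p : ℚ_[p]) ^ n)⁻¹ • natVec p j) i‖ ≤ (p : ℝ) ^ n := by
        rw [Pi.smul_apply, smul_eq_mul, norm_mul, norm_inv, norm_pow, Padic.norm_p, inv_pow,
            inv_inv]
        apply mul_le_of_le_one_right (by positivity)
        exact Padic.norm_int_le_one ((j i : ℕ) : ℤ)
      have h3 : x i = (x i - (((p : ℚ_[p]) ^ n)⁻¹ • natVec p j) i) +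
        (((p : ℚ_[p]) ^ n)⁻¹ • natVec p j) i := by ring
      have h4 : ‖x i‖ ≤ (p : ℝ) ^ n := by
        rw [h3]
        refine (IsUltrametricDist.norm_add_le_max _ _).trans (max_le ?_ h2)
        refine h1.trans ?_
        calc ((p : ℝ) ^ n)⁻¹ ≤ 1 := inv_le_one_of_one_le₀ (one_le_pow₀ hp1.le)
          _ ≤ (p : ℝ) ^ n := one_le_pow₀ hp1.le
      linarith
    · push Not at hx
      choose k hk1 hk2 using fun i => exists_nat_approx n n (hx i)
      set j0 : Fin d → Fin (p ^ (n + n)) := fun i => ⟨k i, hk1 i⟩ with hj0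
      have hj0' : ∀ i, ‖x i - (((p : ℚ_[p]) ^ n)⁻¹ • natVec p j0) i‖ ≤ ((p : ℝ) ^ n)⁻¹ := by
        intro i
        have := hk2 i
        simp only [Pi.smul_apply, smul_eq_mul, natVec, hj0]
        rwa [div_eq_inv_mul] at this
      rw [Finset.sum_eq_single j0]
      · rw [if_pos hj0', mul_one]
        have := hn2 (((p : ℚ_[p]) ^ n)⁻¹ • natVec p j0)
          (x - ((p : ℚ_[p]) ^ n)⁻¹ • natVec p j0) (by
            intro i
            simpa using hj0' i)
        rw [← this]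
        rw [add_sub_cancel]
      · intro j _ hj
        rw [if_neg, mul_zero]
        intro hcon
        exact hj (natVec_unique n x j j0 hcon hj0')
      · intro h
        exact absurd (Finset.mem_univ _) h
  rw [key]
  apply Submodule.sum_mem
  intro j _
  apply Submodule.smul_mem
  apply Submodule.smul_mem
  apply Submodule.sum_mem
  intro k _
  apply Submodule.smul_mem
  apply Submodule.subset_span
  exact ⟨(_, _), rfl⟩

end Pool.Agent.V11283.Heis
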