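import Mathlib
import Pool.Agent.V11283.Heis.Span

/-!
# A basis of the Schwartz-Bruhat space and the universal property
-/

namespace Pool.Agent.V11283.Heis

open scoped BigOperators

section Cls

/-- The additive subgroup `ℤ_p` of `ℚ_p`. -/
noncomputable def Zp1 (p : ℕ) [Fact p.Prime] : AddSubgroup ℚ_[p] where
  carrier := {z | ‖z‖ ≤ 1}
  add_mem' := by
    intro a b ha hb
    exact (IsUltrametricDist.norm_add_le_max _ _).trans (max_le ha hb)
  zero_mem' := by simp
  neg_mem' := by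
    intro a ha
    simpa using ha

/-- Classes modulo `ℤ_p^d`. -/
abbrev Cls (p : ℕ) [Fact p.Prime] (d : ℕ) := Fin d → (ℚ_[p] ⧸ Zp1 p)

variable {p : ℕ} [hpp : Fact p.Prime] {d : ℕ}

/-- Chosen representative of a class. -/
noncomputable def rep (q : Cls p d) : Fin d → ℚ_[p] := fun i => (q i).out

/-- Class of a vector. -/
noncomputable def cls (x : Fin d → ℚ_[p]) : Cls p d := fun i => (QuotientAddGroup.mk (x i))

lemma rep_cls (x : Fin d → ℚ_[p]) : x - rep (cls x) ∈ Zpd p d := by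
  intro i
  have h1 : (QuotientAddGroup.mk (rep (cls x) i) : ℚ_[p] ⧸ Zp1 p) = QuotientAddGroup.mk (x i) :=
    Quotient.out_eq _
  rw [QuotientAddGroup.eq] at h1
  have h2 : ‖-(rep (cls x) i) + x i‖ ≤ 1 := h1
  rw [Pi.sub_apply]
  rwa [neg_add_eq_sub] at h2

lemma eq_of_rep {q q' : Cls p d} (h : -rep q + rep q' ∈ Zpd p d) : q = q' := by
  funext i
  have h1 : (QuotientAddGroup.mk (rep q i) : ℚ_[p] ⧸ Zp1 p) = QuotientAddGroup.mk (rep q' i) := by
    rw [QuotientAddGroup.eq]
    exact h i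
  have h2 : (QuotientAddGroup.mk (rep q i) : ℚ_[p] ⧸ Zp1 p) = q i := Quotient.out_eq _
  have h3 : (QuotientAddGroup.mk (rep q' i) : ℚ_[p] ⧸ Zp1 p) = q' i := Quotient.out_eq _
  rw [← h2, ← h3, h1]

end Cls

variable {p : ℕ} [hpp : Fact p.Prime] {d : ℕ} {K : Type*} [Field K]

/-- Averaging over `[0,p^n)^d`. -/
noncomputable def avg (n : ℕ) : SB p d K →ₗ[K] K :=
  (((p : K) ^ n) ^ d)⁻¹ • ∑ k : Fin d → Fin (p ^ n), evalAt (natVec p k)

lemma natVec_mem {N : ℕ} (k : Fin d → Fin N) : natVec p k ∈ Zpd p d := by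
  intro i
  exact Padic.norm_int_le_one ((k i : ℕ) : ℤ)

open Classical in
lemma avg_gen [CharZero K] {e : AddChar ℚ_[p] K} (he : StdChar e) (n : ℕ)
    (a b : Fin d → ℚ_[p]) (hb : ∀ i, ‖b i‖ ≤ (p : ℝ) ^ n) :
    avg n (gen he a b) = if (a ∈ Zpd p d ∧ b ∈ Zpd p d) then 1 else 0 := by
  have hpK : (p : K) ≠ 0 := by exact_mod_cast hpp.out.ne_zero
  rw [avg, LinearMap.smul_apply, LinearMap.sum_apply, smul_eq_mul]
  simp_rw [evalAt_apply, gen_apply]
  by_cases ha : a ∈ Zpd p d
  · have h1 : ∀ k : Fin d → Fin (p ^ n), (v0 : SB p d K).1 (natVec p k + a) = 1 := fun k =>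
      v0_apply_of_mem (Zpd_add (natVec_mem k) ha)
    simp_rw [h1, mul_one]
    have h2 : ∀ k : Fin d → Fin (p ^ n), b ⬝ᵥ natVec p k = natVec p k ⬝ᵥ b := fun k =>
      dotProduct_comm _ _
    simp_rw [h2, orth he n b hb]
    by_cases hb' : b ∈ Zpd p d
    · rw [if_pos hb', if_pos ⟨ha, hb'⟩]
      exact inv_mul_cancel₀ (pow_ne_zero _ (pow_ne_zero _ hpK))
    · rw [if_neg hb', if_neg (fun h => hb' h.2), mul_zero]
  · have h1 : ∀ k : Fin d → Fin (p ^ n), (v0 : SB p d K).1 (natVec p k + a) = 0 := by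
      intro k
      apply v0_apply_of_notMem
      rw [add_comm, Zpd_add_iff (natVec_mem k)]
      exact ha
    simp_rw [h1, mul_zero]
    rw [Finset.sum_const_zero, mul_zero, if_neg (fun h => ha h.1)]

lemma linInd [CharZero K] {e : AddChar ℚ_[p] K} (he : StdChar e) :
    LinearIndependent K (fun w : Cls p d × Cls p d => gen he (rep w.1) (rep w.2)) := by
  classical
  rw [linearIndependent_iff']
  intro s g hg w0 hw0
  obtain ⟨n, hn⟩ : ∃ n : ℕ, ∀ w ∈ s, ∀ i, ‖(-rep w0.2 + rep w.2) i‖ ≤ (p : ℝ) ^ n := by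
    obtain ⟨n, hn⟩ := exists_pow_ge (p := p) (∑ w ∈ s, ∑ i, ‖(-rep w0.2 + rep w.2) i‖)
    refine ⟨n, fun w hw i => ?_⟩
    refine le_trans ?_ hn
    calc ‖(-rep w0.2 + rep w.2) i‖ ≤ ∑ i, ‖(-rep w0.2 + rep w.2) i‖ :=
          Finset.single_le_sum (f := fun i => ‖(-rep w0.2 + rep w.2) i‖)
            (fun _ _ => norm_nonneg _) (Finset.mem_univ i)
      _ ≤ _ := Finset.single_le_sum (f := fun w => ∑ i, ‖(-rep w0.2 + rep w.2) i‖)
            (fun _ _ => Finset.sum_nonneg (fun _ _ => norm_nonneg _)) hw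
  have h1 := congrArg (fun f => avg n (modu he (-rep w0.2) (trans (-rep w0.1) f))) hg
  simp only [map_sum, map_smul, map_zero, trans_gen, modu_gen] at h1
  rw [Finset.sum_eq_single w0] at h1
  · rw [avg_gen he n _ _ (hn w0 hw0), if_pos] at h1
    · rw [smul_eq_mul, smul_eq_mul, mul_one] at h1
      rcases mul_eq_zero.1 h1 with h2 | h2
      · exact h2
      · exfalso
        have h3 : e (rep w0.2 ⬝ᵥ -rep w0.1) * e (-(rep w0.2 ⬝ᵥ -rep w0.1)) = 1 := by
          rw [← AddChar.map_add_eq_mul]; simp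
        rw [h2, zero_mul] at h3
        exact zero_ne_one h3
    · constructor
      · rw [neg_add_cancel]; exact Zpd_zero
      · rw [neg_add_cancel]; exact Zpd_zero
  · intro w hw hne
    rw [avg_gen he n _ _ (hn w hw), if_neg]
    · simp
    · rintro ⟨h2, h3⟩
      apply hne
      exact (Prod.ext (eq_of_rep h2) (eq_of_rep h3)).symm
  · intro h
    exact absurd hw0 h

lemma gen_eq_rep {e : AddChar ℚ_[p] K} (he : StdChar e) (a b : Fin d → ℚ_[p]) :
    gen he a b = e (-((b - rep (cls b)) ⬝ᵥ rep (cls a))) •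
      gen he (rep (cls a)) (rep (cls b)) := by
  have h1 : a = rep (cls a) + (a - rep (cls a)) := by abel
  have h2 : b = rep (cls b) + (b - rep (cls b)) := by abel
  conv_lhs => rw [h1, h2, gen_add_left he _ _ (rep_cls a), gen_add_right he _ _ (rep_cls b)]

/-- The basis of the Schwartz-Bruhat space. -/
noncomputable def Bas [CharZero K] {e : AddChar ℚ_[p] K} (he : StdChar e) :
    Module.Basis (Cls p d × Cls p d) K (SB p d K) :=
  Module.Basis.mk (linInd he) (by
    rw [← span_gen he]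
    rw [Submodule.span_le]
    rintro f ⟨⟨a, b⟩, rfl⟩
    simp only
    rw [gen_eq_rep]
    apply Submodule.smul_mem
    apply Submodule.subset_span
    exact ⟨(cls a, cls b), rfl⟩)

lemma Bas_apply [CharZero K] {e : AddChar ℚ_[p] K} (he : StdChar e) (w : Cls p d × Cls p d) :
    Bas he w = gen he (rep w.1) (rep w.2) := by
  rw [Bas, Module.Basis.mk_apply]

/-- Universal property. -/
theorem exists_lift [CharZero K] {e : AddChar ℚ_[p] K} (he : StdChar e)
    {M : Type*} [AddCommGroup M] [Module K M]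
    (Λ : (Fin d → ℚ_[p]) → (Fin d → ℚ_[p]) → M)
    (h1 : ∀ a b l, l ∈ Zpd p d → Λ (a + l) b = Λ a b)
    (h2 : ∀ a b l, l ∈ Zpd p d → Λ a (b + l) = e (-(l ⬝ᵥ a)) • Λ a b) :
    ∃ L : SB p d K →ₗ[K] M, ∀ a b, L (gen he a b) = Λ a b := by
  refine ⟨(Bas he).constr K (fun w => Λ (rep w.1) (rep w.2)), ?_⟩
  intro a b
  rw [gen_eq_rep, map_smul]
  have h3 := (Bas he).constr_basis K (fun w => Λ (rep w.1) (rep w.2)) (cls a, cls b)
  rw [Bas_apply] at h3
  simp only at h3
  rw [h3]
  have e1 : a = rep (cls a) + (a - rep (cls a)) := by abel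
  have e2 : b = rep (cls b) + (b - rep (cls b)) := by abel
  conv_rhs => rw [e1, e2, h1 _ _ _ (rep_cls a), h2 _ _ _ (rep_cls b)]

/-- Linear maps agreeing on generators are equal. -/
theorem ext_gen [CharZero K] {e : AddChar ℚ_[p] K} (he : StdChar e)
    {M : Type*} [AddCommGroup M] [Module K M] {L L' : SB p d K →ₗ[K] M}
    (h : ∀ a b, L (gen he a b) = L' (gen he a b)) : L = L' := by
  apply LinearMap.ext_on (span_gen he)
  rintro f ⟨⟨a, b⟩, rfl⟩
  exact h a b

/-- The Fourier-type operator: `F (mod_b trans_a v0) = trans_b mod_(-a) v0`. -/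
theorem exists_F [CharZero K] {e : AddChar ℚ_[p] K} (he : StdChar e) :
    ∃ F : SB p d K →ₗ[K] SB p d K, ∀ a b, F (gen he a b) = trans b (modu he (-a) v0) := by
  apply exists_lift he (fun a b => trans b (modu he (-a) v0))
  · intro a b l hl
    rw [neg_add, ← modu_modu, modu_v0 he (Zpd_neg hl)]
  · intro a b l hl
    rw [← trans_trans, trans_modu, trans_v0 hl, map_smul, neg_dotProduct, dotProduct_comm]

noncomputable def FF [CharZero K] {e : AddChar ℚ_[p] K} (he : StdChar e) :
    SB p d K →ₗ[K] SB p d K := (exists_F he).choose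

lemma FF_gen [CharZero K] {e : AddChar ℚ_[p] K} (he : StdChar e) (a b : Fin d → ℚ_[p]) :
    FF he (gen he a b) = trans b (modu he (-a) v0) := (exists_F he).choose_spec a b

lemma FF_v0 [CharZero K] {e : AddChar ℚ_[p] K} (he : StdChar e) :
    FF he (v0 : SB p d K) = v0 := by
  have := FF_gen he (0 : Fin d → ℚ_[p]) 0
  rw [gen_zero, neg_zero, modu_zero, trans_zero] at this
  exact this

lemma FF_modu [CharZero K] {e : AddChar ℚ_[p] K} (he : StdChar e) (b : Fin d → ℚ_[p])
    (f : SB p d K) : FF he (modu he b f) = trans b (FF he f) := by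
  have : (FF he) ∘ₗ (modu he b) = (trans b) ∘ₗ (FF he) := by
    apply ext_gen he
    intro a' b'
    simp only [LinearMap.comp_apply]
    rw [modu_gen, FF_gen, FF_gen, trans_trans]
  exact LinearMap.congr_fun this f

lemma modu_trans {e : AddChar ℚ_[p] K} (he : StdChar e) (a b : Fin d → ℚ_[p]) (f : SB p d K) :
    modu he b (trans a f) = e (-(b ⬝ᵥ a)) • trans a (modu he b f) := by
  rw [trans_modu, smul_smul, ← AddChar.map_add_eq_mul]
  simp

lemma FF_trans [CharZero K] {e : AddChar ℚ_[p] K} (he : StdChar e) (a : Fin d → ℚ_[p])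
    (f : SB p d K) : FF he (trans a f) = modu he (-a) (FF he f) := by
  have : (FF he) ∘ₗ (trans a) = (modu he (-a)) ∘ₗ (FF he) := by
    apply ext_gen he
    intro a' b'
    simp only [LinearMap.comp_apply]
    rw [trans_gen, map_smul, FF_gen, FF_gen, modu_trans, modu_modu, neg_dotProduct, neg_neg,
      neg_add, dotProduct_comm]
  exact LinearMap.congr_fun this f

lemma FF_FF_gen [CharZero K] {e : AddChar ℚ_[p] K} (he : StdChar e) (a b : Fin d → ℚ_[p]) :
    FF he (FF he (gen he a b)) = gen he (-a) (-b) := by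
  rw [FF_gen, FF_trans, FF_modu, FF_v0]
  rfl

lemma FF_four [CharZero K] {e : AddChar ℚ_[p] K} (he : StdChar e) (f : SB p d K) :
    FF he (FF he (FF he (FF he f))) = f := by
  have : (FF he) ∘ₗ (FF he) ∘ₗ (FF he) ∘ₗ (FF he) = (LinearMap.id : SB p d K →ₗ[K] SB p d K) := by
    apply ext_gen he
    intro a b
    simp only [LinearMap.comp_apply, LinearMap.id_apply]
    rw [FF_FF_gen, FF_FF_gen, neg_neg, neg_neg]
  exact LinearMap.congr_fun this f

/-- The Fourier-type operator as an equivalence. -/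
noncomputable def FFe [CharZero K] {e : AddChar ℚ_[p] K} (he : StdChar e) :
    SB p d K ≃ₗ[K] SB p d K :=
  LinearEquiv.ofLinearMap (FF he) ((FF he) ∘ₗ (FF he) ∘ₗ (FF he))
    (by
      apply LinearMap.ext
      intro f
      simp only [LinearMap.comp_apply, LinearMap.id_apply]
      exact FF_four he f)
    (by
      apply LinearMap.ext
      intro f
      simp only [LinearMap.comp_apply, LinearMap.id_apply]
      exact FF_four he f)

lemma FFe_apply [CharZero K] {e : AddChar ℚ_[p] K} (he : StdChar e) (f : SB p d K) :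
    FFe he f = FF he f := rfl

end Pool.Agent.V11283.Heis
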