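import Mathlib
import Pool.Agent.V11283.Heis.Lift

/-!
# Invariant seminorms on the Schwartz-Bruhat space
-/

namespace Pool.Agent.V11283.Heis

open scoped BigOperators

section Irred

variable {p : ℕ} [hpp : Fact p.Prime] {d : ℕ} {K : Type*} [Field K]

lemma nat_unique (N : ℕ) {x : ℚ_[p]} {k k' : ℕ} (hk : k < p ^ N) (hk' : k' < p ^ N)
    (h : ‖x - (k : ℚ_[p])‖ ≤ ((p : ℝ) ^ N)⁻¹) (h' : ‖x - (k' : ℚ_[p])‖ ≤ ((p : ℝ) ^ N)⁻¹) :
    k = k' := by
  set u : ℤ := (k : ℤ) - (k' : ℤ) with hu
  have h3 : ‖(u : ℚ_[p])‖ ≤ ((p : ℝ) ^ N)⁻¹ := by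
    have : (u : ℚ_[p]) = (x - (k' : ℚ_[p])) - (x - (k : ℚ_[p])) := by
      rw [hu]; push_cast; ring
    rw [this]
    exact (norm_sub_le_max' _ _).trans (max_le h' h)
  have h4 : ‖(u : ℚ_[p])‖ ≤ (p : ℝ) ^ (-(N : ℤ)) := by
    rwa [zpow_neg, zpow_natCast]
  rw [Padic.norm_int_le_pow_iff_dvd] at h4
  have h5 : u = 0 := by
    apply Int.eq_zero_of_abs_lt_dvd h4
    rw [abs_lt]
    have a1 : (k : ℤ) < ((p ^ N : ℕ) : ℤ) := by exact_mod_cast hk
    have a2 : (k' : ℤ) < ((p ^ N : ℕ) : ℤ) := by exact_mod_cast hk'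
    push_cast at a1 a2
    constructor
    · rw [hu]; linarith [Int.natCast_nonneg k]
    · rw [hu]; linarith [Int.natCast_nonneg k']
  omega

/-- Irreducibility: `v0` is in the span of the orbit of every nonzero function. -/
theorem v0_mem_of_stable [CharZero K] {e : AddChar ℚ_[p] K} (he : StdChar e)
    (W : Submodule K (SB p d K))
    (htr : ∀ a f, f ∈ W → trans a f ∈ W) (hmo : ∀ b f, f ∈ W → modu he b f ∈ W)
    {f : SB p d K} (hf : f ∈ W) (hf0 : f ≠ 0) : v0 ∈ W := by
  classical
  have hpQ : (p : ℚ_[p]) ≠ 0 := by exact_mod_cast hpp.out.ne_zero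
  have hp0 : (0 : ℝ) < p := by exact_mod_cast hpp.out.pos
  have hp1 : (1 : ℝ) < p := by exact_mod_cast hpp.out.one_lt
  have hpK : (p : K) ≠ 0 := by exact_mod_cast hpp.out.ne_zero
  obtain ⟨x0, hx0⟩ : ∃ x0, f.1 x0 ≠ 0 := by
    by_contra hcon
    push Not at hcon
    apply hf0
    apply Subtype.ext
    funext x
    exact hcon x
  set g1 : SB p d K := trans x0 f with hg1
  have hg1W : g1 ∈ W := htr _ _ hf
  have hg10 : g1.1 0 ≠ 0 := by rw [hg1, trans_apply, zero_add]; exact hx0
  obtain ⟨n, hn1, hn2⟩ := exists_uniform g1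
  set g2 : SB p d K := ∑ k : Fin d → Fin (p ^ (n + n)),
    modu he (((p : ℚ_[p]) ^ n)⁻¹ • natVec p k) g1 with hg2
  have hg2W : g2 ∈ W := Submodule.sum_mem _ (fun k _ => hmo _ _ hg1W)
  have hg2v : ∀ x, g2.1 x = if (∀ i, ‖x i‖ ≤ ((p : ℝ) ^ n)⁻¹) then
      ((p : K) ^ (n + n)) ^ d * g1.1 0 else 0 := by
    intro x
    have h0 : g2.1 x = (∑ k : Fin d → Fin (p ^ (n + n)),
        e (natVec p k ⬝ᵥ (((p : ℚ_[p]) ^ n)⁻¹ • x))) * g1.1 x := by
      rw [hg2, Submodule.coe_sum, Finset.sum_apply, Finset.sum_mul]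
      apply Finset.sum_congr rfl
      intro k _
      rw [modu_apply, dotProduct_smul, smul_dotProduct]
    rw [h0]
    by_cases hx : ∃ i, (p : ℝ) ^ n < ‖x i‖
    · rw [hn1 x hx, mul_zero, if_neg]
      intro hcon
      obtain ⟨i, hi⟩ := hx
      have h1 := hcon i
      have h2 : ((p : ℝ) ^ n)⁻¹ ≤ 1 := inv_le_one_of_one_le₀ (one_le_pow₀ hp1.le)
      have h3 : (1 : ℝ) ≤ (p : ℝ) ^ n := one_le_pow₀ hp1.le
      linarith
    · push Not at hx
      rw [orth he (n + n)]
      · by_cases hx2 : (∀ i, ‖x i‖ ≤ ((p : ℝ) ^ n)⁻¹)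
        · rw [if_pos hx2, if_pos]
          · have := hn2 0 x hx2
            rw [zero_add] at this
            rw [this]
          · intro i
            rw [Pi.smul_apply, smul_eq_mul, norm_mul, norm_inv, norm_pow, Padic.norm_p, inv_pow,
              inv_inv]
            calc (p : ℝ) ^ n * ‖x i‖ ≤ (p : ℝ) ^ n * ((p : ℝ) ^ n)⁻¹ := by
                  gcongr
                  exact hx2 i
              _ = 1 := by field_simp
        · rw [if_neg hx2, if_neg, zero_mul]
          intro hcon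
          apply hx2
          intro i
          have h1 := hcon i
          rw [Pi.smul_apply, smul_eq_mul, norm_mul, norm_inv, norm_pow, Padic.norm_p, inv_pow,
            inv_inv] at h1
          rw [← one_div, le_div_iff₀ (pow_pos hp0 n), mul_comm]
          exact h1
      · intro i
        rw [Pi.smul_apply, smul_eq_mul, norm_mul, norm_inv, norm_pow, Padic.norm_p, inv_pow,
              inv_inv, pow_add]
        gcongr
        exact hx i
  set g3 : SB p d K := ∑ j : Fin d → Fin (p ^ n), trans (-(natVec p j)) g2 with hg3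
  have hg3W : g3 ∈ W := Submodule.sum_mem _ (fun k _ => htr _ _ hg2W)
  have hg3v : g3 = (((p : K) ^ (n + n)) ^ d * g1.1 0) • v0 := by
    apply Subtype.ext
    funext x
    rw [hg3, Submodule.coe_sum, Finset.sum_apply]
    simp_rw [trans_apply, hg2v, ← sub_eq_add_neg]
    rw [Submodule.coe_smul, Pi.smul_apply, smul_eq_mul]
    by_cases hx : x ∈ Zpd p d
    · rw [v0_apply_of_mem hx, mul_one]
      have hx' : ∀ i, ‖x i‖ ≤ (p : ℝ) ^ 0 := by
        intro i; rw [pow_zero]; exact hx i
      choose k hk1 hk2 using fun i => exists_nat_approx 0 n (hx' i)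
      simp only [pow_zero, div_one, zero_add] at hk1 hk2
      set j0 : Fin d → Fin (p ^ n) := fun i => ⟨k i, hk1 i⟩ with hj0
      rw [Finset.sum_eq_single j0]
      · rw [if_pos]
        intro i
        exact hk2 i
      · intro j _ hj
        rw [if_neg]
        intro hcon
        apply hj
        funext i
        apply Fin.ext
        exact nat_unique n (j i).2 (j0 i).2 (hcon i) (hk2 i)
      · intro h; exact absurd (Finset.mem_univ _) h
    · rw [v0_apply_of_notMem hx, mul_zero]
      apply Finset.sum_eq_zero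
      intro j _
      rw [if_neg]
      intro hcon
      apply hx
      have h1 : x - natVec p j ∈ Zpd p d := by
        intro i
        exact (hcon i).trans (inv_le_one_of_one_le₀ (one_le_pow₀ hp1.le))
      have h2 := Zpd_add h1 (natVec_mem j)
      rwa [sub_add_cancel] at h2
  have hc : ((p : K) ^ (n + n)) ^ d * g1.1 0 ≠ 0 :=
    mul_ne_zero (pow_ne_zero _ (pow_ne_zero _ hpK)) hg10
  have : v0 = (((p : K) ^ (n + n)) ^ d * g1.1 0)⁻¹ • g3 := by
    rw [hg3v, smul_smul, inv_mul_cancel₀ hc, one_smul]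
  rw [this]
  exact W.smul_mem _ hg3W

end Irred

section Semi

variable {p : ℕ} [hpp : Fact p.Prime] {d : ℕ} {K : Type*} [NormedField K]

/-- Non-archimedean seminorms on the Schwartz-Bruhat space. -/
structure IsNASeminorm (N : SB p d K → ℝ) : Prop where
  nonneg : ∀ f, 0 ≤ N f
  smul : ∀ (c : K) (f : SB p d K), N (c • f) = ‖c‖ * N f
  add_le : ∀ f g, N (f + g) ≤ max (N f) (N g)

/-- Non-archimedean norms on the Schwartz-Bruhat space. -/
structure IsNANorm (N : SB p d K → ℝ) : Prop extends IsNASeminorm N where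
  eq_zero : ∀ f, N f = 0 → f = 0

variable {N : SB p d K → ℝ}

lemma IsNASeminorm.zero (hN : IsNASeminorm N) : N 0 = 0 := by
  have := hN.smul 0 0
  rwa [zero_smul, norm_zero, zero_mul] at this

lemma IsNASeminorm.sum_le (hN : IsNASeminorm N) {ι : Type*} (s : Finset ι) (f : ι → SB p d K)
    {C : ℝ} (hC : 0 ≤ C) (h : ∀ i ∈ s, N (f i) ≤ C) : N (∑ i ∈ s, f i) ≤ C := by
  classical
  induction s using Finset.induction_on with
  | empty => rw [Finset.sum_empty, hN.zero]; exact hC
  | insert a s ha ih =>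
    rw [Finset.sum_insert ha]
    refine (hN.add_le _ _).trans (max_le ?_ ?_)
    · exact h a (Finset.mem_insert_self a s)
    · exact ih (fun i hi => h i (Finset.mem_insert_of_mem hi))

lemma IsNASeminorm.eq_zero_of_inv [CharZero K] {e : AddChar ℚ_[p] K} (he : StdChar e)
    (hN : IsNASeminorm N) (htr : ∀ a f, N (trans a f) = N f)
    (hmo : ∀ b f, N (modu he b f) = N f) (h0 : N v0 ≠ 0) {f : SB p d K} (hf : N f = 0) :
    f = 0 := by
  by_contra hf0
  set W : Submodule K (SB p d K) :=
    { carrier := {g | N g = 0}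
      add_mem' := by
        intro a b ha hb
        have ha' : N a = 0 := ha
        have hb' : N b = 0 := hb
        have := hN.add_le a b
        rw [ha', hb', max_self] at this
        exact le_antisymm this (hN.nonneg _)
      zero_mem' := hN.zero
      smul_mem' := by
        intro c g hg
        have hg' : N g = 0 := hg
        show N (c • g) = 0
        rw [hN.smul, hg', mul_zero] } with hW
  have : v0 ∈ W := v0_mem_of_stable he W
    (fun a g hg => by
      show N (trans a g) = 0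
      rw [htr]; exact hg)
    (fun b g hg => by
      show N (modu he b g) = 0
      rw [hmo]; exact hg) (f := f) hf hf0
  exact h0 this

/-- An invariant seminorm is controlled by the coefficients in the basis. -/
lemma IsNASeminorm.le_of_repr [CharZero K] {e : AddChar ℚ_[p] K} (he : StdChar e)
    (hN : IsNASeminorm N) {R : ℝ} (hR : ∀ a b, N (gen he a b) ≤ R) {f : SB p d K}
    {C : ℝ} (hC : 0 ≤ C) (h : ∀ w, ‖(Bas he).repr f w‖ ≤ C) : N f ≤ C * R := by
  have hR0 : 0 ≤ R := (hN.nonneg _).trans (hR 0 0)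
  have h1 := (Bas he).linearCombination_repr f
  rw [Finsupp.linearCombination_apply, Finsupp.sum] at h1
  rw [← h1]
  apply hN.sum_le _ _ (mul_nonneg hC hR0)
  intro w _
  rw [hN.smul, Bas_apply]
  exact mul_le_mul (h w) (hR _ _) (hN.nonneg _) hC

/-- Coefficients are bounded. -/
lemma exists_repr_bound [CharZero K] {e : AddChar ℚ_[p] K} (he : StdChar e) (f : SB p d K) :
    ∃ C : ℝ, 0 ≤ C ∧ ∀ w, ‖(Bas he).repr f w‖ ≤ C := by
  classical
  refine ⟨∑ w ∈ ((Bas he).repr f).support, ‖(Bas he).repr f w‖,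
    Finset.sum_nonneg (fun _ _ => norm_nonneg _), fun w => ?_⟩
  by_cases hw : w ∈ ((Bas he).repr f).support
  · exact Finset.single_le_sum (f := fun w => ‖(Bas he).repr f w‖) (fun _ _ => norm_nonneg _) hw
  · rw [Finsupp.notMem_support_iff.1 hw, norm_zero]
    exact Finset.sum_nonneg (fun _ _ => norm_nonneg _)

end Semi

end Pool.Agent.V11283.Heis
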