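import Mathlib
import Pool.Agent.V11283.Heis.Char

/-!
# Small values of polynomials vanishing at many consecutive powers of a root of unity
-/

namespace Pool.Agent.V11283.Heis

open scoped BigOperators

variable {p : ℕ} [hpp : Fact p.Prime] {K : Type*} [NormedField K] [IsUltrametricDist K]

lemma prod_range_blocks {M : Type*} [CommMonoid M] (f : ℕ → M) (m q : ℕ) :
    ∏ i ∈ Finset.range (q * m), f i = ∏ j ∈ Finset.range m, ∏ s ∈ Finset.range q, f (q * j + s) := by
  induction m with
  | zero => simp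
  | succ m ih => rw [Nat.mul_succ, Finset.prod_range_add, ih, Finset.prod_range_succ]

/-- The product over `p^r` consecutive powers. -/
lemma prod_consecutive (hp : ‖(p : K)‖ = (p : ℝ)⁻¹) (e : ℕ) (r : ℕ) :
    ∀ (z : K) (t : ℕ), z ^ (p ^ (r + e)) = 1 →
      (∏ i ∈ Finset.range (p ^ r), ‖1 - z ^ (t + i)‖) ^ (p ^ e) ≤ ((p : ℝ)⁻¹) ^ r := by
  have hp0 : 0 < p := hpp.out.pos
  have hp1 : 1 < p := hpp.out.one_lt
  have hle : ∀ (z : K) (N : ℕ), N ≠ 0 → z ^ N = 1 → ∀ m, ‖1 - z ^ m‖ ≤ 1 := by
    intro z N hN hz m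
    have h1 : ‖z‖ = 1 := norm_eq_one_of_pow hz hN
    refine (norm_sub_le_max'' _ _).trans ?_
    rw [norm_one, norm_pow, h1, one_pow, max_self]
  induction r with
  | zero =>
    intro z t hz
    rw [pow_zero, Finset.prod_range_one, pow_zero]
    apply pow_le_one₀ (norm_nonneg _)
    exact hle z _ (pow_ne_zero _ hp0.ne') hz _
  | succ r ih =>
    intro z t hz
    -- the residue for which p ∣ t + s0
    obtain ⟨s0, hs0, t', ht'⟩ : ∃ s0, s0 < p ∧ ∃ t', t + s0 = p * t' := by
      refine ⟨(p - t % p) % p, Nat.mod_lt _ hp0, ?_⟩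
      have h1 : (t + (p - t % p) % p) % p = 0 := by
        have h2 : t % p < p := Nat.mod_lt _ hp0
        rw [Nat.add_mod, Nat.mod_mod, ← Nat.add_mod]
        have h3 : t + (p - t % p) = p * (t / p + 1) := by
          have := Nat.div_add_mod t p
          rw [mul_add, mul_one]
          omega
        rw [h3, Nat.mul_mod_right]
      obtain ⟨t', ht'⟩ := Nat.dvd_of_mod_eq_zero h1
      exact ⟨t', ht'⟩
    have hblock : ∏ i ∈ Finset.range (p ^ (r + 1)), ‖1 - z ^ (t + i)‖ =
        (∏ j ∈ Finset.range (p ^ r), ‖1 - (z ^ p) ^ (t' + j)‖) *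
        ∏ j ∈ Finset.range (p ^ r), ∏ s ∈ (Finset.range p).erase s0,
          ‖1 - z ^ (t + (p * j + s))‖ := by
      rw [pow_succ', prod_range_blocks, ← Finset.prod_mul_distrib]
      apply Finset.prod_congr rfl
      intro j _
      rw [← Finset.mul_prod_erase (Finset.range p) _ (Finset.mem_range.2 hs0)]
      congr 3
      rw [← pow_mul]
      congr 1
      rw [mul_add, ← ht']
      ring
    have hzp : (z ^ p) ^ (p ^ (r + e)) = 1 := by
      rw [← pow_mul, ← pow_succ', show r + e + 1 = r + 1 + e by ring]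
      exact hz
    have hA := ih (z ^ p) t' hzp
    have hB : (∏ j ∈ Finset.range (p ^ r), ∏ s ∈ (Finset.range p).erase s0,
          ‖1 - z ^ (t + (p * j + s))‖) ^ (p ^ e) ≤ (p : ℝ)⁻¹ := by
      have hpos : p ^ r * (p - 1) ≠ 0 := by
        apply mul_ne_zero (pow_ne_zero _ hp0.ne')
        omega
      have hnn : 0 ≤ (∏ j ∈ Finset.range (p ^ r), ∏ s ∈ (Finset.range p).erase s0,
          ‖1 - z ^ (t + (p * j + s))‖) ^ (p ^ e) :=
        pow_nonneg (Finset.prod_nonneg (fun _ _ => Finset.prod_nonneg (fun _ _ => norm_nonneg _))) _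
      rw [← pow_le_pow_iff_left₀ hnn (by positivity) hpos, ← pow_mul, ← Finset.prod_pow]
      have hcard : ((p : ℝ)⁻¹) ^ (p ^ r * (p - 1)) =
          ∏ j ∈ Finset.range (p ^ r), ∏ s ∈ (Finset.range p).erase s0, (p : ℝ)⁻¹ := by
        rw [Finset.prod_const, Finset.prod_const, Finset.card_range,
          Finset.card_erase_of_mem (Finset.mem_range.2 hs0), Finset.card_range, ← pow_mul]
        congr 1
        ring
      rw [hcard]
      apply Finset.prod_le_prod
      · intro j _
        exact pow_nonneg (Finset.prod_nonneg (fun _ _ => norm_nonneg _)) _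
      · intro j _
        rw [← Finset.prod_pow]
        apply Finset.prod_le_prod
        · intro s _
          exact pow_nonneg (norm_nonneg _) _
        · intro s _
          have h1 : (z ^ (t + (p * j + s))) ^ (p ^ (r + e + 1)) = 1 := by
            rw [← pow_mul, mul_comm, pow_mul, show r + e + 1 = r + 1 + e by ring, hz, one_pow]
          have h2 := norm_one_sub_of_pow hp h1
          have h3 : p ^ e * (p ^ r * (p - 1)) = p ^ (r + e) * (p - 1) := by
            rw [pow_add]; ring
          rw [h3]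
          exact h2
    rw [hblock, mul_pow, pow_succ]
    apply mul_le_mul hA hB
    · exact pow_nonneg (Finset.prod_nonneg (fun _ _ => Finset.prod_nonneg (fun _ _ => norm_nonneg _))) _
    · positivity

/-- The subring of integral elements. -/
def Oo (K : Type*) [NormedField K] [IsUltrametricDist K] : Subring K where
  carrier := {x | ‖x‖ ≤ 1}
  mul_mem' := by
    intro a b ha hb
    show ‖a * b‖ ≤ 1
    rw [norm_mul]
    exact mul_le_one₀ ha (norm_nonneg _) hb
  one_mem' := by simp
  add_mem' := by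
    intro a b ha hb
    exact (IsUltrametricDist.norm_add_le_max _ _).trans (max_le ha hb)
  zero_mem' := by simp
  neg_mem' := by
    intro a ha
    simpa using ha

/-- Main estimate: an integral sequence whose Fourier transform vanishes at `p^r` consecutive
points has small Fourier transform everywhere. -/
theorem fourier_small (hp : ‖(p : K)‖ = (p : ℝ)⁻¹) {r e : ℕ} {z : K}
    (hz : IsPrimitiveRoot z (p ^ (r + e))) (G : ℕ → K) (hG : ∀ t, ‖G t‖ ≤ 1)
    (hvan : ∀ κ < p ^ r, ∑ t ∈ Finset.range (p ^ (r + e)), z ^ (κ * t) * G t = 0) (κ : ℕ) :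
    ‖∑ t ∈ Finset.range (p ^ (r + e)), z ^ (κ * t) * G t‖ ^ (p ^ e) ≤ ((p : ℝ)⁻¹) ^ r := by
  classical
  have hp0 : 0 < p := hpp.out.pos
  have hN : p ^ (r + e) ≠ 0 := pow_ne_zero _ hp0.ne'
  have hz1 : ‖z‖ = 1 := norm_eq_one_of_pow hz.pow_eq_one hN
  have hzp : ∀ m, z ^ m ∈ Oo K := fun m => by
    show ‖z ^ m‖ ≤ 1
    rw [norm_pow, hz1, one_pow]
  set Z : ℕ → Oo K := fun m => ⟨z ^ m, hzp m⟩ with hZ
  set F : Polynomial (Oo K) := ∑ t ∈ Finset.range (p ^ (r + e)),
    Polynomial.C (⟨G t, hG t⟩ : Oo K) * Polynomial.X ^ t with hF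
  have hev : ∀ m, ((Polynomial.eval (Z m) F : Oo K) : K) =
      ∑ t ∈ Finset.range (p ^ (r + e)), z ^ (m * t) * G t := by
    intro m
    rw [hF, Polynomial.eval_finsetSum]
    push_cast
    apply Finset.sum_congr rfl
    intro t _
    simp only [Polynomial.eval_mul, Polynomial.eval_C, Polynomial.eval_pow, Polynomial.eval_X, hZ]
    push_cast
    rw [← pow_mul, mul_comm]
  rcases eq_or_ne F 0 with hF0 | hF0
  · have h1 := hev κ
    rw [hF0, Polynomial.eval_zero] at h1
    rw [← h1]
    simp only [ZeroMemClass.coe_zero, norm_zero]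
    rw [zero_pow (pow_ne_zero _ hp0.ne')]
    positivity
  · have hinj : ∀ i < p ^ r, ∀ j < p ^ r, Z i = Z j → i = j := by
      intro i hi j hj hij
      have h1 : z ^ i = z ^ j := congrArg Subtype.val hij
      have hle : p ^ r ≤ p ^ (r + e) := Nat.pow_le_pow_right hp0 (by omega)
      exact hz.pow_inj (lt_of_lt_of_le hi hle) (lt_of_lt_of_le hj hle) h1
    have hdvd : (Multiset.map (fun a => Polynomial.X - Polynomial.C a)
        (Multiset.map Z (Multiset.range (p ^ r)))).prod ∣ F := by
      rw [Multiset.prod_X_sub_C_dvd_iff_le_roots hF0, Multiset.le_iff_subset]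
      · intro a ha
        rw [Multiset.mem_map] at ha
        obtain ⟨i, hi, rfl⟩ := ha
        rw [Polynomial.mem_roots hF0, Polynomial.IsRoot.def]
        apply Subtype.ext
        rw [hev i]
        exact hvan i (Multiset.mem_range.1 hi)
      · apply Multiset.Nodup.map_on
        · intro i hi j hj hij
          exact hinj i (Multiset.mem_range.1 hi) j (Multiset.mem_range.1 hj) hij
        · exact Multiset.nodup_range _
    obtain ⟨Q, hQ⟩ := hdvd
    have h1 := hev κ
    rw [hQ, Polynomial.eval_mul, Polynomial.eval_multiset_prod, Multiset.map_map,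
      Multiset.map_map] at h1
    rw [← h1]
    push_cast
    rw [norm_mul, mul_pow]
    have h2 : ‖((Multiset.map ((fun (x : Oo K) => (x : K)) ∘
        (Polynomial.eval (Z κ) ∘ (fun a => Polynomial.X - Polynomial.C a) ∘ Z))
        (Multiset.range (p ^ r))).prod : K)‖ =
        ∏ i ∈ Finset.range (p ^ r), ‖1 - z ^ ((κ * (p ^ (r + e) - 1)) + i)‖ := by
      have h3 : (Multiset.map ((fun (x : Oo K) => (x : K)) ∘
          (Polynomial.eval (Z κ) ∘ (fun a => Polynomial.X - Polynomial.C a) ∘ Z))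
          (Multiset.range (p ^ r))).prod = ∏ i ∈ Finset.range (p ^ r), (z ^ κ - z ^ i) := by
        rw [Finset.prod_eq_multiset_prod]
        congr 1
        apply Multiset.map_congr rfl
        intro i _
        simp [hZ]
      rw [h3, norm_prod]
      apply Finset.prod_congr rfl
      intro i _
      have h4 : z ^ κ - z ^ i = z ^ κ * (1 - z ^ ((κ * (p ^ (r + e) - 1)) + i)) := by
        rw [mul_sub, mul_one, ← pow_add]
        congr 1
        have h5 : κ + (κ * (p ^ (r + e) - 1) + i) = p ^ (r + e) * κ + i := by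
          have : 1 ≤ p ^ (r + e) := Nat.one_le_pow _ _ hp0
          obtain ⟨m, hm⟩ : ∃ m, p ^ (r + e) = m + 1 := ⟨p ^ (r + e) - 1, by omega⟩
          rw [hm, Nat.add_sub_cancel]
          ring
        rw [h5, pow_add, pow_mul, hz.pow_eq_one, one_pow, one_mul]
      rw [h4, norm_mul, norm_pow, hz1, one_pow, one_mul]
    have h6 := prod_consecutive hp e r z (κ * (p ^ (r + e) - 1)) hz.pow_eq_one
    have h7 : ‖((Polynomial.eval (Z κ) Q : Oo K) : K)‖ ≤ 1 := (Polynomial.eval (Z κ) Q).2
    rw [Multiset.map_map]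
    have h8 : ‖(Multiset.map (Subtype.val ∘
        ((Polynomial.eval (Z κ) ∘ fun a => Polynomial.X - Polynomial.C a) ∘ Z))
        (Multiset.range (p ^ r))).prod‖ =
        ∏ i ∈ Finset.range (p ^ r), ‖1 - z ^ ((κ * (p ^ (r + e) - 1)) + i)‖ := h2
    rw [h8]
    calc (∏ i ∈ Finset.range (p ^ r), ‖1 - z ^ ((κ * (p ^ (r + e) - 1)) + i)‖) ^ p ^ e *
        ‖((Polynomial.eval (Z κ) Q : Oo K) : K)‖ ^ p ^ e
        ≤ ((p : ℝ)⁻¹) ^ r * 1 := by
          apply mul_le_mul h6 (pow_le_one₀ (norm_nonneg _) h7) (pow_nonneg (norm_nonneg _) _)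
          positivity
      _ = ((p : ℝ)⁻¹) ^ r := mul_one _

end Pool.Agent.V11283.Heis
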