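import Mathlib
import Pool.Agent.V11283.Heis.Norms
import Pool.Agent.V11283.Heis.Poly

/-!
# One-dimensional functionals with small line sums
-/

namespace Pool.Agent.V11283.Heis

open scoped BigOperators

variable {p : ℕ} [hpp : Fact p.Prime] {K : Type*} [NormedField K] [IsUltrametricDist K]

omit [IsUltrametricDist K] in
lemma StdChar.norm_eq_one {e : AddChar ℚ_[p] K} (he : StdChar e) (x : ℚ_[p]) : ‖e x‖ = 1 := by
  obtain ⟨n, hn⟩ := exists_pow_ge (p := p) ‖x‖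
  have h1 : (e x) ^ (p ^ n) = 1 := by
    rw [← AddChar.map_nsmul_eq_pow]
    apply he.triv
    rw [nsmul_eq_mul]
    push_cast
    rw [norm_mul, norm_pow, Padic.norm_p, inv_pow]
    rw [inv_mul_le_iff₀ (pow_pos (by exact_mod_cast hpp.out.pos) n), mul_one]
    exact hn
  exact norm_eq_one_of_pow h1 (pow_ne_zero _ hpp.out.ne_zero)

/-- Exponent of the level `k`. -/
def rr (p k : ℕ) : ℕ := k * p ^ (k + 2)

/-- Length exponent of the level `k`. -/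
def nn (p k : ℕ) : ℕ := rr p k + (k + 2)

lemma nn_mono {k l : ℕ} (h : k ≤ l) : nn p k ≤ nn p l := by
  unfold nn rr
  have h1 : p ^ (k + 2) ≤ p ^ (l + 2) := Nat.pow_le_pow_right hpp.out.pos (by omega)
  have h2 : k * p ^ (k + 2) ≤ l * p ^ (l + 2) := Nat.mul_le_mul h h1
  omega

/-- The residue of `y` in `p^(-n) ℤ_p / ℤ_p`. -/
noncomputable def resF (n : ℕ) (y : ℚ_[p]) : Fin (p ^ n) := by
  classical
  exact if h : ‖y‖ ≤ (p : ℝ) ^ n then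
    ⟨(exists_nat_approx n 0 h).choose, (exists_nat_approx n 0 h).choose_spec.1⟩
  else ⟨0, pow_pos hpp.out.pos n⟩

lemma resF_spec (n : ℕ) {y : ℚ_[p]} (h : ‖y‖ ≤ (p : ℝ) ^ n) :
    ‖y - ((resF n y : ℕ) : ℚ_[p]) / (p : ℚ_[p]) ^ n‖ ≤ 1 := by
  unfold resF
  rw [dif_pos h]
  have := (exists_nat_approx n 0 h).choose_spec.2
  exact this.trans (by simp)

lemma resF_eq (n : ℕ) {y : ℚ_[p]} (k : Fin (p ^ n))
    (hk : ‖y - ((k : ℕ) : ℚ_[p]) / (p : ℚ_[p]) ^ n‖ ≤ 1) : resF n y = k := by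
  have hpQ : (p : ℚ_[p]) ≠ 0 := by exact_mod_cast hpp.out.ne_zero
  have hp0 : (0 : ℝ) < p := by exact_mod_cast hpp.out.pos
  have hp1 : (1 : ℝ) < p := by exact_mod_cast hpp.out.one_lt
  have h1 : ‖((k : ℕ) : ℚ_[p]) / (p : ℚ_[p]) ^ n‖ ≤ (p : ℝ) ^ n := by
    rw [norm_div, norm_pow, Padic.norm_p, inv_pow, div_inv_eq_mul]
    apply mul_le_of_le_one_left (by positivity)
    exact Padic.norm_int_le_one ((k : ℕ) : ℤ)
  have h2 : ‖y‖ ≤ (p : ℝ) ^ n := by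
    have : y = (y - ((k : ℕ) : ℚ_[p]) / (p : ℚ_[p]) ^ n) + ((k : ℕ) : ℚ_[p]) / (p : ℚ_[p]) ^ n := by
      ring
    rw [this]
    refine (IsUltrametricDist.norm_add_le_max _ _).trans (max_le ?_ h1)
    exact hk.trans (one_le_pow₀ hp1.le)
  have h3 := resF_spec n h2
  apply Fin.ext
  have key : ∀ j : ℕ, ‖y - (j : ℚ_[p]) / (p : ℚ_[p]) ^ n‖ ≤ 1 →
      ‖y * (p : ℚ_[p]) ^ n - (j : ℚ_[p])‖ ≤ ((p : ℝ) ^ n)⁻¹ := by
    intro j hj
    have : y * (p : ℚ_[p]) ^ n - (j : ℚ_[p]) =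
        (y - (j : ℚ_[p]) / (p : ℚ_[p]) ^ n) * (p : ℚ_[p]) ^ n := by
      field_simp
    rw [this, norm_mul, norm_pow, Padic.norm_p, inv_pow]
    exact mul_le_of_le_one_left (by positivity) hj
  exact nat_unique n (resF n y).2 k.2 (key _ h3) (key _ hk)

lemma resF_add (n : ℕ) {y l : ℚ_[p]} (h : ‖y‖ ≤ (p : ℝ) ^ n) (hl : ‖l‖ ≤ 1) :
    resF n (y + l) = resF n y := by
  apply resF_eq
  have : y + l - ((resF n y : ℕ) : ℚ_[p]) / (p : ℚ_[p]) ^ n =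
      (y - ((resF n y : ℕ) : ℚ_[p]) / (p : ℚ_[p]) ^ n) + l := by ring
  rw [this]
  exact (IsUltrametricDist.norm_add_le_max _ _).trans (max_le (resF_spec n h) hl)

open Classical in
/-- The coefficient function. -/
noncomputable def coef (e : AddChar ℚ_[p] K) (n : ℕ) (a b : ℚ_[p]) : K :=
  if ‖a‖ ≤ (p : ℝ) ^ n ∧ ‖b‖ ≤ (p : ℝ) ^ n then
    e (-((b - ((resF n b : ℕ) : ℚ_[p]) / (p : ℚ_[p]) ^ n) * a)) else 0

/-- The function on `ℚ_p × ℚ_p` attached to a finite block of values. -/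
noncomputable def Lam (e : AddChar ℚ_[p] K) (n : ℕ) (a b : ℚ_[p]) :
    (Fin (p ^ n) × Fin (p ^ n) → K) →ₗ[K] K :=
  coef e n a b • LinearMap.proj (resF n a, resF n b)

omit [IsUltrametricDist K] in
lemma Lam_apply (e : AddChar ℚ_[p] K) (n : ℕ) (a b : ℚ_[p])
    (x : Fin (p ^ n) × Fin (p ^ n) → K) :
    Lam e n a b x = coef e n a b * x (resF n a, resF n b) := rfl

lemma norm_add_unit_le_iff (n : ℕ) {y l : ℚ_[p]} (hl : ‖l‖ ≤ (p : ℝ) ^ n) :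
    ‖y + l‖ ≤ (p : ℝ) ^ n ↔ ‖y‖ ≤ (p : ℝ) ^ n := by
  constructor
  · intro h
    have : y = (y + l) - l := by ring
    rw [this]
    exact (norm_sub_le_max' _ _).trans (max_le h hl)
  · intro h
    exact (IsUltrametricDist.norm_add_le_max _ _).trans (max_le h hl)

lemma one_le_p_pow (n : ℕ) : (1 : ℝ) ≤ (p : ℝ) ^ n := by
  apply one_le_pow₀
  exact_mod_cast hpp.out.one_lt.le

omit [IsUltrametricDist K] in
lemma Lam_rel1 {e : AddChar ℚ_[p] K} (he : StdChar e) (n : ℕ) (a b l : ℚ_[p]) (hl : ‖l‖ ≤ 1)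
    (x : Fin (p ^ n) × Fin (p ^ n) → K) : Lam e n (a + l) b x = Lam e n a b x := by
  have hiff := norm_add_unit_le_iff n (y := a) (hl.trans (one_le_p_pow (p := p) n))
  rw [Lam_apply, Lam_apply, coef, coef]
  by_cases h : ‖a‖ ≤ (p : ℝ) ^ n ∧ ‖b‖ ≤ (p : ℝ) ^ n
  · rw [if_pos h, if_pos ⟨hiff.2 h.1, h.2⟩, resF_add n h.1 hl]
    congr 1
    apply he.congr
    have : -((b - ((resF n b : ℕ) : ℚ_[p]) / (p : ℚ_[p]) ^ n) * (a + l)) -
        -((b - ((resF n b : ℕ) : ℚ_[p]) / (p : ℚ_[p]) ^ n) * a) =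
        -((b - ((resF n b : ℕ) : ℚ_[p]) / (p : ℚ_[p]) ^ n) * l) := by ring
    rw [this, norm_neg, norm_mul]
    exact mul_le_one₀ (resF_spec n h.2) (norm_nonneg _) hl
  · rw [if_neg h, if_neg, zero_mul, zero_mul]
    intro h'
    exact h ⟨hiff.1 h'.1, h'.2⟩

omit [IsUltrametricDist K] in
lemma Lam_rel2 {e : AddChar ℚ_[p] K} (n : ℕ) (a b l : ℚ_[p]) (hl : ‖l‖ ≤ 1)
    (x : Fin (p ^ n) × Fin (p ^ n) → K) :
    Lam e n a (b + l) x = e (-(l * a)) * Lam e n a b x := by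
  have hiff := norm_add_unit_le_iff n (y := b) (hl.trans (one_le_p_pow (p := p) n))
  rw [Lam_apply, Lam_apply, coef, coef]
  by_cases h : ‖a‖ ≤ (p : ℝ) ^ n ∧ ‖b‖ ≤ (p : ℝ) ^ n
  · rw [if_pos h, if_pos ⟨h.1, hiff.2 h.2⟩, resF_add n h.2 hl, ← mul_assoc,
      ← AddChar.map_add_eq_mul]
    congr 2
    ring
  · rw [if_neg h, if_neg, zero_mul, zero_mul, mul_zero]
    intro h'
    exact h ⟨h'.1, hiff.1 h'.2⟩

omit [IsUltrametricDist K] in
lemma norm_Lam_le {e : AddChar ℚ_[p] K} (he : StdChar e) (n : ℕ) (a b : ℚ_[p])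
    (x : Fin (p ^ n) × Fin (p ^ n) → K) (hx : ∀ i, ‖x i‖ ≤ 1) : ‖Lam e n a b x‖ ≤ 1 := by
  rw [Lam_apply, norm_mul]
  apply mul_le_one₀ _ (norm_nonneg _) (hx _)
  rw [coef]
  split_ifs
  · rw [he.norm_eq_one]
  · simp

omit [IsUltrametricDist K] in
lemma Lam_of_fin (e : AddChar ℚ_[p] K) (n : ℕ) (i j : Fin (p ^ n))
    (x : Fin (p ^ n) × Fin (p ^ n) → K) :
    Lam e n (((i : ℕ) : ℚ_[p]) / (p : ℚ_[p]) ^ n) (((j : ℕ) : ℚ_[p]) / (p : ℚ_[p]) ^ n) x =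
      x (i, j) := by
  have h0 : ∀ k : Fin (p ^ n), ‖((k : ℕ) : ℚ_[p]) / (p : ℚ_[p]) ^ n‖ ≤ (p : ℝ) ^ n := by
    intro k
    rw [norm_div, norm_pow, Padic.norm_p, inv_pow, div_inv_eq_mul]
    apply mul_le_of_le_one_left (by positivity)
    exact Padic.norm_int_le_one ((k : ℕ) : ℤ)
  have h1 : ∀ k : Fin (p ^ n), resF n (((k : ℕ) : ℚ_[p]) / (p : ℚ_[p]) ^ n) = k := by
    intro k
    apply resF_eq
    rw [sub_self, norm_zero]
    exact zero_le_one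
  rw [Lam_apply, coef, if_pos ⟨h0 i, h0 j⟩, h1, h1, sub_self, zero_mul, neg_zero,
    AddChar.map_zero_eq_one, one_mul]

lemma sum_shift {M : Type*} [AddCommGroup M] (N : ℕ) (H : ℕ → M) (hH : ∀ t, H (t + N) = H t) (s : ℕ) :
    ∑ t ∈ Finset.range N, H (s + t) = ∑ t ∈ Finset.range N, H t := by
  induction s with
  | zero => simp
  | succ s ih =>
    rw [← ih]
    have h1 := Finset.sum_range_succ (fun t => H (s + t)) N
    have h2 := Finset.sum_range_succ' (fun t => H (s + t)) N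
    rw [h1] at h2
    rw [hH s] at h2
    simp only [add_zero] at h2
    have h3 := add_right_cancel h2
    rw [h3]
    apply Finset.sum_congr rfl
    intro t _
    congr 1
    ring

lemma small_aux (hp : ‖(p : K)‖ = (p : ℝ)⁻¹) {e : AddChar ℚ_[p] K} (he : StdChar e) (k : ℕ)
    (G : ℕ → K) (hG : ∀ t, ‖G t‖ ≤ 1) (hper : ∀ t, G (t + p ^ nn p k) = G t)
    (hvan : ∀ κ < p ^ rr p k, ∑ t ∈ Finset.range (p ^ nn p k),
      (e (1 / (p : ℚ_[p]) ^ nn p k)) ^ (κ * t) * G t = 0) (κ s : ℕ) (c : K) (hc : ‖c‖ = 1) :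
    ‖∑ t ∈ Finset.range (p ^ nn p k),
      c * ((e (1 / (p : ℚ_[p]) ^ nn p k)) ^ (κ * (s + t)) * G (s + t))‖ ≤ ((p : ℝ)⁻¹) ^ k := by
  have hprim := he.isPrimitiveRoot (u := 1) (by simp) (nn p k)
  rw [← Finset.mul_sum, norm_mul, hc, one_mul]
  rw [sum_shift (p ^ nn p k) (fun t => (e (1 / (p : ℚ_[p]) ^ nn p k)) ^ (κ * t) * G t)]
  · have h1 := fourier_small hp (r := rr p k) (e := k + 2) hprim G hG hvan κ
    have h2 : ((p : ℝ)⁻¹) ^ (rr p k) = (((p : ℝ)⁻¹) ^ k) ^ (p ^ (k + 2)) := by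
      rw [← pow_mul]; rfl
    rw [h2] at h1
    exact (pow_le_pow_iff_left₀ (norm_nonneg _) (by positivity)
      (pow_ne_zero _ hpp.out.ne_zero)).1 h1
  · intro t
    show (e (1 / (p : ℚ_[p]) ^ nn p k)) ^ (κ * (t + p ^ nn p k)) * G (t + p ^ nn p k) =
      (e (1 / (p : ℚ_[p]) ^ nn p k)) ^ (κ * t) * G t
    rw [hper, mul_add, pow_add, mul_comm κ (p ^ nn p k), pow_mul _ (p ^ nn p k),
      hprim.pow_eq_one, one_pow, mul_one]

end Pool.Agent.V11283.Heis
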