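import Mathlib
import Pool.Agent.V11283.Heis.Norms
import Pool.Agent.V11283.Heis.Func

/-!
# The Schrödinger representation attached to a general smooth character
-/

namespace Pool.Agent.V11283.Heis

open scoped BigOperators

section Defs

variable {p : ℕ} [hpp : Fact p.Prime] {d : ℕ} {K : Type*} [Field K]

/-- The first half `a` of a vector `w = (a,b)`. -/
def wa (w : Fin d ⊕ Fin d → ℚ_[p]) : Fin d → ℚ_[p] := fun i => w (Sum.inl i)

/-- The second half `b` of a vector `w = (a,b)`. -/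
def wb (w : Fin d ⊕ Fin d → ℚ_[p]) : Fin d → ℚ_[p] := fun i => w (Sum.inr i)

lemma isLocallyConstant_of_smooth {ψ : AddChar ℚ_[p] K} (hψ : IsOpen {t : ℚ_[p] | ψ t = 1}) :
    IsLocallyConstant (fun z : ℚ_[p] => ψ z) := by
  rw [IsLocallyConstant.iff_eventually_eq]
  intro x
  have h1 : (fun y : ℚ_[p] => y - x) ⁻¹' {t : ℚ_[p] | ψ t = 1} ∈ nhds x := by
    apply (hψ.preimage (continuous_id.sub continuous_const)).mem_nhds
    simp
  filter_upwards [h1] with y hy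
  have hy' : ψ (y - x) = 1 := hy
  have : y = (y - x) + x := by ring
  rw [this, AddChar.map_add_eq_mul, hy', one_mul]

/-- The Schrödinger representation:
`(ρ([w,t]) f)(x) = ψ(t + (1/2) a·b + b·x) f(x + a)` for `w = (a,b)`. -/
noncomputable def rho (ψ : AddChar ℚ_[p] K) (hψ : IsOpen {t : ℚ_[p] | ψ t = 1})
    (w : Fin d ⊕ Fin d → ℚ_[p]) (t : ℚ_[p]) : SB p d K →ₗ[K] SB p d K where
  toFun f := ⟨fun x => ψ (t + (1 / 2) * (wa w ⬝ᵥ wb w) + wb w ⬝ᵥ x) * f.1 (x + wa w), by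
    refine ⟨IsLocallyConstant.mul ?_ (trans (wa w) f).2.1, ?_⟩
    · exact (isLocallyConstant_of_smooth hψ).comp_continuous
        (f := fun x : Fin d → ℚ_[p] => t + (1 / 2) * (wa w ⬝ᵥ wb w) + wb w ⬝ᵥ x)
        (continuous_const.add (continuous_dot (wb w)))
    · exact HasCompactSupport.mul_left
        (f := fun x : Fin d → ℚ_[p] => ψ (t + (1 / 2) * (wa w ⬝ᵥ wb w) + wb w ⬝ᵥ x))
        (trans (wa w) f).2.2⟩
  map_add' f h := by
    apply Subtype.ext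
    funext x
    simp [mul_add]
  map_smul' c f := by
    apply Subtype.ext
    funext x
    simp [mul_left_comm]

lemma rho_apply (ψ : AddChar ℚ_[p] K) (hψ : IsOpen {t : ℚ_[p] | ψ t = 1})
    (w : Fin d ⊕ Fin d → ℚ_[p]) (t : ℚ_[p]) (f : SB p d K) (x : Fin d → ℚ_[p]) :
    (rho ψ hψ w t f).1 x = ψ (t + (1 / 2) * (wa w ⬝ᵥ wb w) + wb w ⬝ᵥ x) * f.1 (x + wa w) := rfl

/-- The character `x ↦ ψ (π x)`. -/
noncomputable def scale (ψ : AddChar ℚ_[p] K) (π : ℚ_[p]) : AddChar ℚ_[p] K :=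
  ψ.compAddMonoidHom (AddMonoidHom.mulLeft π)

lemma scale_apply (ψ : AddChar ℚ_[p] K) (π x : ℚ_[p]) : scale ψ π x = ψ (π * x) := rfl

/-- Every nontrivial smooth character is a rescaled standard one. -/
theorem exists_std {ψ : AddChar ℚ_[p] K} (hψ : IsOpen {t : ℚ_[p] | ψ t = 1}) (hψ1 : ψ ≠ 1) :
    ∃ π : ℚ_[p], π ≠ 0 ∧ StdChar (scale ψ π) := by
  have hpQ : (p : ℚ_[p]) ≠ 0 := by exact_mod_cast hpp.out.ne_zero
  have hp0 : (0 : ℝ) < p := by exact_mod_cast hpp.out.pos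
  have hp1 : (1 : ℝ) < p := by exact_mod_cast hpp.out.one_lt
  -- kernel contains a ball
  obtain ⟨δ, hδ, hball⟩ := Metric.isOpen_iff.1 hψ 0 (by simp)
  obtain ⟨n, hn⟩ := exists_pow_ge (p := p) (2 * δ⁻¹)
  have hker : ∀ t : ℚ_[p], ‖t‖ ≤ ((p : ℝ) ^ n)⁻¹ → ψ t = 1 := by
    intro t ht
    apply hball
    rw [mem_ball_zero_iff]
    have h3 : ((p : ℝ) ^ n)⁻¹ ≤ (2 * δ⁻¹)⁻¹ := inv_anti₀ (by positivity) hn
    have h4 : (2 * δ⁻¹)⁻¹ = δ / 2 := by field_simp
    rw [h4] at h3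
    linarith
  obtain ⟨t0, ht0⟩ := AddChar.ne_one_iff.1 hψ1
  obtain ⟨m0, hm0⟩ := exists_pow_ge (p := p) ‖t0‖
  -- the property P k : ψ trivial on the ball of radius p^(m0 - k)
  have hex : ∃ k : ℕ, ∀ t : ℚ_[p], ‖t‖ ≤ (p : ℝ) ^ ((m0 : ℤ) - (k : ℤ)) → ψ t = 1 := by
    refine ⟨m0 + n, fun t ht => hker t ?_⟩
    have : ((m0 : ℤ) - ((m0 + n : ℕ) : ℤ)) = -(n : ℤ) := by push_cast; ring
    rwa [this, zpow_neg, zpow_natCast] at ht
  classical
  set k := Nat.find hex with hk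
  have hk1 := Nat.find_spec hex
  have hkpos : k ≠ 0 := by
    intro h0
    apply ht0
    apply hk1
    rw [← hk, h0]
    simpa using hm0
  obtain ⟨k', hk'⟩ := Nat.exists_eq_succ_of_ne_zero hkpos
  have hk2 := Nat.find_min hex (m := k') (by omega)
  push Not at hk2
  obtain ⟨t1, ht1, ht1'⟩ := hk2
  refine ⟨(p : ℚ_[p]) ^ (-((m0 : ℤ) - (k : ℤ))), zpow_ne_zero _ hpQ, ⟨?_, ?_⟩⟩
  · intro z hz
    rw [scale_apply]
    apply hk1
    rw [norm_mul, norm_zpow, Padic.norm_p, inv_zpow, zpow_neg, inv_inv]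
    exact mul_le_of_le_one_right (by positivity) hz
  · rw [scale_apply]
    intro hcon
    apply ht1'
    -- t1 = p^(-(m0-k)-1) * z, z integral
    set q : ℚ_[p] := (p : ℚ_[p]) ^ (-((m0 : ℤ) - (k : ℤ))) * (p : ℚ_[p])⁻¹ with hq
    have hq0 : q ≠ 0 := mul_ne_zero (zpow_ne_zero _ hpQ) (inv_ne_zero hpQ)
    have hqn : ‖q‖ = (p : ℝ) ^ ((m0 : ℤ) - (k' : ℤ)) := by
      rw [hq, norm_mul, norm_zpow, norm_inv, Padic.norm_p, inv_inv, inv_zpow, zpow_neg, inv_inv,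
        ← zpow_add_one₀ hp0.ne']
      congr 1
      omega
    have hz : ‖t1 / q‖ ≤ (p : ℝ) ^ 0 := by
      rw [norm_div, hqn, pow_zero]
      exact div_le_one_of_le₀ ht1 (by positivity)
    obtain ⟨j, _, hj⟩ := exists_nat_approx 0 1 hz
    rw [pow_zero, div_one, pow_one] at hj
    have h5 : t1 = j • q + q * (t1 / q - (j : ℚ_[p])) := by
      rw [nsmul_eq_mul]
      field_simp
      ring
    rw [h5, AddChar.map_add_eq_mul, AddChar.map_nsmul_eq_pow, hcon, one_pow, one_mul]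
    apply hk1
    rw [norm_mul, hqn]
    calc (p : ℝ) ^ ((m0 : ℤ) - (k' : ℤ)) * ‖t1 / q - (j : ℚ_[p])‖
        ≤ (p : ℝ) ^ ((m0 : ℤ) - (k' : ℤ)) * (p : ℝ)⁻¹ := by gcongr
      _ = (p : ℝ) ^ ((m0 : ℤ) - (k : ℤ)) := by
        rw [← zpow_sub_one₀ hp0.ne']
        congr 1
        omega

lemma rho_eq {ψ : AddChar ℚ_[p] K} (hψ : IsOpen {t : ℚ_[p] | ψ t = 1}) {π : ℚ_[p]} (hπ : π ≠ 0)
    (he : StdChar (scale ψ π)) (w : Fin d ⊕ Fin d → ℚ_[p]) (t : ℚ_[p]) (f : SB p d K) :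
    rho ψ hψ w t f = ψ (t + (1 / 2) * (wa w ⬝ᵥ wb w)) •
      modu he (π⁻¹ • wb w) (trans (wa w) f) := by
  apply Subtype.ext
  funext x
  rw [rho_apply, Submodule.coe_smul, Pi.smul_apply, modu_apply, trans_apply, smul_eq_mul,
    scale_apply, smul_dotProduct, smul_eq_mul, mul_inv_cancel_left₀ hπ, ← mul_assoc,
    ← AddChar.map_add_eq_mul]

lemma rho_rho (ψ : AddChar ℚ_[p] K) (hψ : IsOpen {t : ℚ_[p] | ψ t = 1})
    (w : Fin d ⊕ Fin d → ℚ_[p]) (s s' : ℚ_[p]) (f : SB p d K) :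
    rho ψ hψ (s • w) 0 (rho ψ hψ (s' • w) 0 f) = rho ψ hψ ((s + s') • w) 0 f := by
  have h2 : (2 : ℚ_[p]) ≠ 0 := two_ne_zero
  apply Subtype.ext
  funext x
  rw [rho_apply, rho_apply, rho_apply, ← mul_assoc, ← AddChar.map_add_eq_mul]
  have hwa : ∀ c : ℚ_[p], wa (c • w) = c • wa w := fun c => rfl
  have hwb : ∀ c : ℚ_[p], wb (c • w) = c • wb w := fun c => rfl
  rw [hwa, hwa, hwa, hwb, hwb, hwb, add_smul, ← add_assoc x]
  congr 2
  simp only [smul_dotProduct, dotProduct_smul, dotProduct_add, smul_eq_mul]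
  rw [dotProduct_comm (wb w) (wa w)]
  simp only [add_dotProduct, smul_dotProduct, smul_eq_mul]
  field_simp
  ring

end Defs

section Sup

variable {p : ℕ} [hpp : Fact p.Prime] {d : ℕ} {K : Type*} [NormedField K]

/-- The sup norm. -/
noncomputable def supNorm (f : SB p d K) : ℝ := sSup (Set.range (fun x => ‖f.1 x‖))

lemma exists_bound (f : SB p d K) : ∃ C, ∀ x, ‖f.1 x‖ ≤ C :=
  f.2.1.continuous.bounded_above_of_compact_support f.2.2

lemma bddAbove_range (f : SB p d K) : BddAbove (Set.range (fun x => ‖f.1 x‖)) := by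
  obtain ⟨C, hC⟩ := exists_bound f
  exact ⟨C, by rintro _ ⟨x, rfl⟩; exact hC x⟩

lemma norm_le_supNorm (f : SB p d K) (x : Fin d → ℚ_[p]) : ‖f.1 x‖ ≤ supNorm f :=
  le_csSup (bddAbove_range f) ⟨x, rfl⟩

lemma supNorm_le {f : SB p d K} {C : ℝ} (h : ∀ x, ‖f.1 x‖ ≤ C) : supNorm f ≤ C := by
  apply csSup_le (Set.range_nonempty _)
  rintro _ ⟨x, rfl⟩
  exact h x

lemma supNorm_nonneg (f : SB p d K) : 0 ≤ supNorm f :=
  (norm_nonneg _).trans (norm_le_supNorm f 0)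

lemma supNorm_pos {f : SB p d K} (hf : f ≠ 0) : 0 < supNorm f := by
  obtain ⟨x0, hx0⟩ : ∃ x0, f.1 x0 ≠ 0 := by
    by_contra hcon
    push Not at hcon
    apply hf
    apply Subtype.ext
    funext x
    exact hcon x
  exact (norm_pos_iff.2 hx0).trans_le (norm_le_supNorm f x0)

lemma supNorm_smul (c : K) (f : SB p d K) : supNorm (c • f) = ‖c‖ * supNorm f := by
  have h1 : ∀ (c : K) (f : SB p d K), supNorm (c • f) ≤ ‖c‖ * supNorm f := by
    intro c f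
    apply supNorm_le
    intro x
    rw [Submodule.coe_smul, Pi.smul_apply, norm_smul]
    exact mul_le_mul_of_nonneg_left (norm_le_supNorm f x) (norm_nonneg _)
  apply le_antisymm (h1 c f)
  rcases eq_or_ne c 0 with rfl | hc
  · rw [norm_zero, zero_mul]; exact supNorm_nonneg _
  · have h2 := h1 c⁻¹ (c • f)
    rw [smul_smul, inv_mul_cancel₀ hc, one_smul, norm_inv] at h2
    rwa [le_inv_mul_iff₀ (norm_pos_iff.2 hc)] at h2

lemma supNorm_isNANorm [IsUltrametricDist K] : IsNANorm (supNorm : SB p d K → ℝ) := by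
  refine ⟨⟨supNorm_nonneg, supNorm_smul, ?_⟩, ?_⟩
  · intro f g
    apply supNorm_le
    intro x
    refine (IsUltrametricDist.norm_add_le_max _ _).trans ?_
    exact max_le_max (norm_le_supNorm f x) (norm_le_supNorm g x)
  · intro f hf
    by_contra h
    exact (supNorm_pos h).ne' hf

lemma v0_ne_zero : (v0 : SB p d K) ≠ 0 := by
  intro h
  have h1 := v0_apply_of_mem (K := K) (Zpd_zero (p := p) (d := d))
  rw [h] at h1
  simp at h1

/-- The normalised norm attached to an intertwining operator. -/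
noncomputable def grNorm (T : SB p d K ≃ₗ[K] SB p d K) (f : SB p d K) : ℝ :=
  supNorm (T f) / supNorm (T v0)

end Sup

end Pool.Agent.V11283.Heis
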