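import Mathlib
import Pool.Agent.V11283.Heis.Rho

/-!
# Definitions used in the statements: the Schwartz-Bruhat space over `ℂ_p`, the Schrödinger
representation, norms and intertwining operators
-/

namespace Pool.Agent.V11283.Heis.St

variable {p : ℕ} [Fact p.Prime] {d : ℕ}

/-- Locally constant and compactly supported functions `ℚ_p^d → ℂ_p`. -/
def IsSB (f : (Fin d → ℚ_[p]) → ℂ_[p]) : Prop := IsLocallyConstant f ∧ HasCompactSupport f

/-- The space `𝒮` of locally constant, compactly supported functions `ℚ_p^d → ℂ_p`. -/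
def S (p : ℕ) [Fact p.Prime] (d : ℕ) : Type := {f : (Fin d → ℚ_[p]) → ℂ_[p] // IsSB f}

/-- View in the general library. -/
def toSB (f : S p d) : SB p d ℂ_[p] := ⟨f.1, f.2⟩

/-- View in the general library. -/
def ofSB (f : SB p d ℂ_[p]) : S p d := ⟨f.1, f.2⟩

lemma isSB_add {f g : (Fin d → ℚ_[p]) → ℂ_[p]} (hf : IsSB f) (hg : IsSB g) :
    IsSB (fun x => f x + g x) :=
  ((⟨f, hf⟩ : SB p d ℂ_[p]) + (⟨g, hg⟩ : SB p d ℂ_[p])).2

lemma isSB_smul (c : ℂ_[p]) {f : (Fin d → ℚ_[p]) → ℂ_[p]} (hf : IsSB f) :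
    IsSB (fun x => c * f x) :=
  (c • (⟨f, hf⟩ : SB p d ℂ_[p])).2

/-- Sum of two elements of `𝒮`. -/
noncomputable def add (f g : S p d) : S p d := ⟨fun x => f.1 x + g.1 x, isSB_add f.2 g.2⟩

/-- Scalar multiple of an element of `𝒮`. -/
noncomputable def smul (c : ℂ_[p]) (f : S p d) : S p d := ⟨fun x => c * f.1 x, isSB_smul c f.2⟩

/-- The formula for `ρ([w,t]) f`, with `w = (a,b)`, `a = w ∘ inl`, `b = w ∘ inr`:
`x ↦ ψ(t + (1/2) a·b + b·x) f(x + a)`. -/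
noncomputable def rhoFun (ψ : AddChar ℚ_[p] ℂ_[p]) (w : Fin d ⊕ Fin d → ℚ_[p]) (t : ℚ_[p])
    (f : (Fin d → ℚ_[p]) → ℂ_[p]) : (Fin d → ℚ_[p]) → ℂ_[p] :=
  fun x => ψ (t + (1 / 2) * (w ∘ Sum.inl ⬝ᵥ w ∘ Sum.inr) + w ∘ Sum.inr ⬝ᵥ x) *
    f (x + w ∘ Sum.inl)

lemma isSB_rho (ψ : AddChar ℚ_[p] ℂ_[p]) (hψ : IsOpen {t : ℚ_[p] | ψ t = 1})
    (w : Fin d ⊕ Fin d → ℚ_[p]) (t : ℚ_[p]) (f : S p d) : IsSB (rhoFun ψ w t f.1) :=
  (Heis.rho ψ hψ w t (toSB f)).2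

/-- The Schrödinger representation of the Heisenberg group on `𝒮`. -/
noncomputable def rho (ψ : AddChar ℚ_[p] ℂ_[p]) (hψ : IsOpen {t : ℚ_[p] | ψ t = 1})
    (w : Fin d ⊕ Fin d → ℚ_[p]) (t : ℚ_[p]) (f : S p d) : S p d :=
  ⟨rhoFun ψ w t f.1, isSB_rho ψ hψ w t f⟩

lemma isSB_one : IsSB (Set.indicator {x : Fin d → ℚ_[p] | ∀ i, ‖x i‖ ≤ 1}
    (fun _ => (1 : ℂ_[p]))) := (Heis.v0 : SB p d ℂ_[p]).2

/-- The indicator function of `ℤ_p^d`. -/
noncomputable def one : S p d :=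
  ⟨Set.indicator {x : Fin d → ℚ_[p] | ∀ i, ‖x i‖ ≤ 1} (fun _ => 1), isSB_one⟩

/-- The sup norm. -/
noncomputable def sup (f : S p d) : ℝ := sSup (Set.range (fun x => ‖f.1 x‖))

/-- Non-archimedean seminorms on `𝒮`. -/
structure IsSeminorm (N : S p d → ℝ) : Prop where
  nonneg : ∀ f, 0 ≤ N f
  smul : ∀ c f, N (smul c f) = ‖c‖ * N f
  add : ∀ f g, N (add f g) ≤ max (N f) (N g)

/-- Non-archimedean norms on `𝒮`. -/
structure IsNorm (N : S p d → ℝ) : Prop extends IsSeminorm N where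
  eq_zero : ∀ f, N f = 0 → ∀ x, f.1 x = 0

/-- Invariance under the Heisenberg group. -/
def Invariant (ψ : AddChar ℚ_[p] ℂ_[p]) (hψ : IsOpen {t : ℚ_[p] | ψ t = 1})
    (N : S p d → ℝ) : Prop := ∀ w t f, N (rho ψ hψ w t f) = N f

/-- `N` dominates `M`. -/
def Dominates (N M : S p d → ℝ) : Prop := ∃ c : ℝ, 0 < c ∧ ∀ f, M f ≤ c * N f

/-- A bijection of `𝒮` is linear. -/
def IsLin (T : S p d ≃ S p d) : Prop :=
  (∀ f g, T (add f g) = add (T f) (T g)) ∧ ∀ c f, T (smul c f) = smul c (T f)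

/-- The normalised norm `f ↦ ‖T f‖_∞ / ‖T 1_{ℤ_p^d}‖_∞`. -/
noncomputable def grNorm (T : S p d ≃ S p d) (f : S p d) : ℝ := sup (T f) / sup (T one)

/-- `T` is an intertwining operator for `g`, in the form `ρ([w,t]) T = T ρ([wg,t])`. -/
def Intertwines (ψ : AddChar ℚ_[p] ℂ_[p]) (hψ : IsOpen {t : ℚ_[p] | ψ t = 1})
    (g : Matrix (Fin d ⊕ Fin d) (Fin d ⊕ Fin d) ℚ_[p]) (T : S p d ≃ S p d) : Prop :=
  IsLin T ∧ ∀ w t f, rho ψ hψ w t (T f) = T (rho ψ hψ (Matrix.vecMul w g) t f)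

/-! ### Bridge to the general library -/

@[simp] lemma ofSB_toSB (f : S p d) : ofSB (toSB f) = f := rfl

@[simp] lemma toSB_ofSB (f : SB p d ℂ_[p]) : toSB (ofSB f) = f := rfl

lemma toSB_add (f g : S p d) : toSB (add f g) = toSB f + toSB g := rfl

lemma toSB_smul (c : ℂ_[p]) (f : S p d) : toSB (smul c f) = c • toSB f := rfl

lemma toSB_rho (ψ : AddChar ℚ_[p] ℂ_[p]) (hψ : IsOpen {t : ℚ_[p] | ψ t = 1})
    (w : Fin d ⊕ Fin d → ℚ_[p]) (t : ℚ_[p]) (f : S p d) :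
    toSB (rho ψ hψ w t f) = Heis.rho ψ hψ w t (toSB f) := rfl

lemma toSB_one : toSB (one : S p d) = Heis.v0 := rfl

lemma sup_eq (f : S p d) : sup f = Heis.supNorm (toSB f) := rfl

/-- The linear equivalence of the general library attached to a linear bijection. -/
noncomputable def equivOf {T : S p d ≃ S p d} (hT : IsLin T) :
    SB p d ℂ_[p] ≃ₗ[ℂ_[p]] SB p d ℂ_[p] where
  toFun f := toSB (T (ofSB f))
  invFun f := toSB (T.symm (ofSB f))
  left_inv f := by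
    show toSB (T.symm (T (ofSB f))) = f
    rw [Equiv.symm_apply_apply, toSB_ofSB]
  right_inv f := by
    show toSB (T (T.symm (ofSB f))) = f
    rw [Equiv.apply_symm_apply, toSB_ofSB]
  map_add' f g := by
    show toSB (T (add (ofSB f) (ofSB g))) = _
    rw [hT.1]; rfl
  map_smul' c f := by
    show toSB (T (smul c (ofSB f))) = _
    rw [hT.2]; rfl

lemma equivOf_apply {T : S p d ≃ S p d} (hT : IsLin T) (f : S p d) :
    equivOf hT (toSB f) = toSB (T f) := rfl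

lemma grNorm_eq {T : S p d ≃ S p d} (hT : IsLin T) (f : S p d) :
    grNorm T f = Heis.grNorm (equivOf hT) (toSB f) := rfl

/-- A linear equivalence of the general library as a bijection of `𝒮`. -/
noncomputable def permOf (T : SB p d ℂ_[p] ≃ₗ[ℂ_[p]] SB p d ℂ_[p]) : S p d ≃ S p d where
  toFun f := ofSB (T (toSB f))
  invFun f := ofSB (T.symm (toSB f))
  left_inv f := by
    show ofSB (T.symm (T (toSB f))) = f
    rw [LinearEquiv.symm_apply_apply, ofSB_toSB]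
  right_inv f := by
    show ofSB (T (T.symm (toSB f))) = f
    rw [LinearEquiv.apply_symm_apply, ofSB_toSB]

lemma permOf_isLin (T : SB p d ℂ_[p] ≃ₗ[ℂ_[p]] SB p d ℂ_[p]) : IsLin (permOf T) := by
  constructor
  · intro f g
    show ofSB (T (toSB f + toSB g)) = _
    rw [map_add]; rfl
  · intro c f
    show ofSB (T (c • toSB f)) = _
    rw [map_smul]; rfl

lemma isNASeminorm_of {N : S p d → ℝ} (hN : IsSeminorm N) :
    IsNASeminorm (fun f : SB p d ℂ_[p] => N (ofSB f)) :=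
  ⟨fun _ => hN.nonneg _, fun c f => hN.smul c (ofSB f), fun f g => hN.add (ofSB f) (ofSB g)⟩

lemma isSeminorm_of {N : SB p d ℂ_[p] → ℝ} (hN : IsNASeminorm N) :
    IsSeminorm (fun f : S p d => N (toSB f)) :=
  ⟨fun _ => hN.nonneg _, fun c f => hN.smul c (toSB f), fun f g => hN.add_le (toSB f) (toSB g)⟩

lemma isNorm_of {N : SB p d ℂ_[p] → ℝ} (hN : IsNANorm N) :
    IsNorm (fun f : S p d => N (toSB f)) := by
  refine ⟨isSeminorm_of hN.toIsNASeminorm, ?_⟩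
  intro f hf x
  have h1 : toSB f = 0 := hN.eq_zero _ hf
  have h2 : (toSB f).1 x = 0 := by rw [h1]; rfl
  exact h2

/-- The norm of `p` in `ℂ_p`. -/
lemma norm_p (p : ℕ) [Fact p.Prime] : ‖((p : ℕ) : ℂ_[p])‖ = (p : ℝ)⁻¹ := by
  have h := PadicComplex.norm_extends' p ((p : ℕ) : ℚ_[p])
  rw [Padic.norm_p] at h
  rw [← h]
  congr 1
  simp

end Pool.Agent.V11283.Heis.St
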