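import Mathlib
import Pool.Agent.V11283.Heis.Rho

/-!
# Chirps and the indicator function of `ℤ_p^d`
-/

namespace Pool.Agent.V11283.Heis

open scoped BigOperators

section OneDim

variable {p : ℕ} [hpp : Fact p.Prime] {K : Type*} [NormedField K]

/-- The set of residues used to kill the shell of radius `p^j`. -/
def Rset (p j : ℕ) : Finset ℕ := (Finset.range (p ^ ((j + 1) / 2))).filter (fun r => ¬ p ∣ r)

omit [NormedField K] in
lemma int_norm_lt_one_iff (k : ℤ) : ‖(k : ℚ_[p])‖ < 1 ↔ (p : ℤ) ∣ k := by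
  have h := PadicInt.norm_int_lt_one_iff_dvd (p := p) k
  rw [← h, PadicInt.norm_def]
  simp

/-- One factor. -/
noncomputable def fac (e : AddChar ℚ_[p] K) (j r : ℕ) (x : ℚ_[p]) : K :=
  1 - e ((p : ℚ_[p]) ^ j * (x - (r : ℚ_[p]) / (p : ℚ_[p]) ^ j) ^ 2)

/-- The one-dimensional function. -/
noncomputable def hN (e : AddChar ℚ_[p] K) (n : ℕ) (x : ℚ_[p]) : K :=
  (∑ y ∈ Finset.range p, e ((y : ℚ_[p]) * x)) *
    ∏ j ∈ Finset.Icc 2 n, ∏ r ∈ Rset p j, fac e j r x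

/-- The constant. -/
noncomputable def gam (e : AddChar ℚ_[p] K) (n : ℕ) : K :=
  (p : K) * ∏ j ∈ Finset.Icc 2 n, ∏ r ∈ Rset p j, (1 - e ((r : ℚ_[p]) ^ 2 / (p : ℚ_[p]) ^ j))

lemma fac_of_int {e : AddChar ℚ_[p] K} (he : StdChar e) (j r : ℕ) {x : ℚ_[p]} (hx : ‖x‖ ≤ 1) :
    fac e j r x = 1 - e ((r : ℚ_[p]) ^ 2 / (p : ℚ_[p]) ^ j) := by
  have hpQ : (p : ℚ_[p]) ≠ 0 := by exact_mod_cast hpp.out.ne_zero
  have hpn : ‖(p : ℚ_[p])‖ ≤ 1 := by
    have := Padic.norm_int_le_one (p := p) (p : ℤ)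
    simpa using this
  rw [fac]
  congr 1
  apply he.congr
  have h1 : (p : ℚ_[p]) ^ j * (x - (r : ℚ_[p]) / (p : ℚ_[p]) ^ j) ^ 2 -
      (r : ℚ_[p]) ^ 2 / (p : ℚ_[p]) ^ j = (p : ℚ_[p]) ^ j * x ^ 2 - (2 * r : ℤ) * x := by
    push_cast
    field_simp
    ring
  rw [h1]
  refine (norm_sub_le_max' _ _).trans (max_le ?_ ?_)
  · rw [norm_mul, norm_pow, norm_pow]
    exact mul_le_one₀ (pow_le_one₀ (norm_nonneg _) hpn) (by positivity)
      (pow_le_one₀ (norm_nonneg _) hx)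
  · rw [norm_mul]
    exact mul_le_one₀ (Padic.norm_int_le_one _) (norm_nonneg _) hx

lemma hN_of_int {e : AddChar ℚ_[p] K} (he : StdChar e) (n : ℕ) {x : ℚ_[p]} (hx : ‖x‖ ≤ 1) :
    hN e n x = gam e n := by
  rw [hN, gam]
  congr 1
  · have : ∀ y ∈ Finset.range p, e ((y : ℚ_[p]) * x) = 1 := by
      intro y _
      apply he.triv
      rw [norm_mul]
      exact mul_le_one₀ (Padic.norm_int_le_one (y : ℤ)) (norm_nonneg _) hx
    rw [Finset.sum_congr rfl this]
    simp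
  · apply Finset.prod_congr rfl
    intro j _
    apply Finset.prod_congr rfl
    intro r _
    exact fac_of_int he j r hx

lemma hN_of_large {e : AddChar ℚ_[p] K} (he : StdChar e) (n : ℕ) {x : ℚ_[p]}
    (hx1 : 1 < ‖x‖) (hxn : ‖x‖ ≤ (p : ℝ) ^ n) : hN e n x = 0 := by
  have hpQ : (p : ℚ_[p]) ≠ 0 := by exact_mod_cast hpp.out.ne_zero
  have hp1 : (1 : ℝ) < p := by exact_mod_cast hpp.out.one_lt
  have hp0 : (0 : ℝ) < p := by linarith
  have hx0 : x ≠ 0 := by
    rintro rfl; simp at hx1; linarith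
  obtain ⟨j, hj⟩ : ∃ j : ℕ, ‖x‖ = (p : ℝ) ^ (j + 1) := by
    have h1 := Padic.norm_eq_zpow_neg_valuation hx0
    rw [h1] at hx1
    have h2 : 0 < -x.valuation := by
      by_contra h3
      push Not at h3
      have : (p : ℝ) ^ (-x.valuation) ≤ 1 := zpow_le_one_of_nonpos₀ hp1.le h3
      linarith
    refine ⟨(-x.valuation).toNat - 1, ?_⟩
    rw [h1]
    have h4 : (-x.valuation) = (((-x.valuation).toNat - 1 + 1 : ℕ) : ℤ) := by omega
    conv_lhs => rw [h4]
    rw [zpow_natCast]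
  have hjn : j + 1 ≤ n := by
    rw [hj] at hxn
    exact (pow_le_pow_iff_right₀ hp1).1 hxn
  rw [hN]
  rcases Nat.eq_zero_or_pos j with hj0 | hjpos
  · -- norm p
    subst hj0
    rw [zero_add, pow_one] at hj
    have h1 : ∀ y ∈ Finset.range p, e ((y : ℚ_[p]) * x) = (e x) ^ y := by
      intro y _
      rw [← AddChar.map_nsmul_eq_pow, nsmul_eq_mul]
    rw [Finset.sum_congr rfl h1]
    have h2 : (e x) ^ p = 1 := by
      rw [← AddChar.map_nsmul_eq_pow]
      apply he.triv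
      rw [nsmul_eq_mul, norm_mul, Padic.norm_p, hj]
      field_simp
      exact le_refl _
    have h3 : e x ≠ 1 := by
      intro h
      have := he.norm_le_one h
      linarith
    have h4 := mul_neg_geom_sum (e x) p
    rw [h2, sub_self] at h4
    rcases mul_eq_zero.1 h4 with h5 | h5
    · exact absurd (sub_eq_zero.1 h5).symm h3
    · rw [h5, zero_mul]
  · set J := j + 1 with hJ
    set u : ℚ_[p] := x * (p : ℚ_[p]) ^ J with hu
    have hun : ‖u‖ = 1 := by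
      rw [hu, norm_mul, hj, norm_pow, Padic.norm_p, inv_pow]
      apply mul_inv_cancel₀
      positivity
    obtain ⟨r, hr1, hr2⟩ := exists_nat_approx 0 ((J + 1) / 2) (y := u) (by rw [hun]; simp)
    rw [zero_add] at hr1
    rw [pow_zero, div_one] at hr2
    have hJ2 : 1 ≤ (J + 1) / 2 := by omega
    have hrp : ¬ p ∣ r := by
      intro hdvd
      have h1 : ‖(r : ℚ_[p])‖ < 1 := by
        have := (int_norm_lt_one_iff (p := p) (r : ℤ)).2 (by exact_mod_cast hdvd)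
        simpa using this
      have h2 : ‖u - (r : ℚ_[p])‖ < 1 := by
        refine lt_of_le_of_lt hr2 ?_
        apply inv_lt_one_of_one_lt₀
        exact one_lt_pow₀ hp1 (by omega)
      have h3 : ‖u‖ < 1 := by
        have : u = (u - (r : ℚ_[p])) + (r : ℚ_[p]) := by ring
        rw [this]
        exact lt_of_le_of_lt (IsUltrametricDist.norm_add_le_max _ _) (max_lt h2 h1)
      linarith
    apply mul_eq_zero_of_right
    apply Finset.prod_eq_zero (i := J)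
    · rw [Finset.mem_Icc]; omega
    apply Finset.prod_eq_zero (i := r)
    · rw [Rset, Finset.mem_filter, Finset.mem_range]
      exact ⟨hr1, hrp⟩
    rw [fac, he.triv, sub_self]
    have h1 : (p : ℚ_[p]) ^ J * (x - (r : ℚ_[p]) / (p : ℚ_[p]) ^ J) ^ 2 =
        (u - (r : ℚ_[p])) ^ 2 / (p : ℚ_[p]) ^ J := by
      rw [hu]; field_simp
    rw [h1, norm_div, norm_pow, norm_pow, Padic.norm_p, inv_pow, div_inv_eq_mul]
    have h2 : ‖u - (r : ℚ_[p])‖ ^ 2 ≤ (((p : ℝ) ^ ((J + 1) / 2))⁻¹) ^ 2 := by gcongr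
    calc ‖u - (r : ℚ_[p])‖ ^ 2 * (p : ℝ) ^ J ≤ (((p : ℝ) ^ ((J + 1) / 2))⁻¹) ^ 2 * (p : ℝ) ^ J := by
          gcongr
      _ ≤ (((p : ℝ) ^ ((J + 1) / 2))⁻¹) ^ 2 * ((p : ℝ) ^ ((J + 1) / 2)) ^ 2 := by
          gcongr
          rw [← pow_mul]
          exact pow_le_pow_right₀ hp1.le (by omega)
      _ = 1 := by
          rw [← mul_pow, inv_mul_cancel₀ (by positivity), one_pow]

end OneDim

section Bound

variable {p : ℕ} [hpp : Fact p.Prime] {K : Type*} [NormedField K] [IsUltrametricDist K]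

lemma card_Rset (j : ℕ) (hj : 1 ≤ (j + 1) / 2) :
    (Rset p j).card = p ^ ((j + 1) / 2 - 1) * (p - 1) := by
  have h1 := Nat.totient_prime_pow hpp.out (n := (j + 1) / 2) (by omega)
  rw [← h1, Nat.totient_eq_card_coprime, Rset]
  congr 1
  apply Finset.filter_congr
  intro r _
  rw [Nat.coprime_pow_left_iff (by omega), Nat.Prime.coprime_iff_not_dvd hpp.out]

/-- The product over one shell. -/
lemma shell_prod (hp : ‖(p : K)‖ = (p : ℝ)⁻¹) {e : AddChar ℚ_[p] K} (he : StdChar e) (j : ℕ)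
    (hj : 2 ≤ j) : (∏ r ∈ Rset p j, ‖1 - e ((r : ℚ_[p]) ^ 2 / (p : ℚ_[p]) ^ j)‖) ^ (p ^ (j / 2)) =
      (p : ℝ)⁻¹ := by
  have hp1 : 1 < p := hpp.out.one_lt
  have hcard := card_Rset (p := p) j (by omega)
  have hcpos : (Rset p j).card ≠ 0 := by
    rw [hcard]
    apply mul_ne_zero (pow_ne_zero _ hpp.out.ne_zero)
    omega
  have hnn : 0 ≤ (∏ r ∈ Rset p j, ‖1 - e ((r : ℚ_[p]) ^ 2 / (p : ℚ_[p]) ^ j)‖) ^ (p ^ (j / 2)) :=
    pow_nonneg (Finset.prod_nonneg (fun _ _ => norm_nonneg _)) _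
  have key : ((∏ r ∈ Rset p j, ‖1 - e ((r : ℚ_[p]) ^ 2 / (p : ℚ_[p]) ^ j)‖) ^ (p ^ (j / 2))) ^
      (Rset p j).card = ((p : ℝ)⁻¹) ^ (Rset p j).card := by
    rw [← pow_mul, ← Finset.prod_pow]
    have h1 : ∀ r ∈ Rset p j, ‖1 - e ((r : ℚ_[p]) ^ 2 / (p : ℚ_[p]) ^ j)‖ ^
        (p ^ (j / 2) * (Rset p j).card) = (p : ℝ)⁻¹ := by
      intro r hr
      rw [Rset, Finset.mem_filter] at hr
      have hrn : ‖(r : ℚ_[p]) ^ 2‖ = 1 := by
        have h2 : ‖(r : ℚ_[p])‖ = 1 := by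
          have h3 := Padic.norm_int_le_one (p := p) (r : ℤ)
          have h4 : ¬ ‖((r : ℤ) : ℚ_[p])‖ < 1 := by
            rw [int_norm_lt_one_iff]
            intro h5
            exact hr.2 (by exact_mod_cast h5)
          have h6 : ‖((r : ℤ) : ℚ_[p])‖ = 1 := le_antisymm h3 (not_lt.1 h4)
          simpa using h6
        rw [norm_pow, h2, one_pow]
      have hprim := he.isPrimitiveRoot hrn j
      obtain ⟨k, rfl⟩ : ∃ k, j = k + 1 := ⟨j - 1, by omega⟩
      have h2 := norm_one_sub_primitive hp hprim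
      have h3 : p ^ ((k + 1) / 2) * (Rset p (k + 1)).card = p ^ k * (p - 1) := by
        rw [hcard, ← mul_assoc, ← pow_add]
        congr 2
        omega
      rw [h3]
      exact h2
    rw [Finset.prod_congr rfl h1, Finset.prod_const]
  exact (pow_left_inj₀ hnn (by positivity) hcpos).1 key

lemma sum_half_bound (m : ℕ) :
    ∑ j ∈ Finset.Icc 2 (2 * m + 1), ((1 : ℝ) / 2) ^ (j / 2) ≤ 2 - 2 * (1 / 2) ^ m := by
  induction m with
  | zero => simp
  | succ m ih =>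
    have h1 : Finset.Icc 2 (2 * (m + 1) + 1) = insert (2 * m + 3) (insert (2 * m + 2)
        (Finset.Icc 2 (2 * m + 1))) := by
      ext x
      simp only [Finset.mem_Icc, Finset.mem_insert]
      omega
    rw [h1, Finset.sum_insert, Finset.sum_insert]
    · have h2 : (2 * m + 3) / 2 = m + 1 := by omega
      have h3 : (2 * m + 2) / 2 = m + 1 := by omega
      rw [h2, h3]
      have h4 : ((1 : ℝ) / 2) ^ (m + 1) = (1 / 2) ^ m * (1 / 2) := pow_succ _ _
      rw [h4]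
      linarith
    · simp
    · simp

lemma norm_gam (hp : ‖(p : K)‖ = (p : ℝ)⁻¹) {e : AddChar ℚ_[p] K} (he : StdChar e) (n : ℕ) :
    ((p : ℝ)⁻¹) ^ 3 ≤ ‖gam e n‖ := by
  have hp1 : (1 : ℝ) < p := by exact_mod_cast hpp.out.one_lt
  have hp2 : (2 : ℝ) ≤ p := by exact_mod_cast hpp.out.two_le
  have hp0 : (0 : ℝ) < p := by linarith
  have hlogp : 0 < Real.log p := Real.log_pos hp1
  rw [gam, norm_mul, hp, norm_prod, pow_succ, mul_comm]
  apply mul_le_mul_of_nonneg_left _ (by positivity)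
  simp_rw [norm_prod]
  set D : ℕ → ℝ := fun j => ∏ r ∈ Rset p j, ‖1 - e ((r : ℚ_[p]) ^ 2 / (p : ℚ_[p]) ^ j)‖ with hD
  have hDpos : ∀ j ∈ Finset.Icc 2 n, 0 < D j := by
    intro j hj
    rw [Finset.mem_Icc] at hj
    have h1 := shell_prod hp he j hj.1
    by_contra hcon
    have h2 : D j = 0 := le_antisymm (not_lt.1 hcon)
      (Finset.prod_nonneg (fun _ _ => norm_nonneg _))
    have h3 : D j ^ (p ^ (j / 2)) = (p : ℝ)⁻¹ := h1
    rw [h2, zero_pow (pow_ne_zero _ hpp.out.ne_zero)] at h3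
    have : (0 : ℝ) < (p : ℝ)⁻¹ := by positivity
    linarith
  have hlogD : ∀ j ∈ Finset.Icc 2 n, -(Real.log p * (1 / 2) ^ (j / 2)) ≤ Real.log (D j) := by
    intro j hj
    have hpos := hDpos j hj
    rw [Finset.mem_Icc] at hj
    have h1 : D j ^ (p ^ (j / 2)) = (p : ℝ)⁻¹ := shell_prod hp he j hj.1
    have h2 := congrArg Real.log h1
    rw [Real.log_pow, Real.log_inv] at h2
    have h3 : (0 : ℝ) < ((p ^ (j / 2) : ℕ) : ℝ) := by
      exact_mod_cast pow_pos hpp.out.pos _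
    have h4 : Real.log (D j) = -(Real.log p / ((p ^ (j / 2) : ℕ) : ℝ)) := by
      field_simp
      linarith
    rw [h4]
    apply neg_le_neg
    rw [div_eq_mul_inv]
    apply mul_le_mul_of_nonneg_left _ hlogp.le
    rw [one_div, inv_pow]
    apply inv_anti₀ (by positivity)
    push_cast
    gcongr
  have hsum : ∑ j ∈ Finset.Icc 2 n, ((1 : ℝ) / 2) ^ (j / 2) ≤ 2 := by
    calc ∑ j ∈ Finset.Icc 2 n, ((1 : ℝ) / 2) ^ (j / 2) ≤
        ∑ j ∈ Finset.Icc 2 (2 * n + 1), ((1 : ℝ) / 2) ^ (j / 2) := by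
          apply Finset.sum_le_sum_of_subset_of_nonneg
          · apply Finset.Icc_subset_Icc le_rfl; omega
          · intro _ _ _; positivity
      _ ≤ 2 - 2 * (1 / 2) ^ n := sum_half_bound n
      _ ≤ 2 := by
        have : (0 : ℝ) ≤ (1 / 2) ^ n := by positivity
        linarith
  have hprodpos : 0 < ∏ j ∈ Finset.Icc 2 n, D j := Finset.prod_pos hDpos
  show ((p : ℝ)⁻¹) ^ 2 ≤ ∏ j ∈ Finset.Icc 2 n, D j
  rw [← Real.log_le_log_iff (by positivity) hprodpos, Real.log_pow, Real.log_inv,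
    Real.log_prod (fun j hj => (hDpos j hj).ne')]
  calc ((2 : ℕ) : ℝ) * -Real.log p = -(Real.log p * 2) := by push_cast; ring
    _ ≤ -(Real.log p * ∑ j ∈ Finset.Icc 2 n, ((1 : ℝ) / 2) ^ (j / 2)) := by
        apply neg_le_neg
        exact mul_le_mul_of_nonneg_left hsum hlogp.le
    _ = ∑ j ∈ Finset.Icc 2 n, -(Real.log p * (1 / 2) ^ (j / 2)) := by
        rw [Finset.sum_neg_distrib, Finset.mul_sum]
    _ ≤ ∑ j ∈ Finset.Icc 2 n, Real.log (D j) := Finset.sum_le_sum hlogD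

end Bound

end Pool.Agent.V11283.Heis
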