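import Mathlib
import Pool.Agent.V11283.Heis.Chirp
import Pool.Agent.V11283.Heis.Norms

/-!
# Invariant seminorms are controlled by the chirp transforms
-/

namespace Pool.Agent.V11283.Heis

open scoped BigOperators

section Quad

variable {p : ℕ} [hpp : Fact p.Prime] {d : ℕ} {K : Type*} [NormedField K]

/-- The quadratic phase. -/
noncomputable def quad (c y x : Fin d → ℚ_[p]) : ℚ_[p] := ∑ i, (c i * x i ^ 2 + y i * x i)

lemma continuous_quad (c y : Fin d → ℚ_[p]) : Continuous (fun x => quad c y x) := by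
  unfold quad
  fun_prop

lemma quad_add (c c' y y' x : Fin d → ℚ_[p]) :
    quad c y x + quad c' y' x = quad (c + c') (y + y') x := by
  unfold quad
  rw [← Finset.sum_add_distrib]
  apply Finset.sum_congr rfl
  intro i _
  simp only [Pi.add_apply]
  ring

/-- Sums of integral multiples of chirps with small curvature. -/
inductive IsQ (e : AddChar ℚ_[p] K) : ((Fin d → ℚ_[p]) → K) → Prop
  | gen (κ : K) (c y : Fin d → ℚ_[p]) (hκ : ‖κ‖ ≤ 1)
      (hc : ∀ i, ‖c i‖ ≤ ((p : ℝ) ^ 2)⁻¹) : IsQ e (fun x => κ * e (quad c y x))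
  | add (f g : (Fin d → ℚ_[p]) → K) (hf : IsQ e f) (hg : IsQ e g) : IsQ e (fun x => f x + g x)

variable {e : AddChar ℚ_[p] K}

lemma IsQ.mul {f g : (Fin d → ℚ_[p]) → K} (hf : IsQ e f) (hg : IsQ e g) :
    IsQ e (fun x => f x * g x) := by
  induction hf with
  | gen κ c y hκ hc =>
    induction hg with
    | gen κ' c' y' hκ' hc' =>
      have h1 : (fun x : Fin d → ℚ_[p] => κ * e (quad c y x) * (κ' * e (quad c' y' x))) =
          fun x => (κ * κ') * e (quad (c + c') (y + y') x) := by
        funext x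
        rw [← quad_add, AddChar.map_add_eq_mul]
        ring
      rw [h1]
      apply IsQ.gen
      · rw [norm_mul]
        exact mul_le_one₀ hκ (norm_nonneg _) hκ'
      · intro i
        exact (IsUltrametricDist.norm_add_le_max _ _).trans (max_le (hc i) (hc' i))
    | add f' g' _ _ ih1 ih2 =>
      have h1 : (fun x : Fin d → ℚ_[p] => κ * e (quad c y x) * (f' x + g' x)) =
          fun x => κ * e (quad c y x) * f' x + κ * e (quad c y x) * g' x := by
        funext x; ring
      rw [h1]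
      exact IsQ.add _ _ ih1 ih2
  | add f' g' _ _ ih1 ih2 =>
    have h1 : (fun x : Fin d → ℚ_[p] => (f' x + g' x) * g x) =
        fun x => f' x * g x + g' x * g x := by
      funext x; ring
    rw [h1]
    exact IsQ.add _ _ ih1 ih2

lemma IsQ.const (κ : K) (hκ : ‖κ‖ ≤ 1) : IsQ e (fun _ : Fin d → ℚ_[p] => κ) := by
  have h1 := IsQ.gen (e := e) κ (0 : Fin d → ℚ_[p]) 0 hκ (by intro i; simp)
  have h2 : (fun x : Fin d → ℚ_[p] => κ * e (quad 0 0 x)) = fun _ => κ := by
    funext x
    simp [quad]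
  rwa [h2] at h1

lemma IsQ.prod {ι : Type*} (s : Finset ι) (f : ι → (Fin d → ℚ_[p]) → K)
    (h : ∀ i ∈ s, IsQ e (f i)) : IsQ e (fun x => ∏ i ∈ s, f i x) := by
  classical
  induction s using Finset.induction_on with
  | empty => simpa using IsQ.const (e := e) (d := d) (1 : K) (by simp)
  | insert a s ha ih =>
    have h1 : (fun x => ∏ i ∈ insert a s, f i x) = fun x => f a x * ∏ i ∈ s, f i x := by
      funext x; rw [Finset.prod_insert ha]
    rw [h1]
    exact (h a (Finset.mem_insert_self a s)).mul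
      (ih (fun i hi => h i (Finset.mem_insert_of_mem hi)))

lemma IsQ.sum {ι : Type*} (s : Finset ι) (f : ι → (Fin d → ℚ_[p]) → K)
    (h : ∀ i ∈ s, IsQ e (f i)) : IsQ e (fun x => ∑ i ∈ s, f i x) := by
  classical
  induction s using Finset.induction_on with
  | empty => simpa using IsQ.const (e := e) (d := d) (0 : K) (by simp)
  | insert a s ha ih =>
    have h1 : (fun x => ∑ i ∈ insert a s, f i x) = fun x => f a x + ∑ i ∈ s, f i x := by
      funext x; rw [Finset.sum_insert ha]
    rw [h1]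
    exact IsQ.add _ _ (h a (Finset.mem_insert_self a s))
      (ih (fun i hi => h i (Finset.mem_insert_of_mem hi)))

lemma quad_single (i : Fin d) (c y : ℚ_[p]) (x : Fin d → ℚ_[p]) :
    quad (Pi.single i c) (Pi.single i y) x = c * x i ^ 2 + y * x i := by
  unfold quad
  rw [Finset.sum_eq_single i]
  · simp
  · intro j _ hj
    simp [hj]
  · intro h; exact absurd (Finset.mem_univ i) h

/-- A one-variable chirp. -/
lemma IsQ.single (κ : K) (hκ : ‖κ‖ ≤ 1) (i : Fin d) (c y : ℚ_[p])
    (hc : ‖c‖ ≤ ((p : ℝ) ^ 2)⁻¹) : IsQ e (fun x => κ * e (c * x i ^ 2 + y * x i)) := by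
  have h1 := IsQ.gen (e := e) κ (Pi.single i c : Fin d → ℚ_[p]) (Pi.single i y) hκ (by
    intro j
    by_cases hj : j = i
    · subst hj; simpa using hc
    · simp only [Pi.single_apply, hj, if_false, norm_zero]
      positivity)
  simp_rw [quad_single] at h1
  exact h1

lemma isQ_hN (he : StdChar e) (n : ℕ) (i : Fin d) : IsQ e (fun x => hN e n (x i)) := by
  have hpQ : (p : ℚ_[p]) ≠ 0 := by exact_mod_cast hpp.out.ne_zero
  have hp1 : (1 : ℝ) < p := by exact_mod_cast hpp.out.one_lt
  unfold hN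
  apply IsQ.mul
  · apply IsQ.sum
    intro y _
    have h1 := IsQ.single (e := e) (1 : K) (by simp) i 0 (y : ℚ_[p]) (by simp)
    simpa using h1
  · apply IsQ.prod _ (fun j x => ∏ r ∈ Rset p j, fac e j r (x i))
    intro j hj
    rw [Finset.mem_Icc] at hj
    apply IsQ.prod _ (fun r x => fac e j r (x i))
    intro r _
    have h1 : (fun x : Fin d → ℚ_[p] => fac e j r (x i)) = fun x => (1 : K) +
        (-e ((r : ℚ_[p]) ^ 2 / (p : ℚ_[p]) ^ j)) *
          e ((p : ℚ_[p]) ^ j * x i ^ 2 + (-2 * r) * x i) := by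
      funext x
      rw [fac, neg_mul, ← AddChar.map_add_eq_mul, ← sub_eq_add_neg]
      congr 2
      field_simp
      ring
    rw [h1]
    apply IsQ.add _ _ (IsQ.const 1 (by simp))
    apply IsQ.single
    · rw [norm_neg, he.norm_eq_one]
    · rw [norm_pow, Padic.norm_p, inv_pow]
      apply inv_anti₀ (by positivity)
      exact pow_le_pow_right₀ hp1.le hj.1

/-- The `d`-dimensional cutoff. -/
noncomputable def HN (e : AddChar ℚ_[p] K) (n : ℕ) (x : Fin d → ℚ_[p]) : K := ∏ i, hN e n (x i)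

lemma isQ_HN (he : StdChar e) (n : ℕ) : IsQ e (fun x : Fin d → ℚ_[p] => HN e n x) := by
  unfold HN
  exact IsQ.prod _ (fun i x => hN e n (x i)) (fun i _ => isQ_hN he n i)

open Classical in
lemma HN_apply (he : StdChar e) (n : ℕ) (x : Fin d → ℚ_[p]) (hx : ∀ i, ‖x i‖ ≤ (p : ℝ) ^ n) :
    HN e n x = if x ∈ Zpd p d then (gam e n) ^ d else 0 := by
  rw [HN]
  split_ifs with h
  · rw [Finset.prod_congr rfl (fun i _ => hN_of_int he n (h i))]
    simp
  · have : ∃ i, ¬ ‖x i‖ ≤ 1 := by
      by_contra hcon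
      push Not at hcon
      exact h hcon
    obtain ⟨i, hi⟩ := this
    push Not at hi
    exact Finset.prod_eq_zero (Finset.mem_univ i) (hN_of_large he n hi (hx i))

end Quad

section ThmA

variable {p : ℕ} [hpp : Fact p.Prime] {d : ℕ} {K : Type*} [NormedField K] [IsUltrametricDist K]
  [CharZero K] {e : AddChar ℚ_[p] K}

/-- The chirp operator. -/
noncomputable def chirp (he : StdChar e) (c : Fin d → ℚ_[p]) : SB p d K →ₗ[K] SB p d K :=
  mulLC (fun x => e (quad c 0 x)) (he.isLocallyConstant_comp (continuous_quad c 0))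

lemma chirp_apply (he : StdChar e) (c x : Fin d → ℚ_[p]) (f : SB p d K) :
    (chirp he c f).1 x = e (quad c 0 x) * f.1 x := rfl

/-- The integral over `ℤ_p^d`. -/
noncomputable def cut (d : ℕ) : SB p d K →ₗ[K] SB p d K :=
  mulLC (v0 : SB p d K).1 (v0 : SB p d K).2.1

lemma cut_apply (f : SB p d K) (x : Fin d → ℚ_[p]) :
    (cut d f).1 x = (v0 : SB p d K).1 x * f.1 x := rfl

/-- The coefficient functional. -/
noncomputable def mu0 (he : StdChar e) : SB p d K →ₗ[K] K :=
  (evalAt 0) ∘ₗ (FF he) ∘ₗ (cut d)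

lemma isQ_bound (he : StdChar e) {h : (Fin d → ℚ_[p]) → K} (hh : IsQ e h)
    (c0 : Fin d → ℚ_[p]) (f : SB p d K) {B : ℝ}
    (hB : ∀ c : Fin d → ℚ_[p], (∀ i, ‖c i - c0 i‖ ≤ ((p : ℝ) ^ 2)⁻¹) →
      supNorm (FF he (chirp he c f)) ≤ B) :
    ∃ hlc : IsLocallyConstant h, ‖(FF he (mulLC h hlc (chirp he c0 f))).1 0‖ ≤ B := by
  induction hh with
  | gen κ c y hκ hc =>
    have hlc : IsLocallyConstant (fun x : Fin d → ℚ_[p] => κ * e (quad c y x)) :=
      (he.isLocallyConstant_comp (continuous_quad c y)).comp (fun t => κ * t)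
    refine ⟨hlc, ?_⟩
    have h1 : mulLC (fun x : Fin d → ℚ_[p] => κ * e (quad c y x)) hlc (chirp he c0 f) =
        κ • modu he y (chirp he (c + c0) f) := by
      apply Subtype.ext
      funext x
      rw [mulLC_apply, chirp_apply, Submodule.coe_smul, Pi.smul_apply, modu_apply, chirp_apply,
        smul_eq_mul, mul_assoc, ← mul_assoc (e _) (e _), ← mul_assoc (e _) (e _),
        ← AddChar.map_add_eq_mul, ← AddChar.map_add_eq_mul]
      congr 3
      have h2 : y ⬝ᵥ x = quad 0 y x := by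
        unfold quad dotProduct
        apply Finset.sum_congr rfl
        intro i _
        simp
      rw [h2, quad_add, quad_add]
      congr 1
      simp
    rw [h1, map_smul, FF_modu, Submodule.coe_smul, Pi.smul_apply, trans_apply, norm_smul]
    calc ‖κ‖ * ‖(FF he (chirp he (c + c0) f)).1 (0 + y)‖ ≤ 1 * B := by
          apply mul_le_mul hκ _ (norm_nonneg _) zero_le_one
          refine (norm_le_supNorm _ _).trans (hB _ ?_)
          intro i
          simpa using hc i
      _ = B := one_mul B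
  | add f' g' _ _ ih1 ih2 =>
    obtain ⟨l1, b1⟩ := ih1
    obtain ⟨l2, b2⟩ := ih2
    refine ⟨l1.add l2, ?_⟩
    have h1 : mulLC (fun x => f' x + g' x) (l1.add l2) (chirp he c0 f) =
        mulLC f' l1 (chirp he c0 f) + mulLC g' l2 (chirp he c0 f) := by
      apply Subtype.ext
      funext x
      rw [mulLC_apply, Submodule.coe_add, Pi.add_apply, mulLC_apply, mulLC_apply, add_mul]
    rw [h1, map_add, Submodule.coe_add, Pi.add_apply]
    exact (IsUltrametricDist.norm_add_le_max _ _).trans (max_le b1 b2)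

lemma norm_mu0_le (hp : ‖(p : K)‖ = (p : ℝ)⁻¹) (he : StdChar e) (c0 : Fin d → ℚ_[p])
    (hc0 : c0 ∈ Zpd p d) (f : SB p d K) {B : ℝ} 
    (hB : ∀ c : Fin d → ℚ_[p], (∀ i, ‖c i - c0 i‖ ≤ ((p : ℝ) ^ 2)⁻¹) →
      supNorm (FF he (chirp he c f)) ≤ B) :
    ‖mu0 he f‖ ≤ ((p : ℝ) ^ 3) ^ d * B := by
  classical
  have hp0 : (0 : ℝ) < p := by exact_mod_cast hpp.out.pos
  obtain ⟨n, hn, _⟩ := exists_uniform f
  obtain ⟨hlc, hb⟩ := isQ_bound he (isQ_HN he n) c0 f hB
  have hgam := norm_gam hp he n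
  have hgpos : 0 < ‖gam e n‖ := lt_of_lt_of_le (by positivity) hgam
  have hgne : gam e n ≠ 0 := norm_pos_iff.1 hgpos
  have hB0 : 0 ≤ B := (norm_nonneg _).trans hb
  have h1 : mulLC (fun x : Fin d → ℚ_[p] => HN e n x) hlc (chirp he c0 f) =
      (gam e n) ^ d • cut d f := by
    apply Subtype.ext
    funext x
    rw [mulLC_apply, chirp_apply, Submodule.coe_smul, Pi.smul_apply, cut_apply, smul_eq_mul]
    by_cases hx : ∃ i, (p : ℝ) ^ n < ‖x i‖
    · rw [hn x hx]; ring
    · push Not at hx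
      rw [HN_apply he n x hx]
      by_cases hxZ : x ∈ Zpd p d
      · rw [if_pos hxZ, v0_apply_of_mem hxZ, he.triv, one_mul]
        unfold quad
        apply IsUltrametricDist.norm_sum_le_of_forall_le_of_nonneg zero_le_one
        intro i _
        simp only [Pi.zero_apply, zero_mul, add_zero]
        rw [norm_mul, norm_pow]
        exact mul_le_one₀ (hc0 i) (by positivity) (pow_le_one₀ (norm_nonneg _) (hxZ i))
      · rw [if_neg hxZ, v0_apply_of_notMem hxZ]; ring
  rw [h1, map_smul, Submodule.coe_smul, Pi.smul_apply, norm_smul, norm_pow] at hb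
  have h2 : mu0 he f = (FF he (cut d f)).1 0 := rfl
  rw [h2]
  have h3 : (((p : ℝ)⁻¹) ^ 3) ^ d ≤ ‖gam e n‖ ^ d := by gcongr
  have h4 : (((p : ℝ)⁻¹) ^ 3) ^ d * ‖(FF he (cut d f)).1 0‖ ≤ B :=
    (mul_le_mul_of_nonneg_right h3 (norm_nonneg _)).trans hb
  have h5 : ((p : ℝ) ^ 3) ^ d * (((p : ℝ)⁻¹) ^ 3) ^ d = 1 := by
    rw [← mul_pow, ← mul_pow, mul_inv_cancel₀ hp0.ne', one_pow, one_pow]
  calc ‖(FF he (cut d f)).1 0‖ = (((p : ℝ) ^ 3) ^ d * (((p : ℝ)⁻¹) ^ 3) ^ d) *
        ‖(FF he (cut d f)).1 0‖ := by rw [h5, one_mul]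
    _ = ((p : ℝ) ^ 3) ^ d * ((((p : ℝ)⁻¹) ^ 3) ^ d * ‖(FF he (cut d f)).1 0‖) := by ring
    _ ≤ ((p : ℝ) ^ 3) ^ d * B := by gcongr

lemma chirp_modu (he : StdChar e) (c b : Fin d → ℚ_[p]) (f : SB p d K) :
    chirp he c (modu he b f) = modu he b (chirp he c f) := by
  apply Subtype.ext
  funext x
  rw [chirp_apply, modu_apply, modu_apply, chirp_apply]
  ring

lemma chirp_trans (he : StdChar e) (c a : Fin d → ℚ_[p]) (f : SB p d K) :
    chirp he c (trans a f) = e (-(∑ i, c i * a i ^ 2)) •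
      modu he (fun i => -(2 * c i * a i)) (trans a (chirp he c f)) := by
  apply Subtype.ext
  funext x
  rw [chirp_apply, Submodule.coe_smul, Pi.smul_apply, modu_apply, trans_apply, trans_apply,
    chirp_apply, smul_eq_mul, ← mul_assoc, ← mul_assoc, ← AddChar.map_add_eq_mul,
    ← AddChar.map_add_eq_mul]
  congr 2
  unfold quad dotProduct
  rw [← Finset.sum_neg_distrib, ← Finset.sum_add_distrib, ← Finset.sum_add_distrib]
  apply Finset.sum_congr rfl
  intro i _
  simp only [Pi.add_apply, Pi.zero_apply]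
  ring

lemma FF_chirp_modu (he : StdChar e) (c b : Fin d → ℚ_[p]) (f : SB p d K) :
    FF he (chirp he c (modu he b f)) = trans b (FF he (chirp he c f)) := by
  rw [chirp_modu, FF_modu]

lemma FF_chirp_trans (he : StdChar e) (c a : Fin d → ℚ_[p]) (f : SB p d K) :
    FF he (chirp he c (trans a f)) = e (-(∑ i, c i * a i ^ 2)) •
      trans (fun i => -(2 * c i * a i)) (modu he (-a) (FF he (chirp he c f))) := by
  rw [chirp_trans, map_smul, FF_modu, FF_trans]

lemma supNorm_trans (a : Fin d → ℚ_[p]) (f : SB p d K) : supNorm (trans a f) = supNorm f := by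
  apply le_antisymm
  · apply supNorm_le
    intro x
    exact norm_le_supNorm f _
  · apply supNorm_le
    intro x
    have := norm_le_supNorm (trans a f) (x - a)
    rw [trans_apply, sub_add_cancel] at this
    exact this

lemma supNorm_modu (he : StdChar e) (b : Fin d → ℚ_[p]) (f : SB p d K) :
    supNorm (modu he b f) = supNorm f := by
  unfold supNorm
  congr 1
  ext r
  simp only [Set.mem_range, modu_apply, norm_mul, he.norm_eq_one, one_mul]

lemma supNorm_FF_chirp_trans (he : StdChar e) (c a : Fin d → ℚ_[p]) (f : SB p d K) :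
    supNorm (FF he (chirp he c (trans a f))) = supNorm (FF he (chirp he c f)) := by
  rw [FF_chirp_trans, supNorm_smul, he.norm_eq_one, one_mul, supNorm_trans, supNorm_modu]

lemma supNorm_FF_chirp_modu (he : StdChar e) (c b : Fin d → ℚ_[p]) (f : SB p d K) :
    supNorm (FF he (chirp he c (modu he b f))) = supNorm (FF he (chirp he c f)) := by
  rw [FF_chirp_modu, supNorm_trans]

lemma mu0_gen (he : StdChar e) (a b : Fin d → ℚ_[p]) :
    (a ∈ Zpd p d → b ∈ Zpd p d → mu0 he (gen he a b) = e (-(a ⬝ᵥ b))) ∧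
    (¬ (a ∈ Zpd p d ∧ b ∈ Zpd p d) → mu0 he (gen he a b) = 0) := by
  have key : a ∈ Zpd p d → cut d (gen he a b) = gen he a b := by
    intro ha
    apply Subtype.ext
    funext x
    rw [cut_apply, gen_apply]
    by_cases hx : x ∈ Zpd p d
    · rw [v0_apply_of_mem hx, one_mul]
    · rw [v0_apply_of_notMem hx, v0_apply_of_notMem (x := x + a), mul_zero, mul_zero]
      rwa [Zpd_add_iff ha]
  have key2 : a ∉ Zpd p d → cut d (gen he a b) = 0 := by
    intro ha
    apply Subtype.ext
    funext x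
    rw [cut_apply, gen_apply]
    by_cases hx : x ∈ Zpd p d
    · rw [v0_apply_of_notMem (x := x + a), mul_zero, mul_zero]
      · rfl
      · intro h
        apply ha
        have := Zpd_sub h hx
        rwa [add_sub_cancel_left] at this
    · rw [v0_apply_of_notMem hx, zero_mul]; rfl
  constructor
  · intro ha hb
    show (FF he (cut d (gen he a b))).1 0 = _
    rw [key ha, FF_gen, trans_apply, modu_apply, zero_add, v0_apply_of_mem hb, mul_one,
      neg_dotProduct]
  · intro h
    show (FF he (cut d (gen he a b))).1 0 = _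
    by_cases ha : a ∈ Zpd p d
    · have hb : b ∉ Zpd p d := fun hb => h ⟨ha, hb⟩
      rw [key ha, FF_gen, trans_apply, modu_apply, zero_add, v0_apply_of_notMem hb, mul_zero]
    · rw [key2 ha, map_zero]; rfl

lemma repr_eq (he : StdChar e) (f : SB p d K) (w : Cls p d × Cls p d) :
    (Bas he).repr f w = e (rep w.2 ⬝ᵥ rep w.1) *
      mu0 he (modu he (-rep w.2) (trans (-rep w.1) f)) := by
  classical
  have key : (Bas he).coord w = e (rep w.2 ⬝ᵥ rep w.1) •
      ((mu0 he) ∘ₗ (modu he (-rep w.2)) ∘ₗ (trans (-rep w.1))) := by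
    apply (Bas he).ext
    intro w'
    rw [Module.Basis.coord_apply, Module.Basis.repr_self, Bas_apply]
    simp only [LinearMap.smul_apply, LinearMap.comp_apply]
    rw [trans_gen, map_smul, map_smul, modu_gen, smul_eq_mul, smul_eq_mul]
    by_cases hw : w' = w
    · subst hw
      rw [Finsupp.single_eq_same, neg_add_cancel, neg_add_cancel,
        (mu0_gen he 0 0).1 Zpd_zero Zpd_zero]
      rw [dotProduct_neg, dotProduct_zero, neg_zero, AddChar.map_zero_eq_one, mul_one,
        ← AddChar.map_add_eq_mul, add_neg_cancel, AddChar.map_zero_eq_one]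
    · rw [Finsupp.single_eq_of_ne (Ne.symm hw), (mu0_gen he _ _).2]
      · ring
      · rintro ⟨h1, h2⟩
        apply hw
        exact (Prod.ext (eq_of_rep h1) (eq_of_rep h2)).symm
  have := LinearMap.congr_fun key f
  rw [Module.Basis.coord_apply] at this
  exact this

/-- **Theorem A**: the coefficients are controlled by the chirp transforms. -/
theorem repr_le (hp : ‖(p : K)‖ = (p : ℝ)⁻¹) (he : StdChar e) (c0 : Fin d → ℚ_[p])
    (hc0 : c0 ∈ Zpd p d) (f : SB p d K) {B : ℝ} 
    (hB : ∀ c : Fin d → ℚ_[p], (∀ i, ‖c i - c0 i‖ ≤ ((p : ℝ) ^ 2)⁻¹) →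
      supNorm (FF he (chirp he c f)) ≤ B) (w : Cls p d × Cls p d) :
    ‖(Bas he).repr f w‖ ≤ ((p : ℝ) ^ 3) ^ d * B := by
  rw [repr_eq, norm_mul, he.norm_eq_one, one_mul]
  apply norm_mu0_le hp he c0 hc0
  intro c hc
  rw [supNorm_FF_chirp_modu, supNorm_FF_chirp_trans]
  exact hB c hc

end ThmA

end Pool.Agent.V11283.Heis
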