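import Mathlib
import Pool.Agent.V11283.Heis.TheoremA
import Pool.Agent.V11283.Heis.Stmt

/-!
# The intertwining operators attached to chirps
-/

namespace Pool.Agent.V11283.Heis

open scoped BigOperators

section Inter

variable {p : ℕ} [hpp : Fact p.Prime] {d : ℕ} {K : Type*} [NormedField K] [IsUltrametricDist K]
  [CharZero K]

lemma chirp_chirp {e : AddChar ℚ_[p] K} (he : StdChar e) (c : Fin d → ℚ_[p]) (f : SB p d K) :
    chirp he (-c) (chirp he c f) = f := by
  apply Subtype.ext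
  funext x
  rw [chirp_apply, chirp_apply, ← mul_assoc, ← AddChar.map_add_eq_mul, quad_add]
  have : quad (-c + c) (0 + 0) x = 0 := by simp [quad]
  rw [this, AddChar.map_zero_eq_one, one_mul]

/-- The chirp as an equivalence. -/
noncomputable def chirpE {e : AddChar ℚ_[p] K} (he : StdChar e) (c : Fin d → ℚ_[p]) :
    SB p d K ≃ₗ[K] SB p d K :=
  LinearEquiv.ofLinearMap (chirp he c) (chirp he (-c))
    (by
      apply LinearMap.ext
      intro f
      have := chirp_chirp he (-c) f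
      rw [neg_neg] at this
      exact this)
    (by
      apply LinearMap.ext
      intro f
      exact chirp_chirp he c f)

/-- The operator `T_c = F ∘ (chirp c)`. -/
noncomputable def Tc {e : AddChar ℚ_[p] K} (he : StdChar e) (c : Fin d → ℚ_[p]) :
    SB p d K ≃ₗ[K] SB p d K := (chirpE he c).trans (FFe he)

lemma Tc_apply {e : AddChar ℚ_[p] K} (he : StdChar e) (c : Fin d → ℚ_[p]) (f : SB p d K) :
    Tc he c f = FF he (chirp he c f) := rfl

/-- The symplectic matrix attached to a chirp. -/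
noncomputable def gc (π : ℚ_[p]) (c : Fin d → ℚ_[p]) :
    Matrix (Fin d ⊕ Fin d) (Fin d ⊕ Fin d) ℚ_[p] :=
  Matrix.fromBlocks (Matrix.diagonal (fun i => -(2 * c i))) (Matrix.diagonal (fun _ => -π))
    (Matrix.diagonal (fun _ => π⁻¹)) 0

/-- The inverse of the symplectic matrix attached to a chirp. -/
noncomputable def gcInv (π : ℚ_[p]) (c : Fin d → ℚ_[p]) :
    Matrix (Fin d ⊕ Fin d) (Fin d ⊕ Fin d) ℚ_[p] :=
  Matrix.fromBlocks 0 (Matrix.diagonal (fun _ => π))
    (Matrix.diagonal (fun _ => -π⁻¹)) (Matrix.diagonal (fun i => -(2 * c i)))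

lemma gc_mem {π : ℚ_[p]} (hπ : π ≠ 0) (c : Fin d → ℚ_[p]) :
    gc π c ∈ Matrix.symplecticGroup (Fin d) ℚ_[p] := by
  rw [gc, SymplecticGroup.fromBlocks_mem_iff]
  refine ⟨?_, ?_, ?_⟩
  · simp only [Matrix.diagonal_transpose, Matrix.diagonal_mul_diagonal]
    congr 1; funext i; ring
  · simp
  · simp only [Matrix.diagonal_transpose, Matrix.diagonal_mul_diagonal, Matrix.mul_zero, zero_sub]
    rw [← Matrix.diagonal_one, Matrix.diagonal_neg]
    congr 1; funext i
    simp [hπ]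

lemma gcInv_mem {π : ℚ_[p]} (hπ : π ≠ 0) (c : Fin d → ℚ_[p]) :
    gcInv π c ∈ Matrix.symplecticGroup (Fin d) ℚ_[p] := by
  rw [gcInv, SymplecticGroup.fromBlocks_mem_iff]
  refine ⟨?_, ?_, ?_⟩
  · simp
  · simp only [Matrix.diagonal_transpose, Matrix.diagonal_mul_diagonal]
    congr 1; funext i; ring
  · simp only [Matrix.diagonal_transpose, Matrix.diagonal_mul_diagonal, Matrix.transpose_zero,
      Matrix.zero_mul, zero_sub]
    rw [← Matrix.diagonal_one, Matrix.diagonal_neg]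
    congr 1; funext i
    simp [hπ]

lemma gcInv_mul_gc {π : ℚ_[p]} (hπ : π ≠ 0) (c : Fin d → ℚ_[p]) : gcInv π c * gc π c = 1 := by
  rw [gcInv, gc, Matrix.fromBlocks_multiply, ← Matrix.fromBlocks_one]
  congr 1
  · simp [Matrix.diagonal_mul_diagonal, hπ]
  · simp
  · simp only [Matrix.diagonal_mul_diagonal]
    rw [Matrix.diagonal_add, ← Matrix.diagonal_zero]
    congr 1; funext i; ring
  · simp [Matrix.diagonal_mul_diagonal, hπ]

lemma wa_gc (π : ℚ_[p]) (c : Fin d → ℚ_[p]) (w : Fin d ⊕ Fin d → ℚ_[p]) :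
    wa (Matrix.vecMul w (gc π c)) = fun i => π⁻¹ * wb w i + -(2 * c i * wa w i) := by
  funext i
  rw [wa, gc, ← Sum.elim_comp_inl_inr w, Matrix.vecMul_fromBlocks]
  simp only [Sum.elim_inl, Pi.add_apply, Matrix.vecMul_diagonal, Sum.elim_comp_inl_inr, wa, wb,
    Function.comp_apply]
  ring

lemma wb_gc (π : ℚ_[p]) (c : Fin d → ℚ_[p]) (w : Fin d ⊕ Fin d → ℚ_[p]) :
    wb (Matrix.vecMul w (gc π c)) = fun i => -(π * wa w i) := by
  funext i
  rw [wb, gc, ← Sum.elim_comp_inl_inr w, Matrix.vecMul_fromBlocks]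
  simp only [Sum.elim_inr, Pi.add_apply, Matrix.vecMul_diagonal, Sum.elim_comp_inl_inr, wa,
    Function.comp_apply, Matrix.vecMul_zero, Pi.zero_apply]
  ring

/-- `T_c` intertwines: `T_c ρ([w,t]) = ρ([w g_c, t]) T_c`. -/
theorem Tc_rho {ψ : AddChar ℚ_[p] K} (hψ : IsOpen {t : ℚ_[p] | ψ t = 1}) {π : ℚ_[p]} (hπ : π ≠ 0)
    (he : StdChar (scale ψ π)) (c : Fin d → ℚ_[p]) (w : Fin d ⊕ Fin d → ℚ_[p]) (t : ℚ_[p])
    (f : SB p d K) :
    Tc he c (rho ψ hψ w t f) = rho ψ hψ (Matrix.vecMul w (gc π c)) t (Tc he c f) := by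
  have h2 : (2 : ℚ_[p]) ≠ 0 := two_ne_zero
  rw [rho_eq hψ hπ he, rho_eq hψ hπ he, map_smul, Tc_apply, Tc_apply, FF_chirp_modu,
    FF_chirp_trans, map_smul, trans_trans]
  have e1 : π⁻¹ • wb (Matrix.vecMul w (gc π c)) = -wa w := by
    rw [wb_gc]
    funext i
    simp only [Pi.smul_apply, smul_eq_mul, Pi.neg_apply]
    field_simp
  have e2 : wa (Matrix.vecMul w (gc π c)) = π⁻¹ • wb w + fun i => -(2 * c i * wa w i) := by
    rw [wa_gc]; rfl
  rw [e1, e2, trans_modu, smul_smul, smul_smul]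
  congr 1
  rw [scale_apply, scale_apply, ← AddChar.map_add_eq_mul, ← AddChar.map_add_eq_mul]
  congr 1
  have e3 : wb (Matrix.vecMul w (gc π c)) = -(π • wa w) := by
    rw [wb_gc]; rfl
  rw [e3]
  simp only [dotProduct, Pi.add_apply, Pi.smul_apply, Pi.neg_apply, smul_eq_mul]
  have e4 : ∀ s : ℚ_[p], t + s = t + s := fun s => rfl
  have e5 : 1 / 2 * ∑ i, wa w i * wb w i + π * -∑ i, c i * wa w i ^ 2 +
      π * ∑ i, -wa w i * (π⁻¹ * wb w i + -(2 * c i * wa w i)) =
      1 / 2 * ∑ i, (π⁻¹ * wb w i + -(2 * c i * wa w i)) * -(π * wa w i) := by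
    rw [← Finset.sum_neg_distrib, Finset.mul_sum, Finset.mul_sum, Finset.mul_sum, Finset.mul_sum,
      ← Finset.sum_add_distrib, ← Finset.sum_add_distrib]
    apply Finset.sum_congr rfl
    intro i _
    field_simp
    ring
  rw [← e5]
  ring

lemma supNorm_rho {ψ : AddChar ℚ_[p] K} (hψ : IsOpen {t : ℚ_[p] | ψ t = 1}) (hψ1 : ψ ≠ 1)
    (w : Fin d ⊕ Fin d → ℚ_[p]) (t : ℚ_[p]) (f : SB p d K) :
    supNorm (rho ψ hψ w t f) = supNorm f := by
  obtain ⟨π, hπ, he⟩ := exists_std hψ hψ1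
  have hψn : ∀ t : ℚ_[p], ‖ψ t‖ = 1 := by
    intro t
    have := he.norm_eq_one (π⁻¹ * t)
    rwa [scale_apply, mul_inv_cancel_left₀ hπ] at this
  rw [rho_eq hψ hπ he, supNorm_smul, hψn, one_mul, supNorm_modu, supNorm_trans]

lemma grNorm_isNANorm (T : SB p d K ≃ₗ[K] SB p d K) : IsNANorm (grNorm T) := by
  have h0 : 0 < supNorm (T v0 : SB p d K) := by
    apply supNorm_pos
    intro h
    exact v0_ne_zero ((LinearEquiv.map_eq_zero_iff T).1 h)
  refine ⟨⟨?_, ?_, ?_⟩, ?_⟩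
  · intro f
    exact div_nonneg (supNorm_nonneg _) h0.le
  · intro c f
    rw [grNorm, grNorm, map_smul, supNorm_smul, mul_div_assoc]
  · intro f g
    rw [grNorm, grNorm, grNorm, map_add, max_div_div_right h0.le]
    gcongr
    exact supNorm_isNANorm.add_le _ _
  · intro f hf
    rw [grNorm, div_eq_zero_iff] at hf
    rcases hf with hf | hf
    · exact (LinearEquiv.map_eq_zero_iff T).1 (supNorm_isNANorm.eq_zero _ hf)
    · exact absurd hf h0.ne'

/-- Invariance under the representation gives invariance under translations and modulations. -/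
lemma inv_trans {ψ : AddChar ℚ_[p] K} (hψ : IsOpen {t : ℚ_[p] | ψ t = 1}) {π : ℚ_[p]} (hπ : π ≠ 0)
    (he : StdChar (scale ψ π)) {N : SB p d K → ℝ} (hinv : ∀ w t f, N (rho ψ hψ w t f) = N f)
    (a : Fin d → ℚ_[p]) (f : SB p d K) : N (trans a f) = N f := by
  have h := hinv (Sum.elim a 0) 0 f
  rw [rho_eq hψ hπ he] at h
  have e1 : wa (Sum.elim a 0 : Fin d ⊕ Fin d → ℚ_[p]) = a := rfl
  have e2 : wb (Sum.elim a 0 : Fin d ⊕ Fin d → ℚ_[p]) = 0 := rfl
  rw [e1, e2, dotProduct_zero, mul_zero, add_zero, AddChar.map_zero_eq_one, one_smul, smul_zero,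
    modu_zero] at h
  exact h

lemma inv_modu {ψ : AddChar ℚ_[p] K} (hψ : IsOpen {t : ℚ_[p] | ψ t = 1}) {π : ℚ_[p]} (hπ : π ≠ 0)
    (he : StdChar (scale ψ π)) {N : SB p d K → ℝ} (hinv : ∀ w t f, N (rho ψ hψ w t f) = N f)
    (b : Fin d → ℚ_[p]) (f : SB p d K) : N (modu he b f) = N f := by
  have h := hinv (Sum.elim 0 (π • b)) 0 f
  rw [rho_eq hψ hπ he] at h
  have e1 : wa (Sum.elim 0 (π • b) : Fin d ⊕ Fin d → ℚ_[p]) = 0 := rfl
  have e2 : wb (Sum.elim 0 (π • b) : Fin d ⊕ Fin d → ℚ_[p]) = π • b := rfl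
  rw [e1, e2, zero_dotProduct, mul_zero, add_zero, AddChar.map_zero_eq_one, one_smul, smul_smul,
    inv_mul_cancel₀ hπ, one_smul, trans_zero] at h
  exact h

/-- Invariant seminorms are controlled by the coefficients. -/
lemma inv_le {ψ : AddChar ℚ_[p] K} (hψ : IsOpen {t : ℚ_[p] | ψ t = 1}) {π : ℚ_[p]} (hπ : π ≠ 0)
    (he : StdChar (scale ψ π)) {N : SB p d K → ℝ} (hN : IsNASeminorm N)
    (hinv : ∀ w t f, N (rho ψ hψ w t f) = N f) {f : SB p d K}
    {C : ℝ} (hC : 0 ≤ C) (h : ∀ w, ‖(Bas he).repr f w‖ ≤ C) : N f ≤ C * N v0 := by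
  apply hN.le_of_repr he _ hC h
  intro a b
  rw [gen, inv_modu hψ hπ he hinv, inv_trans hψ hπ he hinv]

omit [IsUltrametricDist K] [CharZero K] in
lemma supNorm_v0 : supNorm (v0 : SB p d K) = 1 := by
  apply le_antisymm
  · apply supNorm_le
    intro x
    by_cases hx : x ∈ Zpd p d
    · rw [v0_apply_of_mem hx, norm_one]
    · rw [v0_apply_of_notMem hx, norm_zero]; exact zero_le_one
  · have := norm_le_supNorm (v0 : SB p d K) 0
    rwa [v0_apply_of_mem Zpd_zero, norm_one] at this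

lemma Tc_v0 {e : AddChar ℚ_[p] K} (he : StdChar e) {c : Fin d → ℚ_[p]} (hc : c ∈ Zpd p d) :
    Tc he c v0 = v0 := by
  have h1 : chirp he c (v0 : SB p d K) = v0 := by
    apply Subtype.ext
    funext x
    rw [chirp_apply]
    by_cases hx : x ∈ Zpd p d
    · rw [he.triv, one_mul]
      unfold quad
      apply IsUltrametricDist.norm_sum_le_of_forall_le_of_nonneg zero_le_one
      intro i _
      simp only [Pi.zero_apply, zero_mul, add_zero]
      rw [norm_mul, norm_pow]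
      exact mul_le_one₀ (hc i) (by positivity) (pow_le_one₀ (norm_nonneg _) (hx i))
    · rw [v0_apply_of_notMem hx, mul_zero]
  rw [Tc_apply, h1, FF_v0]

lemma grNorm_Tc {e : AddChar ℚ_[p] K} (he : StdChar e) {c : Fin d → ℚ_[p]} (hc : c ∈ Zpd p d)
    (f : SB p d K) : grNorm (Tc he c) f = supNorm (FF he (chirp he c f)) := by
  rw [grNorm, Tc_v0 he hc, supNorm_v0, div_one, Tc_apply]

end Inter

end Pool.Agent.V11283.Heis
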