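import Mathlib
import Pool.Agent.V11283.Heis.Inter

/-!
# The supremum of all Grassmannian norms
-/

namespace Pool.Agent.V11283.Heis.St

open Pool.Agent.V11283.Heis

variable {p : ℕ} [Fact p.Prime] {d : ℕ}

/-- `T` is an intertwining operator for `g`, in the form `T ρ([w,t]) = ρ([wg,t]) T`. -/
def IntertwinesL (ψ : AddChar ℚ_[p] ℂ_[p]) (hψ : IsOpen {t : ℚ_[p] | ψ t = 1})
    (g : Matrix (Fin d ⊕ Fin d) (Fin d ⊕ Fin d) ℚ_[p]) (T : S p d ≃ S p d) : Prop :=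
  IsLin T ∧ ∀ w t f, T (rho ψ hψ w t f) = rho ψ hψ (Matrix.vecMul w g) t (T f)

/-- The set of the values at `f` of the norms `‖·‖_α`, `α` in the Grassmannian: the values
`‖T f‖_∞ / ‖T 1_{ℤ_p^d}‖_∞` for all symplectic `g` and all intertwining operators `T` for `g`. -/
def GrVals (ψ : AddChar ℚ_[p] ℂ_[p]) (hψ : IsOpen {t : ℚ_[p] | ψ t = 1}) (f : S p d) : Set ℝ :=
  {r | ∃ g ∈ Matrix.symplecticGroup (Fin d) ℚ_[p], ∃ T : S p d ≃ S p d,
    IntertwinesL ψ hψ g T ∧ r = grNorm T f}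

/-- The supremum `N_𝒢` of all norms `‖·‖_α`. -/
noncomputable def NG (ψ : AddChar ℚ_[p] ℂ_[p]) (hψ : IsOpen {t : ℚ_[p] | ψ t = 1})
    (f : S p d) : ℝ := sSup (GrVals ψ hψ f)

variable {ψ : AddChar ℚ_[p] ℂ_[p]} {hψ : IsOpen {t : ℚ_[p] | ψ t = 1}}

lemma grNorm_isNorm {T : S p d ≃ S p d} (hT : IsLin T) : IsNorm (grNorm T) :=
  isNorm_of (grNorm_isNANorm (equivOf hT))

lemma sup_rho (hψ1 : ψ ≠ 1) (w : Fin d ⊕ Fin d → ℚ_[p]) (t : ℚ_[p]) (f : S p d) :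
    sup (rho ψ hψ w t f) = sup f :=
  supNorm_rho hψ hψ1 w t (toSB f)

lemma grNorm_rho (hψ1 : ψ ≠ 1) {g : Matrix (Fin d ⊕ Fin d) (Fin d ⊕ Fin d) ℚ_[p]}
    {T : S p d ≃ S p d} (hT : IntertwinesL ψ hψ g T) (w : Fin d ⊕ Fin d → ℚ_[p]) (t : ℚ_[p])
    (f : S p d) : grNorm T (rho ψ hψ w t f) = grNorm T f := by
  rw [grNorm, grNorm, hT.2, sup_rho hψ1]

lemma grNorm_one (T : S p d ≃ S p d) (hT : IsLin T) : grNorm T one = 1 := by
  have h0 : sup (T one) ≠ 0 := by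
    intro h
    have h1 : Heis.supNorm (equivOf hT v0) = 0 := h
    have h2 : 0 < Heis.supNorm (equivOf hT v0) := by
      apply supNorm_pos
      intro h3
      exact v0_ne_zero ((LinearEquiv.map_eq_zero_iff (equivOf hT)).1 h3)
    exact h2.ne' h1
  rw [grNorm, div_self h0]

/-- All norms `‖·‖_α` are bounded by the coefficients. -/
lemma grNorm_le_of_inv (hψ1 : ψ ≠ 1) (f : S p d) : ∃ C : ℝ, 0 ≤ C ∧
    ∀ N : S p d → ℝ, IsSeminorm N → Invariant ψ hψ N → N f ≤ C * N one := by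
  obtain ⟨π, hπ, he⟩ := exists_std hψ hψ1
  obtain ⟨C, hC0, hC⟩ := exists_repr_bound he (toSB f)
  refine ⟨C, hC0, fun N hN hinv => ?_⟩
  exact inv_le hψ hπ he (N := fun f => N (ofSB f)) (isNASeminorm_of hN)
    (fun w t f => hinv w t (ofSB f)) (f := toSB f) hC0 hC

lemma grVals_bddAbove (hψ1 : ψ ≠ 1) (f : S p d) : BddAbove (GrVals ψ hψ f) := by
  obtain ⟨C, hC0, hC⟩ := grNorm_le_of_inv (hψ := hψ) hψ1 f
  refine ⟨C, ?_⟩
  rintro r ⟨g, _, T, hT, rfl⟩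
  have := hC (grNorm T) (grNorm_isNorm hT.1).toIsSeminorm (fun w t f => grNorm_rho hψ1 hT w t f)
  rwa [grNorm_one T hT.1, mul_one] at this

lemma refl_mem (f : S p d) : sup f ∈ GrVals ψ hψ f := by
  refine ⟨1, Submonoid.one_mem _, Equiv.refl _, ⟨⟨fun _ _ => rfl, fun _ _ => rfl⟩, ?_⟩, ?_⟩
  · intro w t f
    rw [Matrix.vecMul_one]; rfl
  · have h1 : sup (one : S p d) = 1 := supNorm_v0
    rw [grNorm]
    show sup f = sup f / sup one
    rw [h1, div_one]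

lemma le_NG (hψ1 : ψ ≠ 1) {f : S p d} {g : Matrix (Fin d ⊕ Fin d) (Fin d ⊕ Fin d) ℚ_[p]}
    (hg : g ∈ Matrix.symplecticGroup (Fin d) ℚ_[p]) {T : S p d ≃ S p d}
    (hT : IntertwinesL ψ hψ g T) : grNorm T f ≤ NG ψ hψ f :=
  le_csSup (grVals_bddAbove hψ1 f) ⟨g, hg, T, hT, rfl⟩

lemma NG_le {f : S p d} {C : ℝ} (h : ∀ r ∈ GrVals ψ hψ f, r ≤ C) : NG ψ hψ f ≤ C :=
  csSup_le ⟨_, refl_mem f⟩ h

lemma NG_isNorm (hψ1 : ψ ≠ 1) : IsNorm (NG (d := d) ψ hψ) := by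
  have hnn : ∀ f : S p d, 0 ≤ NG ψ hψ f := fun f =>
    (supNorm_nonneg (toSB f)).trans (le_csSup (grVals_bddAbove hψ1 f) (refl_mem f))
  have hsm : ∀ (c : ℂ_[p]) (f : S p d), NG ψ hψ (smul c f) ≤ ‖c‖ * NG ψ hψ f := by
    intro c f
    apply NG_le
    rintro r ⟨g, hg, T, hT, rfl⟩
    rw [(grNorm_isNorm hT.1).smul]
    exact mul_le_mul_of_nonneg_left (le_NG hψ1 hg hT) (norm_nonneg _)
  refine ⟨⟨hnn, ?_, ?_⟩, ?_⟩
  · intro c f
    apply le_antisymm (hsm c f)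
    rcases eq_or_ne c 0 with rfl | hc
    · rw [norm_zero, zero_mul]; exact hnn _
    · have h2 := hsm c⁻¹ (smul c f)
      have h3 : smul c⁻¹ (smul c f) = f := by
        apply Subtype.ext
        funext x
        show c⁻¹ * (c * f.1 x) = f.1 x
        rw [inv_mul_cancel_left₀ hc]
      rw [h3, norm_inv] at h2
      rwa [le_inv_mul_iff₀ (norm_pos_iff.2 hc)] at h2
  · intro f g
    apply NG_le
    rintro r ⟨g', hg', T, hT, rfl⟩
    exact ((grNorm_isNorm hT.1).add f g).trans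
      (max_le_max (le_NG hψ1 hg' hT) (le_NG hψ1 hg' hT))
  · intro f hf x
    have h1 : sup f ≤ 0 := by
      rw [← hf]
      exact le_csSup (grVals_bddAbove hψ1 f) (refl_mem f)
    have h2 : ‖f.1 x‖ ≤ 0 := (norm_le_supNorm (toSB f) x).trans h1
    exact norm_le_zero_iff.1 h2

lemma NG_invariant (hψ1 : ψ ≠ 1) : Invariant ψ hψ (NG (d := d) ψ hψ) := by
  intro w t f
  unfold NG
  congr 1
  ext r
  constructor
  · rintro ⟨g, hg, T, hT, rfl⟩
    exact ⟨g, hg, T, hT, grNorm_rho hψ1 hT w t f⟩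
  · rintro ⟨g, hg, T, hT, rfl⟩
    exact ⟨g, hg, T, hT, (grNorm_rho hψ1 hT w t f).symm⟩

/-- The supremum of all Grassmannian norms dominates every invariant seminorm. -/
theorem NG_dominates (hψ1 : ψ ≠ 1) {N : S p d → ℝ} (hN : IsSeminorm N)
    (hinv : Invariant ψ hψ N) : Dominates (NG ψ hψ) N := by
  have hp0 : (0 : ℝ) < p := by exact_mod_cast (Fact.out : p.Prime).pos
  have hp1 : (1 : ℝ) < p := by exact_mod_cast (Fact.out : p.Prime).one_lt
  obtain ⟨π, hπ, he⟩ := exists_std hψ hψ1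
  have key : ∀ f : S p d, N f ≤ (((p : ℝ) ^ 3) ^ d * NG ψ hψ f) * N one := by
    intro f
    have h1 : ∀ w, ‖(Bas he).repr (toSB f) w‖ ≤ ((p : ℝ) ^ 3) ^ d * NG ψ hψ f := by
      apply repr_le (norm_p p) he 0 Zpd_zero
      intro c hc
      have hcZ : c ∈ Zpd p d := by
        intro i
        have := hc i
        rw [Pi.zero_apply, sub_zero] at this
        refine this.trans (inv_le_one_of_one_le₀ (one_le_pow₀ hp1.le))
      rw [← grNorm_Tc he hcZ]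
      have hT : IntertwinesL ψ hψ (gc π c) (permOf (Tc he c)) := by
        refine ⟨permOf_isLin _, ?_⟩
        intro w t f
        exact congrArg ofSB (Tc_rho hψ hπ he c w t (toSB f))
      exact le_NG (f := f) hψ1 (gc_mem hπ c) hT
    have h2 : 0 ≤ ((p : ℝ) ^ 3) ^ d * NG ψ hψ f :=
      mul_nonneg (by positivity) ((NG_isNorm hψ1).nonneg f)
    exact inv_le hψ hπ he (N := fun f => N (ofSB f)) (isNASeminorm_of hN)
      (fun w t f => hinv w t (ofSB f)) (f := toSB f) h2 h1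
  refine ⟨((p : ℝ) ^ 3) ^ d * N one + 1, ?_, ?_⟩
  · have := hN.nonneg one
    positivity
  · intro f
    have h1 := key f
    have h2 := (NG_isNorm (hψ := hψ) hψ1).nonneg f
    calc N f ≤ (((p : ℝ) ^ 3) ^ d * NG ψ hψ f) * N one := h1
      _ = (((p : ℝ) ^ 3) ^ d * N one) * NG ψ hψ f := by ring
      _ ≤ (((p : ℝ) ^ 3) ^ d * N one + 1) * NG ψ hψ f := by
          apply mul_le_mul_of_nonneg_right _ h2
          linarith

end Pool.Agent.V11283.Heis.St
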