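import Mathlib
import Pool.Agent.V11283.Heis.GrSup

/-!
# The Grassmannian `P\Sp` and disjoint closed subsets giving maximal norms
-/

namespace Pool.Agent.V11283.Heis.St

open Pool.Agent.V11283.Heis

variable {p : ℕ} [Fact p.Prime] {d : ℕ}

/-- The symplectic group as a type. -/
abbrev SpG (p : ℕ) [Fact p.Prime] (d : ℕ) : Type := Matrix.symplecticGroup (Fin d) ℚ_[p]

lemma siegel_mul {g h : SpG p d} (hg : ∀ i j, g.1 (Sum.inr i) (Sum.inl j) = 0)
    (hh : ∀ i j, h.1 (Sum.inr i) (Sum.inl j) = 0) :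
    ∀ i j, (g * h).1 (Sum.inr i) (Sum.inl j) = 0 := by
  intro i j
  rw [Submonoid.coe_mul, Matrix.mul_apply, Fintype.sum_sum_type]
  simp [hg, hh]

lemma siegel_inv {g : SpG p d} (hg : ∀ i j, g.1 (Sum.inr i) (Sum.inl j) = 0) :
    ∀ i j, (g⁻¹).1 (Sum.inr i) (Sum.inl j) = 0 := by
  intro i j
  rw [SymplecticGroup.coe_inv]
  have h1 : (-Matrix.J (Fin d) ℚ_[p]) * (g.1).transpose * Matrix.J (Fin d) ℚ_[p] =
      Matrix.fromBlocks (g.1.toBlocks₂₂.transpose) (-(g.1.toBlocks₁₂.transpose))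
        (-(g.1.toBlocks₂₁.transpose)) (g.1.toBlocks₁₁.transpose) := by
    conv_lhs => rw [← Matrix.fromBlocks_toBlocks g.1]
    rw [Matrix.J, Matrix.fromBlocks_transpose, Matrix.fromBlocks_neg, Matrix.fromBlocks_multiply,
      Matrix.fromBlocks_multiply]
    simp
  rw [h1]
  simp [Matrix.toBlocks₂₁, hg]

/-- The Siegel parabolic subgroup: lower left block zero. -/
noncomputable def Siegel (p : ℕ) [Fact p.Prime] (d : ℕ) : Subgroup (SpG p d) where
  carrier := {g | ∀ i j, g.1 (Sum.inr i) (Sum.inl j) = 0}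
  mul_mem' := siegel_mul
  one_mem' := by
    intro i j
    simp
  inv_mem' := siegel_inv

/-- The Grassmannian `X = P\Sp`, the set of cosets `P g`. -/
noncomputable def Gr (p : ℕ) [Fact p.Prime] (d : ℕ) : Type := Quotient (QuotientGroup.rightRel (Siegel p d))

/-- The quotient topology on the Grassmannian. -/
noncomputable instance grTop (p : ℕ) [Fact p.Prime] (d : ℕ) : TopologicalSpace (Gr p d) :=
  inferInstanceAs (TopologicalSpace (Quotient (QuotientGroup.rightRel (Siegel p d))))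

/-- The coset `P g`. -/
noncomputable def coset (g : SpG p d) : Gr p d := Quotient.mk (QuotientGroup.rightRel (Siegel p d)) g

/-- The values at `f` of the norms `‖·‖_α`, `α ∈ I`: the values `‖T f‖_∞ / ‖T 1_{ℤ_p^d}‖_∞` for all
symplectic `g` with `P g ∈ I` and all intertwining operators `T` for `g`. -/
def ValsOn (ψ : AddChar ℚ_[p] ℂ_[p]) (hψ : IsOpen {t : ℚ_[p] | ψ t = 1}) (I : Set (Gr p d))
    (f : S p d) : Set ℝ :=
  {r | ∃ g : SpG p d, coset g ∈ I ∧ ∃ T : S p d ≃ S p d,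
    Intertwines ψ hψ g.1 T ∧ r = grNorm T f}

/-- The norm `‖·‖_I`. -/
noncomputable def normOn (ψ : AddChar ℚ_[p] ℂ_[p]) (hψ : IsOpen {t : ℚ_[p] | ψ t = 1})
    (I : Set (Gr p d)) (f : S p d) : ℝ := sSup (ValsOn ψ hψ I f)

variable {ψ : AddChar ℚ_[p] ℂ_[p]} {hψ : IsOpen {t : ℚ_[p] | ψ t = 1}}

lemma grNorm_rho' (hψ1 : ψ ≠ 1) {g : SpG p d}
    {T : S p d ≃ S p d} (hT : Intertwines ψ hψ g.1 T) (w : Fin d ⊕ Fin d → ℚ_[p]) (t : ℚ_[p])
    (f : S p d) : grNorm T (rho ψ hψ w t f) = grNorm T f := by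
  have h1 : w = Matrix.vecMul (Matrix.vecMul w (g.1)⁻¹) g.1 := by
    rw [Matrix.vecMul_vecMul, Matrix.nonsing_inv_mul g.1 (SymplecticGroup.symplectic_det g.2),
      Matrix.vecMul_one]
  rw [grNorm, grNorm]
  conv_lhs => rw [h1]
  rw [← hT.2, sup_rho hψ1]

lemma valsOn_bddAbove (hψ1 : ψ ≠ 1) (I : Set (Gr p d)) (f : S p d) :
    BddAbove (ValsOn ψ hψ I f) := by
  obtain ⟨C, hC0, hC⟩ := grNorm_le_of_inv (hψ := hψ) hψ1 f
  refine ⟨C, ?_⟩
  rintro r ⟨g, _, T, hT, rfl⟩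
  have := hC (grNorm T) (grNorm_isNorm hT.1).toIsSeminorm
    (fun w t f => grNorm_rho' hψ1 hT w t f)
  rwa [grNorm_one T hT.1, mul_one] at this

lemma le_normOn (hψ1 : ψ ≠ 1) {I : Set (Gr p d)} {f : S p d} {g : SpG p d} (hg : coset g ∈ I)
    {T : S p d ≃ S p d} (hT : Intertwines ψ hψ g.1 T) : grNorm T f ≤ normOn ψ hψ I f :=
  le_csSup (valsOn_bddAbove hψ1 I f) ⟨g, hg, T, hT, rfl⟩

lemma normOn_isNorm (hψ1 : ψ ≠ 1) {I : Set (Gr p d)} {g0 : SpG p d} (hg0 : coset g0 ∈ I)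
    {T0 : S p d ≃ S p d} (hT0 : Intertwines ψ hψ g0.1 T0) : IsNorm (normOn ψ hψ I) := by
  have hle : ∀ {f : S p d} {C : ℝ}, (∀ r ∈ ValsOn ψ hψ I f, r ≤ C) → normOn ψ hψ I f ≤ C :=
    fun {f C} h => csSup_le ⟨_, g0, hg0, T0, hT0, rfl⟩ h
  have hnn : ∀ f : S p d, 0 ≤ normOn ψ hψ I f := fun f =>
    ((grNorm_isNorm hT0.1).nonneg f).trans (le_normOn hψ1 hg0 hT0)
  have hsm : ∀ (c : ℂ_[p]) (f : S p d), normOn ψ hψ I (smul c f) ≤ ‖c‖ * normOn ψ hψ I f := by
    intro c f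
    apply hle
    rintro r ⟨g, hg, T, hT, rfl⟩
    rw [(grNorm_isNorm hT.1).smul]
    exact mul_le_mul_of_nonneg_left (le_normOn hψ1 hg hT) (norm_nonneg _)
  refine ⟨⟨hnn, ?_, ?_⟩, ?_⟩
  · intro c f
    apply le_antisymm (hsm c f)
    rcases eq_or_ne c 0 with rfl | hc
    · rw [norm_zero, zero_mul]; exact hnn _
    · have h2 := hsm c⁻¹ (smul c f)
      have h3 : smul c⁻¹ (smul c f) = f := by
        apply Subtype.ext
        funext x
        show c⁻¹ * (c * f.1 x) = f.1 x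
        rw [inv_mul_cancel_left₀ hc]
      rw [h3, norm_inv] at h2
      rwa [le_inv_mul_iff₀ (norm_pos_iff.2 hc)] at h2
  · intro f g
    apply hle
    rintro r ⟨g', hg', T, hT, rfl⟩
    exact ((grNorm_isNorm hT.1).add f g).trans
      (max_le_max (le_normOn hψ1 hg' hT) (le_normOn hψ1 hg' hT))
  · intro f hf
    have h1 : grNorm T0 f ≤ 0 := by
      rw [← hf]
      exact le_normOn hψ1 hg0 hT0
    have h2 := le_antisymm h1 ((grNorm_isNorm hT0.1).nonneg f)
    exact (grNorm_isNorm hT0.1).eq_zero f h2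

lemma normOn_invariant (hψ1 : ψ ≠ 1) (I : Set (Gr p d)) : Invariant ψ hψ (normOn ψ hψ I) := by
  intro w t f
  unfold normOn
  congr 1
  ext r
  constructor
  · rintro ⟨g, hg, T, hT, rfl⟩
    exact ⟨g, hg, T, hT, grNorm_rho' hψ1 hT w t f⟩
  · rintro ⟨g, hg, T, hT, rfl⟩
    exact ⟨g, hg, T, hT, (grNorm_rho' hψ1 hT w t f).symm⟩

/-- The condition on `g` defining the subset attached to curvatures in a set of `c`. -/
def CD (π : ℚ_[p]) (c : Fin d → ℚ_[p]) (g : SpG p d) : Prop :=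
  ∀ i j, g.1 (Sum.inr i) (Sum.inr j) = g.1 (Sum.inr i) (Sum.inl j) * (2 * π * c j)

/-- The subset of the Grassmannian attached to a set of curvatures. -/
def IC (π : ℚ_[p]) (C : Set (Fin d → ℚ_[p])) : Set (Gr p d) :=
  {α | ∃ g, coset g = α ∧ ∃ c ∈ C, CD π c g}

lemma CD_mul {π : ℚ_[p]} {c : Fin d → ℚ_[p]} {g q : SpG p d} (hq : q ∈ Siegel p d)
    (hg : CD π c g) : CD π c (q * g) := by
  intro i j
  have hq' : ∀ i j, q.1 (Sum.inr i) (Sum.inl j) = 0 := hq
  rw [Submonoid.coe_mul, Matrix.mul_apply, Matrix.mul_apply, Fintype.sum_sum_type,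
    Fintype.sum_sum_type]
  simp only [hq', zero_mul, Finset.sum_const_zero, zero_add]
  rw [Finset.sum_mul]
  apply Finset.sum_congr rfl
  intro k _
  rw [hg k j]
  ring

lemma coset_mem_IC {π : ℚ_[p]} {C : Set (Fin d → ℚ_[p])} {g : SpG p d} :
    coset g ∈ IC π C ↔ ∃ c ∈ C, CD π c g := by
  constructor
  · rintro ⟨g', hg', c, hc, hcd⟩
    have h1 : (QuotientGroup.rightRel (Siegel p d)) g' g := Quotient.exact hg'
    rw [QuotientGroup.rightRel_apply] at h1
    refine ⟨c, hc, ?_⟩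
    have h2 := CD_mul h1 hcd
    rwa [inv_mul_cancel_right] at h2
  · rintro ⟨c, hc, hcd⟩
    exact ⟨g, rfl, c, hc, hcd⟩

lemma isClosed_IC (π : ℚ_[p]) {C : Set (Fin d → ℚ_[p])} (hC : IsCompact C) :
    IsClosed (IC (p := p) (d := d) π C) := by
  have h1 : IsClosed ((coset : SpG p d → Gr p d) ⁻¹' IC π C) := by
    have h2 : (coset : SpG p d → Gr p d) ⁻¹' IC π C = Prod.fst ''
        {x : SpG p d × C | CD π x.2.1 x.1} := by
      ext g
      rw [Set.mem_preimage, coset_mem_IC]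
      constructor
      · rintro ⟨c, hc, hcd⟩
        exact ⟨(g, ⟨c, hc⟩), hcd, rfl⟩
      · rintro ⟨⟨g', c⟩, hcd, rfl⟩
        exact ⟨c.1, c.2, hcd⟩
    rw [h2]
    have : CompactSpace C := isCompact_iff_compactSpace.1 hC
    apply isClosedMap_fst_of_compactSpace
    have h3 : {x : SpG p d × C | CD π x.2.1 x.1} = ⋂ i : Fin d, ⋂ j : Fin d,
        {x : SpG p d × C | x.1.1 (Sum.inr i) (Sum.inr j) =
          x.1.1 (Sum.inr i) (Sum.inl j) * (2 * π * x.2.1 j)} := by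
      ext x
      simp only [Set.mem_ofPred_eq, Set.mem_iInter]
      rfl
    rw [h3]
    apply isClosed_iInter
    intro i
    apply isClosed_iInter
    intro j
    apply isClosed_eq
    · exact (continuous_subtype_val.comp continuous_fst).matrix_elem _ _
    · exact ((continuous_subtype_val.comp continuous_fst).matrix_elem _ _).mul
        (continuous_const.mul ((continuous_apply j).comp
          (continuous_subtype_val.comp continuous_snd)))
  exact isClosed_coinduced.2 h1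

/-- The ball of curvatures around `c0`. -/
def ballC (p : ℕ) [Fact p.Prime] (d : ℕ) (c0 : ℚ_[p]) : Set (Fin d → ℚ_[p]) :=
  {c | ∀ i, ‖c i - c0‖ ≤ ((p : ℝ) ^ 2)⁻¹}

lemma isCompact_ballC (c0 : ℚ_[p]) : IsCompact (ballC p d c0) := by
  have h1 : ballC p d c0 = Metric.closedBall (fun _ => c0) (((p : ℝ) ^ 2)⁻¹) := by
    ext c
    rw [Metric.mem_closedBall, dist_pi_le_iff (by positivity)]
    simp only [ballC, Set.mem_ofPred_eq, dist_eq_norm]
  rw [h1]
  exact isCompact_closedBall _ _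

lemma disjoint_IC {π : ℚ_[p]} (hπ : π ≠ 0) (hd : 1 ≤ d) {C C' : Set (Fin d → ℚ_[p])}
    (h : ∀ c ∈ C, ∀ c' ∈ C', ∀ i, c i ≠ c' i) :
    Disjoint (IC (p := p) (d := d) π C) (IC π C') := by
  rw [Set.disjoint_left]
  rintro α ⟨g, rfl, c, hc, hcd⟩ h2
  rw [coset_mem_IC] at h2
  obtain ⟨c', hc', hcd'⟩ := h2
  have hC : ∀ i j, g.1 (Sum.inr i) (Sum.inl j) = 0 := by
    intro i j
    have h1 := hcd i j
    rw [hcd' i j] at h1
    have h3 : g.1 (Sum.inr i) (Sum.inl j) * (2 * π * (c' j - c j)) = 0 := by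
      linear_combination h1
    rcases mul_eq_zero.1 h3 with h4 | h4
    · exact h4
    · exfalso
      rcases mul_eq_zero.1 h4 with h5 | h5
      · rcases mul_eq_zero.1 h5 with h6 | h6
        · exact two_ne_zero h6
        · exact hπ h6
      · exact h c hc c' hc' j (sub_eq_zero.1 h5).symm
  have hD : ∀ i j, g.1 (Sum.inr i) (Sum.inr j) = 0 := by
    intro i j
    rw [hcd i j, hC i j, zero_mul]
  have hdet : g.1.det = 0 := by
    apply Matrix.det_eq_zero_of_row_eq_zero (Sum.inr ⟨0, hd⟩)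
    rintro (j | j)
    · exact hC _ j
    · exact hD _ j
  have := SymplecticGroup.symplectic_det g.2
  rw [hdet] at this
  exact not_isUnit_zero this

lemma CD_gcInv {π : ℚ_[p]} (hπ : π ≠ 0) (c : Fin d → ℚ_[p]) :
    CD π c (⟨gcInv π c, gcInv_mem hπ c⟩ : SpG p d) := by
  intro i j
  show gcInv π c (Sum.inr i) (Sum.inr j) = gcInv π c (Sum.inr i) (Sum.inl j) * (2 * π * c j)
  rw [gcInv, Matrix.fromBlocks_apply₂₂, Matrix.fromBlocks_apply₂₁]
  by_cases hij : i = j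
  · subst hij
    rw [Matrix.diagonal_apply_eq, Matrix.diagonal_apply_eq]
    field_simp
  · rw [Matrix.diagonal_apply_ne _ hij, Matrix.diagonal_apply_ne _ hij, zero_mul]

lemma intertwines_Tc {π : ℚ_[p]} (hπ : π ≠ 0) (he : StdChar (scale ψ π)) (c : Fin d → ℚ_[p]) :
    Intertwines ψ hψ (gcInv π c) (permOf (Tc he c)) := by
  refine ⟨permOf_isLin _, ?_⟩
  intro w t f
  have h1 := Tc_rho hψ hπ he c (Matrix.vecMul w (gcInv π c)) t (toSB f)
  rw [Matrix.vecMul_vecMul, gcInv_mul_gc hπ, Matrix.vecMul_one] at h1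
  exact congrArg ofSB h1.symm

/-- The norm attached to a ball of curvatures is maximal. -/
theorem normOn_dominates (hψ1 : ψ ≠ 1) {π : ℚ_[p]} (hπ : π ≠ 0) (he : StdChar (scale ψ π))
    {c0 : ℚ_[p]} (hc0 : ‖c0‖ ≤ 1)
    {N : S p d → ℝ} (hN : IsSeminorm N)
    (hinv : Invariant ψ hψ N) : Dominates (normOn ψ hψ (IC π (ballC p d c0))) N := by
  have hp0 : (0 : ℝ) < p := by exact_mod_cast (Fact.out : p.Prime).pos
  have hp1 : (1 : ℝ) < p := by exact_mod_cast (Fact.out : p.Prime).one_lt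
  have hmem : ∀ c ∈ ballC p d c0,
      coset (⟨gcInv π c, gcInv_mem hπ c⟩ : SpG p d) ∈ IC π (ballC p d c0) :=
    fun c hc => coset_mem_IC.2 ⟨c, hc, CD_gcInv hπ c⟩
  have hc0mem : (fun _ => c0) ∈ ballC p d c0 := by
    intro i
    simp only [sub_self, norm_zero]
    positivity
  have hnorm : IsNorm (normOn ψ hψ (IC (p := p) (d := d) π (ballC p d c0))) :=
    normOn_isNorm hψ1 (hmem _ hc0mem) (intertwines_Tc hπ he _)
  set M := normOn ψ hψ (IC (p := p) (d := d) π (ballC p d c0)) with hM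
  have key : ∀ f : S p d, N f ≤ (((p : ℝ) ^ 3) ^ d * M f) * N one := by
    intro f
    have h1 : ∀ w, ‖(Bas he).repr (toSB f) w‖ ≤ ((p : ℝ) ^ 3) ^ d * M f := by
      apply repr_le (norm_p p) he (fun _ => c0) (fun _ => hc0)
      intro c hc
      have hcZ : c ∈ Zpd p d := by
        intro i
        have e1 : c i = (c i - c0) + c0 := by ring
        rw [e1]
        refine (IsUltrametricDist.norm_add_le_max _ _).trans (max_le ?_ hc0)
        exact (hc i).trans (inv_le_one_of_one_le₀ (one_le_pow₀ hp1.le))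
      rw [← grNorm_Tc he hcZ]
      exact le_normOn (f := f) hψ1 (hmem c hc) (intertwines_Tc hπ he c)
    have h2 : 0 ≤ ((p : ℝ) ^ 3) ^ d * M f :=
      mul_nonneg (by positivity) (hnorm.nonneg f)
    exact inv_le hψ hπ he (N := fun f => N (ofSB f)) (isNASeminorm_of hN)
      (fun w t f => hinv w t (ofSB f)) (f := toSB f) h2 h1
  refine ⟨((p : ℝ) ^ 3) ^ d * N one + 1, ?_, ?_⟩
  · have := hN.nonneg one
    positivity
  · intro f
    have h1 := key f
    have h2 := hnorm.nonneg f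
    calc N f ≤ (((p : ℝ) ^ 3) ^ d * M f) * N one := h1
      _ = (((p : ℝ) ^ 3) ^ d * N one) * M f := by ring
      _ ≤ (((p : ℝ) ^ 3) ^ d * N one + 1) * M f := by
          apply mul_le_mul_of_nonneg_right _ h2
          linarith

/-- Two disjoint closed subsets of the Grassmannian whose norms are both maximal. -/
theorem disjoint_main (hd : 1 ≤ d) (ψ : AddChar ℚ_[p] ℂ_[p])
    (hψ : IsOpen {t : ℚ_[p] | ψ t = 1}) (hψ1 : ψ ≠ 1) :
    ∃ I₁ I₂ : Set (Gr p d), I₁.Nonempty ∧ I₂.Nonempty ∧ IsClosed I₁ ∧ IsClosed I₂ ∧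
      Disjoint I₁ I₂ ∧ (∀ f, BddAbove (ValsOn ψ hψ I₁ f)) ∧ (∀ f, BddAbove (ValsOn ψ hψ I₂ f)) ∧
      IsNorm (normOn ψ hψ I₁) ∧ IsNorm (normOn ψ hψ I₂) ∧
      (∀ N : S p d → ℝ, IsSeminorm N → Invariant ψ hψ N →
        Dominates (normOn ψ hψ I₁) N ∧ Dominates (normOn ψ hψ I₂) N) := by
  obtain ⟨π, hπ, he⟩ := exists_std hψ hψ1
  have hp1 : (1 : ℝ) < p := by exact_mod_cast (Fact.out : p.Prime).one_lt
  have hmem : ∀ c0 : ℚ_[p], coset (⟨gcInv π (fun _ => c0), gcInv_mem hπ _⟩ : SpG p d) ∈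
      IC π (ballC p d c0) := by
    intro c0
    refine coset_mem_IC.2 ⟨_, ?_, CD_gcInv hπ _⟩
    intro i
    simp only [sub_self, norm_zero]
    positivity
  refine ⟨IC π (ballC p d 0), IC π (ballC p d 1), ⟨_, hmem 0⟩, ⟨_, hmem 1⟩,
    isClosed_IC π (isCompact_ballC 0), isClosed_IC π (isCompact_ballC 1), ?_,
    valsOn_bddAbove hψ1 _, valsOn_bddAbove hψ1 _,
    normOn_isNorm hψ1 (hmem 0) (intertwines_Tc hπ he _),
    normOn_isNorm hψ1 (hmem 1) (intertwines_Tc hπ he _), ?_⟩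
  · apply disjoint_IC hπ hd
    intro c hc c' hc' i heq
    have h1 := hc i
    have h2 := hc' i
    rw [sub_zero] at h1
    rw [← heq] at h2
    have h3 : ‖(1 : ℚ_[p])‖ ≤ ((p : ℝ) ^ 2)⁻¹ := by
      have : (1 : ℚ_[p]) = c i - (c i - 1) := by ring
      rw [this]
      exact (norm_sub_le_max' _ _).trans (max_le h1 h2)
    rw [norm_one] at h3
    have h4 : ((p : ℝ) ^ 2)⁻¹ < 1 := inv_lt_one_of_one_lt₀ (one_lt_pow₀ hp1 (by norm_num))
    linarith
  · intro N hN hinv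
    exact ⟨normOn_dominates hψ1 hπ he (by simp) hN hinv,
      normOn_dominates hψ1 hπ he (by simp) hN hinv⟩

end Pool.Agent.V11283.Heis.St
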