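import Mathlib
import Pool.Agent.V11283.Heis.Func

/-!
# Existence of one-dimensional functionals with small line sums
-/

namespace Pool.Agent.V11283.Heis

open scoped BigOperators

variable {p : ℕ} [hpp : Fact p.Prime] {K : Type*} [NormedField K] [IsUltrametricDist K]

/-- Vanishing conditions in the translation direction. -/
def Cond1 (e : AddChar ℚ_[p] K) (n k : ℕ) (x : Fin (p ^ n) × Fin (p ^ n) → K) : Prop :=
  ∀ κ < p ^ rr p k, ∀ α < p ^ (n - nn p k), ∀ β : Fin (p ^ n),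
    ∑ t ∈ Finset.range (p ^ nn p k), (e (1 / (p : ℚ_[p]) ^ nn p k)) ^ (κ * t) *
      Lam e n ((α : ℚ_[p]) / (p : ℚ_[p]) ^ n + (t : ℚ_[p]) / (p : ℚ_[p]) ^ nn p k)
        (((β : ℕ) : ℚ_[p]) / (p : ℚ_[p]) ^ n) x = 0

/-- Vanishing conditions in the modulation direction. -/
def Cond2 (e : AddChar ℚ_[p] K) (n k : ℕ) (x : Fin (p ^ n) × Fin (p ^ n) → K) : Prop :=
  ∀ κ < p ^ rr p k, ∀ β < p ^ (n - nn p k), ∀ α : Fin (p ^ n),
    ∑ t ∈ Finset.range (p ^ nn p k), (e (1 / (p : ℚ_[p]) ^ nn p k)) ^ (κ * t) *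
      (e ((((α : ℕ) : ℚ_[p]) / (p : ℚ_[p]) ^ n) * ((t : ℚ_[p]) / (p : ℚ_[p]) ^ nn p k)) *
      Lam e n (((α : ℕ) : ℚ_[p]) / (p : ℚ_[p]) ^ n)
        ((β : ℚ_[p]) / (p : ℚ_[p]) ^ n + (t : ℚ_[p]) / (p : ℚ_[p]) ^ nn p k) x) = 0

lemma decomp {n m : ℕ} (hmn : m ≤ n) (A : ℕ) :
    (A : ℚ_[p]) / (p : ℚ_[p]) ^ n = ((A % p ^ (n - m) : ℕ) : ℚ_[p]) / (p : ℚ_[p]) ^ n +
      ((A / p ^ (n - m) : ℕ) : ℚ_[p]) / (p : ℚ_[p]) ^ m := by
  have hpQ : (p : ℚ_[p]) ≠ 0 := by exact_mod_cast hpp.out.ne_zero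
  have h1 : (A : ℚ_[p]) = ((A % p ^ (n - m) : ℕ) : ℚ_[p]) +
      (p : ℚ_[p]) ^ (n - m) * ((A / p ^ (n - m) : ℕ) : ℚ_[p]) := by
    have := Nat.mod_add_div A (p ^ (n - m))
    have h2 : ((A % p ^ (n - m) + p ^ (n - m) * (A / p ^ (n - m)) : ℕ) : ℚ_[p]) = (A : ℚ_[p]) := by
      rw [this]
    rw [← h2]
    push_cast
    ring
  have h3 : (p : ℚ_[p]) ^ n = (p : ℚ_[p]) ^ (n - m) * (p : ℚ_[p]) ^ m := by
    rw [← pow_add]; congr 1; omega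
  conv_lhs => rw [h1]
  rw [add_div]
  congr 1
  rw [h3]
  field_simp

lemma norm_nat_div_le (t m : ℕ) : ‖(t : ℚ_[p]) / (p : ℚ_[p]) ^ m‖ ≤ (p : ℝ) ^ m := by
  rw [norm_div, norm_pow, Padic.norm_p, inv_pow, div_inv_eq_mul]
  apply mul_le_of_le_one_left (by positivity)
  exact Padic.norm_int_le_one (t : ℤ)

omit [IsUltrametricDist K] in
/-- Character values at multiples of an integral element. -/
lemma char_int_div {e : AddChar ℚ_[p] K} (he : StdChar e) {l : ℚ_[p]} (m : ℕ) {κ : ℕ}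
    (hκ : ‖l - (κ : ℚ_[p])‖ ≤ ((p : ℝ) ^ m)⁻¹) (t : ℕ) :
    e (l * ((t : ℚ_[p]) / (p : ℚ_[p]) ^ m)) = (e (1 / (p : ℚ_[p]) ^ m)) ^ (κ * t) := by
  rw [← AddChar.map_nsmul_eq_pow]
  apply he.congr
  have hpQ : (p : ℚ_[p]) ≠ 0 := by exact_mod_cast hpp.out.ne_zero
  have hp0 : (0 : ℝ) < p := by exact_mod_cast hpp.out.pos
  have h1 : l * ((t : ℚ_[p]) / (p : ℚ_[p]) ^ m) - (κ * t) • (1 / (p : ℚ_[p]) ^ m) =
      (l - (κ : ℚ_[p])) * ((t : ℚ_[p]) / (p : ℚ_[p]) ^ m) := by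
    rw [nsmul_eq_mul]; push_cast; ring
  rw [h1, norm_mul]
  calc ‖l - (κ : ℚ_[p])‖ * ‖(t : ℚ_[p]) / (p : ℚ_[p]) ^ m‖ ≤ ((p : ℝ) ^ m)⁻¹ * (p : ℝ) ^ m := by
        apply mul_le_mul hκ (norm_nat_div_le t m) (norm_nonneg _) (by positivity)
    _ = 1 := by field_simp

lemma exists_kappa (m : ℕ) {l : ℚ_[p]} (hl : ‖l‖ ≤ 1) :
    ∃ κ : ℕ, ‖l - (κ : ℚ_[p])‖ ≤ ((p : ℝ) ^ m)⁻¹ := by
  have h1 : ‖l‖ ≤ (p : ℝ) ^ 0 := by rwa [pow_zero]
  obtain ⟨κ, _, hκ⟩ := exists_nat_approx 0 m h1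
  rw [pow_zero, div_one] at hκ
  exact ⟨κ, hκ⟩

lemma ext1 (hp : ‖(p : K)‖ = (p : ℝ)⁻¹) {e : AddChar ℚ_[p] K} (he : StdChar e) {n k : ℕ}
    (hnk : nn p k ≤ n) (x : Fin (p ^ n) × Fin (p ^ n) → K) (hx : ∀ i, ‖x i‖ ≤ 1)
    (hc : Cond1 e n k x) (a b : ℚ_[p]) :
    ‖∑ t ∈ Finset.range (p ^ nn p k),
      Lam e n (a + (t : ℚ_[p]) / (p : ℚ_[p]) ^ nn p k) b x‖ ≤ ((p : ℝ)⁻¹) ^ k := by
  have hpQ : (p : ℚ_[p]) ≠ 0 := by exact_mod_cast hpp.out.ne_zero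
  have hp1 : (1 : ℝ) < p := by exact_mod_cast hpp.out.one_lt
  set m := nn p k with hm
  by_cases hab : ‖a‖ ≤ (p : ℝ) ^ n ∧ ‖b‖ ≤ (p : ℝ) ^ n
  · obtain ⟨ha, hb⟩ := hab
    set A : ℕ := (resF n a : ℕ) with hA
    set B : Fin (p ^ n) := resF n b with hB
    set l := a - (A : ℚ_[p]) / (p : ℚ_[p]) ^ n with hl
    set l' := b - ((B : ℕ) : ℚ_[p]) / (p : ℚ_[p]) ^ n with hl'
    have hl1 : ‖l‖ ≤ 1 := resF_spec n ha
    have hl1' : ‖l'‖ ≤ 1 := resF_spec n hb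
    set α := A % p ^ (n - m) with hα
    set s := A / p ^ (n - m) with hs
    have hαlt : α < p ^ (n - m) := Nat.mod_lt _ (pow_pos hpp.out.pos _)
    obtain ⟨κ, hκ⟩ := exists_kappa m (l := -l') (by rw [norm_neg]; exact hl1')
    set G : ℕ → K := fun t => Lam e n ((α : ℚ_[p]) / (p : ℚ_[p]) ^ n +
      (t : ℚ_[p]) / (p : ℚ_[p]) ^ m) (((B : ℕ) : ℚ_[p]) / (p : ℚ_[p]) ^ n) x with hG
    have hterm : ∀ t : ℕ, Lam e n (a + (t : ℚ_[p]) / (p : ℚ_[p]) ^ m) b x =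
        e (-l' * ((α : ℚ_[p]) / (p : ℚ_[p]) ^ n)) *
          ((e (1 / (p : ℚ_[p]) ^ m)) ^ (κ * (s + t)) * G (s + t)) := by
      intro t
      have e1 : a + (t : ℚ_[p]) / (p : ℚ_[p]) ^ m =
          ((α : ℚ_[p]) / (p : ℚ_[p]) ^ n + ((s + t : ℕ) : ℚ_[p]) / (p : ℚ_[p]) ^ m) + l := by
        have := decomp (p := p) hnk A
        rw [hl, this]
        push_cast
        ring
      have e2 : b = ((B : ℕ) : ℚ_[p]) / (p : ℚ_[p]) ^ n + l' := by rw [hl']; ring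
      rw [e1, Lam_rel1 he n _ _ _ hl1]
      conv_lhs => rw [e2]
      rw [Lam_rel2 n _ _ _ hl1', ← mul_assoc, ← char_int_div he m hκ (s + t),
        ← AddChar.map_add_eq_mul]
      congr 2
      ring
    rw [Finset.sum_congr rfl (fun t _ => hterm t)]
    apply small_aux hp he k G
    · intro t
      exact norm_Lam_le he n _ _ x hx
    · intro t
      show Lam e n _ _ x = Lam e n _ _ x
      have : (α : ℚ_[p]) / (p : ℚ_[p]) ^ n + ((t + p ^ m : ℕ) : ℚ_[p]) / (p : ℚ_[p]) ^ m =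
          ((α : ℚ_[p]) / (p : ℚ_[p]) ^ n + (t : ℚ_[p]) / (p : ℚ_[p]) ^ m) + 1 := by
        push_cast
        field_simp
        ring
      rw [this, Lam_rel1 he n _ _ _ (by simp)]
    · intro κ' hκ'
      exact hc κ' hκ' α hαlt B
    · exact he.norm_eq_one _
  · have hz : ∀ t : ℕ, Lam e n (a + (t : ℚ_[p]) / (p : ℚ_[p]) ^ m) b x = 0 := by
      intro t
      rw [Lam_apply, coef, if_neg, zero_mul]
      intro h
      apply hab
      refine ⟨?_, h.2⟩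
      refine (norm_add_unit_le_iff n ?_).1 h.1
      exact (norm_nat_div_le t m).trans (pow_le_pow_right₀ hp1.le hnk)
    rw [Finset.sum_eq_zero (fun t _ => hz t), norm_zero]
    positivity

lemma ext2 (hp : ‖(p : K)‖ = (p : ℝ)⁻¹) {e : AddChar ℚ_[p] K} (he : StdChar e) {n k : ℕ}
    (hnk : nn p k ≤ n) (x : Fin (p ^ n) × Fin (p ^ n) → K) (hx : ∀ i, ‖x i‖ ≤ 1)
    (hc : Cond2 e n k x) (a b : ℚ_[p]) :
    ‖∑ t ∈ Finset.range (p ^ nn p k), e (a * ((t : ℚ_[p]) / (p : ℚ_[p]) ^ nn p k)) *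
      Lam e n a (b + (t : ℚ_[p]) / (p : ℚ_[p]) ^ nn p k) x‖ ≤ ((p : ℝ)⁻¹) ^ k := by
  have hpQ : (p : ℚ_[p]) ≠ 0 := by exact_mod_cast hpp.out.ne_zero
  have hp1 : (1 : ℝ) < p := by exact_mod_cast hpp.out.one_lt
  set m := nn p k with hm
  by_cases hab : ‖a‖ ≤ (p : ℝ) ^ n ∧ ‖b‖ ≤ (p : ℝ) ^ n
  · obtain ⟨ha, hb⟩ := hab
    set A : Fin (p ^ n) := resF n a with hA
    set B : ℕ := (resF n b : ℕ) with hB
    set l := a - ((A : ℕ) : ℚ_[p]) / (p : ℚ_[p]) ^ n with hl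
    set l' := b - (B : ℚ_[p]) / (p : ℚ_[p]) ^ n with hl'
    have hl1 : ‖l‖ ≤ 1 := resF_spec n ha
    have hl1' : ‖l'‖ ≤ 1 := resF_spec n hb
    set β := B % p ^ (n - m) with hβ
    set s := B / p ^ (n - m) with hs
    have hβlt : β < p ^ (n - m) := Nat.mod_lt _ (pow_pos hpp.out.pos _)
    obtain ⟨κ, hκ⟩ := exists_kappa m hl1
    set A' : ℚ_[p] := ((A : ℕ) : ℚ_[p]) / (p : ℚ_[p]) ^ n with hA'
    set G : ℕ → K := fun t => e (A' * ((t : ℚ_[p]) / (p : ℚ_[p]) ^ m)) *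
      Lam e n A' ((β : ℚ_[p]) / (p : ℚ_[p]) ^ n + (t : ℚ_[p]) / (p : ℚ_[p]) ^ m) x with hG
    have hterm : ∀ t : ℕ, e (a * ((t : ℚ_[p]) / (p : ℚ_[p]) ^ m)) *
        Lam e n a (b + (t : ℚ_[p]) / (p : ℚ_[p]) ^ m) x =
        e (-(l' * A') - a * ((s : ℚ_[p]) / (p : ℚ_[p]) ^ m)) *
          ((e (1 / (p : ℚ_[p]) ^ m)) ^ (κ * (s + t)) * G (s + t)) := by
      intro t
      have e1 : b + (t : ℚ_[p]) / (p : ℚ_[p]) ^ m =
          ((β : ℚ_[p]) / (p : ℚ_[p]) ^ n + ((s + t : ℕ) : ℚ_[p]) / (p : ℚ_[p]) ^ m) + l' := by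
        have := decomp (p := p) hnk B
        rw [hl', this]
        push_cast
        ring
      have e2 : a = A' + l := by rw [hl]; ring
      rw [e1, Lam_rel2 n _ _ _ hl1']
      have e3 : Lam e n a ((β : ℚ_[p]) / (p : ℚ_[p]) ^ n +
          ((s + t : ℕ) : ℚ_[p]) / (p : ℚ_[p]) ^ m) x = Lam e n A' ((β : ℚ_[p]) / (p : ℚ_[p]) ^ n +
          ((s + t : ℕ) : ℚ_[p]) / (p : ℚ_[p]) ^ m) x := by
        conv_lhs => rw [e2]
        rw [Lam_rel1 he n _ _ _ hl1]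
      rw [e3, ← char_int_div he m hκ (s + t), hG]
      simp only
      rw [← mul_assoc, ← mul_assoc, ← mul_assoc, ← AddChar.map_add_eq_mul,
        ← AddChar.map_add_eq_mul, ← AddChar.map_add_eq_mul]
      congr 1
      apply he.congr
      have e4 : a * ((t : ℚ_[p]) / (p : ℚ_[p]) ^ m) + -(l' * a) -
          (-(l' * A') - a * ((s : ℚ_[p]) / (p : ℚ_[p]) ^ m) +
          l * (((s + t : ℕ) : ℚ_[p]) / (p : ℚ_[p]) ^ m) +
          A' * (((s + t : ℕ) : ℚ_[p]) / (p : ℚ_[p]) ^ m)) = -(l' * l) := by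
        rw [e2]
        push_cast
        ring
      rw [e4, norm_neg, norm_mul]
      exact mul_le_one₀ hl1' (norm_nonneg _) hl1
    rw [Finset.sum_congr rfl (fun t _ => hterm t)]
    apply small_aux hp he k G
    · intro t
      show ‖e _ * _‖ ≤ 1
      rw [norm_mul, he.norm_eq_one, one_mul]
      exact norm_Lam_le he n _ _ x hx
    · intro t
      show e _ * Lam e n _ _ x = e _ * Lam e n _ _ x
      have h1 : (β : ℚ_[p]) / (p : ℚ_[p]) ^ n + ((t + p ^ m : ℕ) : ℚ_[p]) / (p : ℚ_[p]) ^ m =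
          ((β : ℚ_[p]) / (p : ℚ_[p]) ^ n + (t : ℚ_[p]) / (p : ℚ_[p]) ^ m) + 1 := by
        push_cast
        field_simp
        ring
      rw [h1, Lam_rel2 n _ _ _ (by simp), ← mul_assoc, ← AddChar.map_add_eq_mul]
      congr 2
      push_cast
      field_simp
      ring
    · intro κ' hκ'
      exact hc κ' hκ' β hβlt A
    · exact he.norm_eq_one _
  · have hz : ∀ t : ℕ, e (a * ((t : ℚ_[p]) / (p : ℚ_[p]) ^ m)) *
        Lam e n a (b + (t : ℚ_[p]) / (p : ℚ_[p]) ^ m) x = 0 := by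
      intro t
      rw [Lam_apply, coef, if_neg, zero_mul, mul_zero]
      intro h
      apply hab
      refine ⟨h.1, ?_⟩
      refine (norm_add_unit_le_iff n ?_).1 h.2
      exact (norm_nat_div_le t m).trans (pow_le_pow_right₀ hp1.le hnk)
    rw [Finset.sum_eq_zero (fun t _ => hz t), norm_zero]
    positivity

end Pool.Agent.V11283.Heis
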