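import Mathlib
import Pool.Agent.V11283.Heis.Func2

/-!
# Existence of one-dimensional functionals with small line sums, part 2
-/

namespace Pool.Agent.V11283.Heis

open scoped BigOperators

variable {p : ℕ} [hpp : Fact p.Prime] {K : Type*} [NormedField K] [IsUltrametricDist K]

/-- Index type of the conditions at level `k`. -/
abbrev CondIdx (p n k : ℕ) : Type := Fin (p ^ rr p k) × Fin (p ^ (n - nn p k)) × Fin (p ^ n)

/-- The linear map collecting the conditions in the translation direction. -/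
noncomputable def condMap1 (e : AddChar ℚ_[p] K) (n k : ℕ) (i : CondIdx p n k) :
    (Fin (p ^ n) × Fin (p ^ n) → K) →ₗ[K] K :=
  ∑ t ∈ Finset.range (p ^ nn p k), (e (1 / (p : ℚ_[p]) ^ nn p k)) ^ ((i.1 : ℕ) * t) •
      Lam e n (((i.2.1 : ℕ) : ℚ_[p]) / (p : ℚ_[p]) ^ n + (t : ℚ_[p]) / (p : ℚ_[p]) ^ nn p k)
        (((i.2.2 : ℕ) : ℚ_[p]) / (p : ℚ_[p]) ^ n)

/-- The linear map collecting the conditions in the modulation direction. -/
noncomputable def condMap2 (e : AddChar ℚ_[p] K) (n k : ℕ) (i : CondIdx p n k) :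
    (Fin (p ^ n) × Fin (p ^ n) → K) →ₗ[K] K :=
  ∑ t ∈ Finset.range (p ^ nn p k), (e (1 / (p : ℚ_[p]) ^ nn p k)) ^ ((i.1 : ℕ) * t) •
    e ((((i.2.2 : ℕ) : ℚ_[p]) / (p : ℚ_[p]) ^ n) * ((t : ℚ_[p]) / (p : ℚ_[p]) ^ nn p k)) •
      Lam e n (((i.2.2 : ℕ) : ℚ_[p]) / (p : ℚ_[p]) ^ n)
        (((i.2.1 : ℕ) : ℚ_[p]) / (p : ℚ_[p]) ^ n + (t : ℚ_[p]) / (p : ℚ_[p]) ^ nn p k)

omit [IsUltrametricDist K] in
lemma cond1_of_map {e : AddChar ℚ_[p] K} {n k : ℕ} {x : Fin (p ^ n) × Fin (p ^ n) → K}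
    (h : ∀ i, condMap1 e n k i x = 0) : Cond1 e n k x := by
  intro κ hκ α hα β
  have := h (⟨κ, hκ⟩, ⟨α, hα⟩, β)
  rw [condMap1, LinearMap.sum_apply] at this
  exact this

omit [IsUltrametricDist K] in
lemma cond2_of_map {e : AddChar ℚ_[p] K} {n k : ℕ} {x : Fin (p ^ n) × Fin (p ^ n) → K}
    (h : ∀ i, condMap2 e n k i x = 0) : Cond2 e n k x := by
  intro κ hκ β hβ α
  have := h (⟨κ, hκ⟩, ⟨β, hβ⟩, α)
  rw [condMap2, LinearMap.sum_apply] at this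
  exact this

lemma count_aux (N M : ℕ) (hM : M + 1 ≤ N) :
    (∑ k ∈ Finset.range M, 2 * p ^ (N - (k + 2))) + p ^ (N - M) ≤ p ^ N := by
  have hp2 : 2 ≤ p := hpp.out.two_le
  induction M with
  | zero => simp
  | succ M ih =>
    have ih' := ih (by omega)
    rw [Finset.sum_range_succ]
    have h1 : p ^ (N - M) = p * p ^ (N - (M + 1)) := by
      rw [← pow_succ']; congr 1; omega
    have h2 : p ^ (N - (M + 1)) = p * p ^ (N - (M + 2)) := by
      rw [← pow_succ']; congr 1; omega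
    have h3 : 2 * p ^ (N - (M + 2)) + p ^ (N - (M + 1)) ≤ p ^ (N - M) := by
      rw [h1]
      have : 2 * p ^ (N - (M + 2)) ≤ p ^ (N - (M + 1)) := by
        rw [h2]
        exact Nat.mul_le_mul_right _ hp2
      calc 2 * p ^ (N - (M + 2)) + p ^ (N - (M + 1)) ≤ p ^ (N - (M + 1)) + p ^ (N - (M + 1)) := by
            omega
        _ = 2 * p ^ (N - (M + 1)) := by ring
        _ ≤ p * p ^ (N - (M + 1)) := Nat.mul_le_mul_right _ hp2
    omega

omit hpp in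
lemma card_cond (n k : ℕ) (h : nn p k ≤ n) :
    Fintype.card (CondIdx p n k) = p ^ (n + n - (k + 2)) := by
  rw [Fintype.card_prod, Fintype.card_prod, Fintype.card_fin, Fintype.card_fin, Fintype.card_fin,
    ← pow_add, ← pow_add]
  congr 1
  have : nn p k = rr p k + (k + 2) := rfl
  omega

omit [IsUltrametricDist K] in
theorem exists_block (e : AddChar ℚ_[p] K) (M : ℕ) :
    ∃ x : Fin (p ^ nn p M) × Fin (p ^ nn p M) → K, (∀ i, ‖x i‖ ≤ 1) ∧ (∃ i, ‖x i‖ = 1) ∧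
      (∀ k < M, Cond1 e (nn p M) k x) ∧ (∀ k < M, Cond2 e (nn p M) k x) := by
  classical
  set n := nn p M with hn
  set L : (Fin (p ^ n) × Fin (p ^ n) → K) →ₗ[K]
      ((Σ k : Fin M, CondIdx p n k ⊕ CondIdx p n k) → K) :=
    LinearMap.pi (fun i => match i with
      | ⟨k, Sum.inl i⟩ => condMap1 e n k i
      | ⟨k, Sum.inr i⟩ => condMap2 e n k i) with hL
  have hcard : Fintype.card (Σ k : Fin M, CondIdx p n k ⊕ CondIdx p n k) < p ^ (n + n) := by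
    rw [Fintype.card_sigma]
    have h1 : ∀ k : Fin M, Fintype.card (CondIdx p n k ⊕ CondIdx p n k) =
        2 * p ^ (n + n - ((k : ℕ) + 2)) := by
      intro k
      rw [Fintype.card_sum, card_cond n k (nn_mono k.2.le)]
      ring
    rw [Finset.sum_congr rfl (fun k _ => h1 k)]
    rw [Fin.sum_univ_eq_sum_range (fun k => 2 * p ^ (n + n - (k + 2))) M]
    have hM : M + 1 ≤ n + n := by
      have : n = rr p M + (M + 2) := rfl
      omega
    have h2 := count_aux (p := p) (n + n) M hM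
    have h3 : 0 < p ^ (n + n - M) := pow_pos hpp.out.pos _
    omega
  have hfin : Module.finrank K ((Σ k : Fin M, CondIdx p n k ⊕ CondIdx p n k) → K) <
      Module.finrank K (Fin (p ^ n) × Fin (p ^ n) → K) := by
    rw [Module.finrank_fintype_fun_eq_card, Module.finrank_fintype_fun_eq_card,
      Fintype.card_prod, Fintype.card_fin, ← pow_add]
    exact hcard
  have hker := LinearMap.ker_ne_bot_of_finrank_lt (f := L) hfin
  obtain ⟨y, hy, hy0⟩ := Submodule.exists_mem_ne_zero_of_ne_bot hker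
  rw [LinearMap.mem_ker] at hy
  -- normalise
  have : Nonempty (Fin (p ^ n) × Fin (p ^ n)) :=
    ⟨(⟨0, pow_pos hpp.out.pos n⟩, ⟨0, pow_pos hpp.out.pos n⟩)⟩
  obtain ⟨i0, hi0⟩ := Finite.exists_max (fun i => ‖y i‖)
  have hyi0 : y i0 ≠ 0 := by
    intro h0
    apply hy0
    funext i
    have := hi0 i
    rw [h0, norm_zero] at this
    exact norm_eq_zero.1 (le_antisymm this (norm_nonneg _))
  have hLx : L ((y i0)⁻¹ • y) = 0 := by rw [map_smul, hy, smul_zero]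
  refine ⟨(y i0)⁻¹ • y, ?_, ⟨i0, ?_⟩, ?_, ?_⟩
  · intro i
    rw [Pi.smul_apply, smul_eq_mul, norm_mul, norm_inv]
    rw [inv_mul_le_iff₀ (norm_pos_iff.2 hyi0), mul_one]
    exact hi0 i
  · rw [Pi.smul_apply, smul_eq_mul, inv_mul_cancel₀ hyi0, norm_one]
  · intro k hk
    apply cond1_of_map
    intro i
    exact congrFun hLx ⟨⟨k, hk⟩, Sum.inl i⟩
  · intro k hk
    apply cond2_of_map
    intro i
    exact congrFun hLx ⟨⟨k, hk⟩, Sum.inr i⟩

/-- One-dimensional functionals. -/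
theorem exists_Lambda (hp : ‖(p : K)‖ = (p : ℝ)⁻¹) {e : AddChar ℚ_[p] K} (he : StdChar e) (M : ℕ) :
    ∃ Λ : ℚ_[p] → ℚ_[p] → K,
      (∀ a b l, ‖l‖ ≤ 1 → Λ (a + l) b = Λ a b) ∧
      (∀ a b l, ‖l‖ ≤ 1 → Λ a (b + l) = e (-(l * a)) * Λ a b) ∧
      (∀ a b, ‖Λ a b‖ ≤ 1) ∧ (∃ a b, ‖Λ a b‖ = 1) ∧
      (∀ k < M, ∀ a b, ‖∑ t ∈ Finset.range (p ^ nn p k),
        Λ (a + (t : ℚ_[p]) / (p : ℚ_[p]) ^ nn p k) b‖ ≤ ((p : ℝ)⁻¹) ^ k) ∧
      (∀ k < M, ∀ a b, ‖∑ t ∈ Finset.range (p ^ nn p k),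
        e (a * ((t : ℚ_[p]) / (p : ℚ_[p]) ^ nn p k)) *
        Λ a (b + (t : ℚ_[p]) / (p : ℚ_[p]) ^ nn p k)‖ ≤ ((p : ℝ)⁻¹) ^ k) := by
  obtain ⟨x, hx1, ⟨i, hx2⟩, hx3, hx4⟩ := exists_block e M
  refine ⟨fun a b => Lam e (nn p M) a b x, ?_, ?_, ?_, ?_, ?_, ?_⟩
  · intro a b l hl
    exact Lam_rel1 he _ a b l hl x
  · intro a b l hl
    exact Lam_rel2 _ a b l hl x
  · intro a b
    exact norm_Lam_le he _ a b x hx1
  · refine ⟨(((i.1 : ℕ) : ℚ_[p]) / (p : ℚ_[p]) ^ nn p M),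
      (((i.2 : ℕ) : ℚ_[p]) / (p : ℚ_[p]) ^ nn p M), ?_⟩
    show ‖Lam e (nn p M) _ _ x‖ = 1
    rw [Lam_of_fin]
    exact hx2
  · intro k hk a b
    exact ext1 hp he (nn_mono hk.le) x hx1 (hx3 k hk) a b
  · intro k hk a b
    exact ext2 hp he (nn_mono hk.le) x hx1 (hx4 k hk) a b

end Pool.Agent.V11283.Heis
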