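import Mathlib
import Pool.Agent.V11283.Heis.Func3

/-!
# The invariant norm attached to a sequence of functionals
-/

namespace Pool.Agent.V11283.Heis

open scoped BigOperators

section Lim

variable {p : ℕ} [hpp : Fact p.Prime] {d : ℕ} {K : Type*} [NormedField K]

/-- The set of eventual bounds. -/
def limSet {e : AddChar ℚ_[p] K} (he : StdChar e) (lam : ℕ → (SB p d K →ₗ[K] K))
    (f : SB p d K) : Set ℝ :=
  {r | 0 ≤ r ∧ ∃ M0 : ℕ, ∀ M, M0 ≤ M → ∀ a b, ‖lam M (modu he b (trans a f))‖ ≤ r}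

/-- The eventual supremum over the Heisenberg orbit. -/
noncomputable def limN {e : AddChar ℚ_[p] K} (he : StdChar e) (lam : ℕ → (SB p d K →ₗ[K] K))
    (f : SB p d K) : ℝ := sInf (limSet he lam f)

variable {e : AddChar ℚ_[p] K} (he : StdChar e) {lam : ℕ → (SB p d K →ₗ[K] K)}

lemma limSet_bddBelow (f : SB p d K) : BddBelow (limSet he lam f) :=
  ⟨0, fun _ hr => hr.1⟩

lemma limSet_upward {f : SB p d K} {r r' : ℝ} (hr : r ∈ limSet he lam f) (h : r ≤ r') :
    r' ∈ limSet he lam f := by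
  obtain ⟨h0, M0, hM⟩ := hr
  exact ⟨h0.trans h, M0, fun M hM0 a b => (hM M hM0 a b).trans h⟩

lemma limN_le {f : SB p d K} {r : ℝ} (hr : r ∈ limSet he lam f) : limN he lam f ≤ r :=
  csInf_le (limSet_bddBelow he f) hr

variable [CharZero K] [IsUltrametricDist K]

lemma limSet_nonempty (hlam : ∀ M a b, ‖lam M (gen he a b)‖ ≤ 1) (f : SB p d K) :
    (limSet he lam f).Nonempty := by
  obtain ⟨C, hC0, hC⟩ := exists_repr_bound he f
  refine ⟨C, hC0, 0, fun M _ a b => ?_⟩
  have h1 := (Bas he).linearCombination_repr f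
  rw [Finsupp.linearCombination_apply, Finsupp.sum] at h1
  rw [← h1]
  simp only [map_sum, map_smul]
  apply IsUltrametricDist.norm_sum_le_of_forall_le_of_nonneg hC0
  intro w _
  rw [Bas_apply, trans_gen, map_smul, map_smul, modu_gen, norm_smul, norm_smul, he.norm_eq_one,
    one_mul]
  calc ‖(Bas he).repr f w‖ * ‖lam M (gen he (a + rep w.1) (b + rep w.2))‖ ≤ C * 1 :=
        mul_le_mul (hC w) (hlam _ _ _) (norm_nonneg _) hC0
    _ = C := mul_one C

omit [CharZero K] [IsUltrametricDist K] in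
lemma limSet_of_lt {f : SB p d K} (hne : (limSet he lam f).Nonempty) {r : ℝ}
    (h : limN he lam f < r) : r ∈ limSet he lam f := by
  obtain ⟨s, hs, hsr⟩ := exists_lt_of_csInf_lt hne h
  exact limSet_upward he hs hsr.le

theorem limN_isNASeminorm (hlam : ∀ M a b, ‖lam M (gen he a b)‖ ≤ 1) :
    IsNASeminorm (limN he lam) := by
  have hnonneg : ∀ f, 0 ≤ limN he lam f := fun f => Real.sInf_nonneg (fun r hr => hr.1)
  have hsm : ∀ (c : K) (f : SB p d K), limN he lam (c • f) ≤ ‖c‖ * limN he lam f := by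
    intro c f
    rcases eq_or_ne c 0 with rfl | hc
    · rw [zero_smul, norm_zero, zero_mul]
      apply limN_le
      refine ⟨le_refl 0, 0, fun M _ a b => ?_⟩
      rw [map_zero, map_zero, map_zero, norm_zero]
    · apply le_of_forall_gt
      intro s hs
      have hcpos : 0 < ‖c‖ := norm_pos_iff.2 hc
      have h1 : limN he lam f < s / ‖c‖ := by
        rw [lt_div_iff₀ hcpos, mul_comm]; exact hs
      obtain ⟨t, ht1, ht2⟩ := exists_between h1
      have h2 := limSet_of_lt he (limSet_nonempty he hlam f) ht1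
      have h3 : ‖c‖ * t ∈ limSet he lam (c • f) := by
        obtain ⟨h0, M0, hM⟩ := h2
        refine ⟨by positivity, M0, fun M hM0 a b => ?_⟩
        rw [map_smul, map_smul, map_smul, norm_smul]
        exact mul_le_mul_of_nonneg_left (hM M hM0 a b) (norm_nonneg _)
      refine lt_of_le_of_lt (limN_le he h3) ?_
      rw [lt_div_iff₀ hcpos, mul_comm] at ht2
      exact ht2
  refine ⟨hnonneg, ?_, ?_⟩
  · intro c f
    apply le_antisymm (hsm c f)
    rcases eq_or_ne c 0 with rfl | hc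
    · rw [norm_zero, zero_mul]; exact hnonneg _
    · have h1 := hsm c⁻¹ (c • f)
      rw [smul_smul, inv_mul_cancel₀ hc, one_smul, norm_inv] at h1
      rwa [le_inv_mul_iff₀ (norm_pos_iff.2 hc)] at h1
  · intro f g
    apply le_of_forall_gt
    intro s hs
    obtain ⟨t, ht1, ht2⟩ := exists_between hs
    have hf := limSet_of_lt he (limSet_nonempty he hlam f) ((le_max_left _ _).trans_lt ht1)
    have hg := limSet_of_lt he (limSet_nonempty he hlam g) ((le_max_right _ _).trans_lt ht1)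
    refine lt_of_le_of_lt (limN_le he ?_) ht2
    obtain ⟨h0, M1, hM1⟩ := hf
    obtain ⟨_, M2, hM2⟩ := hg
    refine ⟨h0, max M1 M2, fun M hM a b => ?_⟩
    rw [map_add, map_add, map_add]
    exact (IsUltrametricDist.norm_add_le_max _ _).trans
      (max_le (hM1 M (le_of_max_le_left hM) a b) (hM2 M (le_of_max_le_right hM) a b))

omit [CharZero K] [IsUltrametricDist K] in
lemma limSet_trans_subset (a0 : Fin d → ℚ_[p]) (f : SB p d K) :
    limSet he lam f ⊆ limSet he lam (trans a0 f) := by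
  rintro r ⟨h0, M0, hM⟩
  refine ⟨h0, M0, fun M hM0 a b => ?_⟩
  rw [trans_trans]
  exact hM M hM0 _ _

omit [CharZero K] [IsUltrametricDist K] in
lemma limSet_modu_subset (b0 : Fin d → ℚ_[p]) (f : SB p d K) :
    limSet he lam f ⊆ limSet he lam (modu he b0 f) := by
  rintro r ⟨h0, M0, hM⟩
  refine ⟨h0, M0, fun M hM0 a b => ?_⟩
  rw [trans_modu, map_smul, map_smul, modu_modu, norm_smul, he.norm_eq_one, one_mul]
  exact hM M hM0 _ _

omit [CharZero K] [IsUltrametricDist K] in
lemma limN_trans (a0 : Fin d → ℚ_[p]) (f : SB p d K) :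
    limN he lam (trans a0 f) = limN he lam f := by
  unfold limN
  congr 1
  apply Set.Subset.antisymm
  · have := limSet_trans_subset he (lam := lam) (-a0) (trans a0 f)
    rw [trans_trans, neg_add_cancel, trans_zero] at this
    exact this
  · exact limSet_trans_subset he a0 f

omit [CharZero K] [IsUltrametricDist K] in
lemma limN_modu (b0 : Fin d → ℚ_[p]) (f : SB p d K) :
    limN he lam (modu he b0 f) = limN he lam f := by
  unfold limN
  congr 1
  apply Set.Subset.antisymm
  · have := limSet_modu_subset he (lam := lam) (-b0) (modu he b0 f)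
    rw [modu_modu, neg_add_cancel, modu_zero] at this
    exact this
  · exact limSet_modu_subset he b0 f

omit [IsUltrametricDist K] [CharZero K] in
lemma limN_v0 (hne : (limSet he lam v0).Nonempty)
    (h1 : ∀ M, ∃ a b, ‖lam M (gen he a b)‖ = 1) : 1 ≤ limN he lam v0 := by
  apply le_csInf hne
  rintro r ⟨_, M0, hM⟩
  obtain ⟨a, b, hab⟩ := h1 M0
  have := hM M0 le_rfl a b
  rw [← hab]
  exact this

end Lim

section Multi

variable {p : ℕ} [hpp : Fact p.Prime] {d : ℕ} {K : Type*} [NormedField K] [IsUltrametricDist K]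
  [CharZero K]

/-- The vector with one nonzero coordinate. -/
noncomputable def sgl (i : Fin d) (c : ℚ_[p]) : Fin d → ℚ_[p] := Pi.single i c

omit hpp in
lemma sgl_def [Fact p.Prime] (i : Fin d) (c : ℚ_[p]) :
    sgl i c = (Pi.single i c : Fin d → ℚ_[p]) := rfl

omit [IsUltrametricDist K] [CharZero K] in
lemma prod_update_aux (Λ : ℚ_[p] → ℚ_[p] → K) (i : Fin d) (a b : Fin d → ℚ_[p]) (c : ℚ_[p]) :
    ∏ j, Λ ((a + sgl i c) j) (b j) =
      Λ (a i + c) (b i) * ∏ j ∈ Finset.univ.erase i, Λ (a j) (b j) := by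
  rw [← Finset.mul_prod_erase Finset.univ _ (Finset.mem_univ i)]
  congr 1
  · simp [sgl]
  · apply Finset.prod_congr rfl
    intro j hj
    have : j ≠ i := Finset.ne_of_mem_erase hj
    simp [this, sgl]

omit [IsUltrametricDist K] [CharZero K] in
lemma prod_update_aux' (Λ : ℚ_[p] → ℚ_[p] → K) (i : Fin d) (a b : Fin d → ℚ_[p]) (c : ℚ_[p]) :
    ∏ j, Λ (a j) ((b + sgl i c) j) =
      Λ (a i) (b i + c) * ∏ j ∈ Finset.univ.erase i, Λ (a j) (b j) := by
  rw [← Finset.mul_prod_erase Finset.univ _ (Finset.mem_univ i)]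
  congr 1
  · simp [sgl]
  · apply Finset.prod_congr rfl
    intro j hj
    have : j ≠ i := Finset.ne_of_mem_erase hj
    simp [this, sgl]

/-- Multi-dimensional functionals. -/
theorem exists_functional (hp : ‖(p : K)‖ = (p : ℝ)⁻¹) {e : AddChar ℚ_[p] K} (he : StdChar e)
    (M : ℕ) : ∃ lam : SB p d K →ₗ[K] K,
      (∀ a b, ‖lam (gen he a b)‖ ≤ 1) ∧ (∃ a b, ‖lam (gen he a b)‖ = 1) ∧
      (∀ k < M, ∀ (i : Fin d) a b, ‖∑ t ∈ Finset.range (p ^ nn p k),
        lam (gen he (a + sgl i ((t : ℚ_[p]) / (p : ℚ_[p]) ^ nn p k)) b)‖ ≤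
          ((p : ℝ)⁻¹) ^ k) ∧
      (∀ k < M, ∀ (i : Fin d) a b, ‖∑ t ∈ Finset.range (p ^ nn p k),
        e (a i * ((t : ℚ_[p]) / (p : ℚ_[p]) ^ nn p k)) *
        lam (gen he a (b + sgl i ((t : ℚ_[p]) / (p : ℚ_[p]) ^ nn p k)))‖ ≤
          ((p : ℝ)⁻¹) ^ k) := by
  obtain ⟨Λ, h1, h2, h3, ⟨a0, b0, h4⟩, h5, h6⟩ := exists_Lambda hp he M
  obtain ⟨L, hL⟩ := exists_lift he (M := K) (d := d)
    (fun a b => ∏ i, Λ (a i) (b i))
    (by
      intro a b l hl
      apply Finset.prod_congr rfl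
      intro i _
      exact h1 _ _ _ (hl i))
    (by
      intro a b l hl
      rw [smul_eq_mul, dotProduct, ← Finset.sum_neg_distrib, map_sum_prod,
        ← Finset.prod_mul_distrib]
      apply Finset.prod_congr rfl
      intro i _
      exact h2 _ _ _ (hl i))
  have hprod : ∀ (s : Finset (Fin d)) (a b : Fin d → ℚ_[p]),
      ‖∏ j ∈ s, Λ (a j) (b j)‖ ≤ 1 := by
    intro s a b
    rw [norm_prod]
    exact Finset.prod_le_one (fun _ _ => norm_nonneg _) (fun _ _ => h3 _ _)
  refine ⟨L, ?_, ?_, ?_, ?_⟩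
  · intro a b
    rw [hL]
    exact hprod _ _ _
  · refine ⟨fun _ => a0, fun _ => b0, ?_⟩
    rw [hL, norm_prod]
    simp [h4]
  · intro k hk i a b
    simp_rw [hL, prod_update_aux]
    rw [← Finset.sum_mul, norm_mul]
    calc _ ≤ ((p : ℝ)⁻¹) ^ k * 1 :=
          mul_le_mul (h5 k hk _ _) (hprod _ _ _) (norm_nonneg _) (by positivity)
      _ = ((p : ℝ)⁻¹) ^ k := mul_one _
  · intro k hk i a b
    simp_rw [hL, prod_update_aux', ← mul_assoc]
    rw [← Finset.sum_mul, norm_mul]
    calc _ ≤ ((p : ℝ)⁻¹) ^ k * 1 :=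
          mul_le_mul (h6 k hk _ _) (hprod _ _ _) (norm_nonneg _) (by positivity)
      _ = ((p : ℝ)⁻¹) ^ k := mul_one _

/-- Averages of `v0` in the translation direction. -/
noncomputable def Ptr (i : Fin d) (n : ℕ) : SB p d K :=
  ∑ t ∈ Finset.range (p ^ n), trans (sgl i ((t : ℚ_[p]) / (p : ℚ_[p]) ^ n)) v0

/-- Averages of `v0` in the modulation direction. -/
noncomputable def Pmo {e : AddChar ℚ_[p] K} (he : StdChar e) (i : Fin d) (n : ℕ) : SB p d K :=
  ∑ t ∈ Finset.range (p ^ n), modu he (sgl i ((t : ℚ_[p]) / (p : ℚ_[p]) ^ n)) v0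

/-- The exotic norm. -/
theorem exists_exotic (hp : ‖(p : K)‖ = (p : ℝ)⁻¹) {e : AddChar ℚ_[p] K} (he : StdChar e) :
    ∃ N : SB p d K → ℝ, IsNANorm N ∧ (∀ a f, N (trans a f) = N f) ∧
      (∀ b f, N (modu he b f) = N f) ∧
      (∀ i k, N (Ptr i (nn p k)) ≤ ((p : ℝ)⁻¹) ^ k) ∧
      (∀ i k, N (Pmo he i (nn p k)) ≤ ((p : ℝ)⁻¹) ^ k) := by
  choose lam h1 h2 h3 h4 using fun M => exists_functional (d := d) hp he M
  have hS := limN_isNASeminorm he h1
  refine ⟨limN he lam, ⟨hS, ?_⟩, limN_trans he, limN_modu he, ?_, ?_⟩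
  · intro f hf
    refine hS.eq_zero_of_inv he (limN_trans he) (limN_modu he) ?_ hf
    have := limN_v0 he (limSet_nonempty he h1 v0) h2
    intro h0
    rw [h0] at this
    norm_num at this
  · intro i k
    apply limN_le
    refine ⟨by positivity, k + 1, fun M hM a b => ?_⟩
    have h := h3 M k (by omega) i a b
    have h' : lam M (modu he b (trans a (Ptr i (nn p k)))) =
        ∑ t ∈ Finset.range (p ^ nn p k),
        lam M (gen he (a + sgl i ((t : ℚ_[p]) / (p : ℚ_[p]) ^ nn p k)) b) := by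
      rw [Ptr]
      simp only [map_sum]
      apply Finset.sum_congr rfl
      intro t _
      rw [trans_trans, gen]
    rw [h']
    exact h
  · intro i k
    apply limN_le
    refine ⟨by positivity, k + 1, fun M hM a b => ?_⟩
    have h := h4 M k (by omega) i a b
    have h' : lam M (modu he b (trans a (Pmo he i (nn p k)))) =
        ∑ t ∈ Finset.range (p ^ nn p k),
        e (a i * ((t : ℚ_[p]) / (p : ℚ_[p]) ^ nn p k)) *
        lam M (gen he a (b + sgl i ((t : ℚ_[p]) / (p : ℚ_[p]) ^ nn p k))) := by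
      rw [Pmo]
      simp only [map_sum]
      apply Finset.sum_congr rfl
      intro t _
      rw [trans_modu, map_smul, map_smul, modu_modu, smul_eq_mul, gen, sgl, single_dotProduct, mul_comm
        (a i)]
    rw [h']
    exact h

end Multi

end Pool.Agent.V11283.Heis
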