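import Mathlib
import Pool.Agent.V11283.Heis.Rho
import Pool.Agent.V11283.Heis.Lim

/-!
# The exotic norm dominates no norm of the Grassmannian
-/

namespace Pool.Agent.V11283.Heis

open scoped BigOperators

variable {p : ℕ} [hpp : Fact p.Prime] {d : ℕ} {K : Type*} [NormedField K] [CharZero K]

/-- Averages along a one-parameter subgroup. -/
noncomputable def Av (ψ : AddChar ℚ_[p] K) (hψ : IsOpen {t : ℚ_[p] | ψ t = 1})
    (w : Fin d ⊕ Fin d → ℚ_[p]) (φ : SB p d K) (n : ℕ) : SB p d K :=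
  ∑ t ∈ Finset.range (p ^ n), rho ψ hψ (((t : ℚ_[p]) / (p : ℚ_[p]) ^ n) • w) 0 φ

omit [CharZero K] in
lemma Av_apply (ψ : AddChar ℚ_[p] K) (hψ : IsOpen {t : ℚ_[p] | ψ t = 1})
    (w : Fin d ⊕ Fin d → ℚ_[p]) (φ : SB p d K) (n : ℕ) (x : Fin d → ℚ_[p]) :
    (Av ψ hψ w φ n).1 x =
      ∑ t ∈ Finset.range (p ^ n), (rho ψ hψ (((t : ℚ_[p]) / (p : ℚ_[p]) ^ n) • w) 0 φ).1 x := by
  rw [Av, Submodule.coe_sum, Finset.sum_apply]

omit [CharZero K] in
lemma Av_invariant {ψ : AddChar ℚ_[p] K} (hψ : IsOpen {t : ℚ_[p] | ψ t = 1})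
    {w : Fin d ⊕ Fin d → ℚ_[p]} {φ : SB p d K} (hper : rho ψ hψ w 0 φ = φ) (n s : ℕ) :
    rho ψ hψ (((s : ℚ_[p]) / (p : ℚ_[p]) ^ n) • w) 0 (Av ψ hψ w φ n) = Av ψ hψ w φ n := by
  have hpQ : (p : ℚ_[p]) ≠ 0 := by exact_mod_cast hpp.out.ne_zero
  rw [Av, map_sum]
  have h1 : ∀ t : ℕ, rho ψ hψ (((s : ℚ_[p]) / (p : ℚ_[p]) ^ n) • w) 0
      (rho ψ hψ (((t : ℚ_[p]) / (p : ℚ_[p]) ^ n) • w) 0 φ) =
      rho ψ hψ ((((s + t : ℕ) : ℚ_[p]) / (p : ℚ_[p]) ^ n) • w) 0 φ := by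
    intro t
    rw [rho_rho]
    congr 3
    push_cast
    ring
  rw [Finset.sum_congr rfl (fun t _ => h1 t)]
  apply sum_shift (p ^ n) (fun t => rho ψ hψ (((t : ℚ_[p]) / (p : ℚ_[p]) ^ n) • w) 0 φ)
  intro t
  have h2 : (((t + p ^ n : ℕ) : ℚ_[p]) / (p : ℚ_[p]) ^ n) = (t : ℚ_[p]) / (p : ℚ_[p]) ^ n + 1 := by
    push_cast
    field_simp
  rw [h2, ← rho_rho, one_smul, hper]

omit [CharZero K] in
/-- The averages along a direction with nonzero translation part do not tend to zero. -/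
theorem Av_not_small {ψ : AddChar ℚ_[p] K} (hψ : IsOpen {t : ℚ_[p] | ψ t = 1})
    {w : Fin d ⊕ Fin d → ℚ_[p]} {i0 : Fin d} (hw : w (Sum.inl i0) ≠ 0) {φ : SB p d K}
    (hper : rho ψ hψ w 0 φ = φ) (hne : ∀ n, Av ψ hψ w φ n ≠ 0) :
    ∃ δ > 0, ∃ n0, ∀ n, n0 ≤ n → δ ≤ supNorm (Av ψ hψ w φ n) := by
  have hpQ : (p : ℚ_[p]) ≠ 0 := by exact_mod_cast hpp.out.ne_zero
  have hp1 : (1 : ℝ) < p := by exact_mod_cast hpp.out.one_lt
  have hp0 : (0 : ℝ) < p := by linarith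
  obtain ⟨R, hR, _⟩ := exists_uniform φ
  have hwpos : 0 < ‖w (Sum.inl i0)‖ := norm_pos_iff.2 hw
  obtain ⟨n0, hn0⟩ := exists_pow_ge (p := p) ((p : ℝ) ^ R / ‖w (Sum.inl i0)‖)
  -- a point of nonvanishing in the big ball
  obtain ⟨x1, hx1⟩ : ∃ x1, (Av ψ hψ w φ n0).1 x1 ≠ 0 := by
    by_contra hcon
    push Not at hcon
    exact hne n0 (Subtype.ext (funext hcon))
  obtain ⟨t, _, ht⟩ : ∃ t ∈ Finset.range (p ^ n0),
      (rho ψ hψ (((t : ℚ_[p]) / (p : ℚ_[p]) ^ n0) • w) 0 φ).1 x1 ≠ 0 := by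
    rw [Av_apply] at hx1
    exact Finset.exists_ne_zero_of_sum_ne_zero hx1
  set x0 : Fin d → ℚ_[p] := x1 + wa (((t : ℚ_[p]) / (p : ℚ_[p]) ^ n0) • w) with hx0
  have hφx0 : φ.1 x0 ≠ 0 := by
    rw [rho_apply] at ht
    exact right_ne_zero_of_mul ht
  have hx0R : ‖x0 i0‖ ≤ (p : ℝ) ^ R := by
    by_contra hcon
    push Not at hcon
    exact hφx0 (hR x0 ⟨i0, hcon⟩)
  have hF0 : (Av ψ hψ w φ n0).1 x0 ≠ 0 := by
    have h1 := Av_invariant hψ hper n0 t
    rw [← h1, rho_apply] at hx1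
    exact right_ne_zero_of_mul hx1
  refine ⟨‖(Av ψ hψ w φ n0).1 x0‖, norm_pos_iff.2 hF0, n0, fun n hn => ?_⟩
  have hstab : (Av ψ hψ w φ n).1 x0 = (Av ψ hψ w φ n0).1 x0 := by
    rw [Av_apply, Av_apply]
    symm
    apply Finset.sum_of_injOn (fun t => t * p ^ (n - n0))
    · intro a _ b _ hab
      exact Nat.eq_of_mul_eq_mul_right (pow_pos hpp.out.pos _) hab
    · intro a ha
      rw [Finset.mem_coe, Finset.mem_range] at ha ⊢
      have : p ^ n = p ^ n0 * p ^ (n - n0) := by rw [← pow_add]; congr 1; omega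
      rw [this]
      exact Nat.mul_lt_mul_of_pos_right ha (pow_pos hpp.out.pos _)
    · intro j hj hj'
      by_contra hcon
      apply hj'
      rw [rho_apply] at hcon
      have h2 := right_ne_zero_of_mul hcon
      have h3 : ‖(x0 + wa (((j : ℚ_[p]) / (p : ℚ_[p]) ^ n) • w)) i0‖ ≤ (p : ℝ) ^ R := by
        by_contra hcon2
        push Not at hcon2
        exact h2 (hR _ ⟨i0, hcon2⟩)
      have h4 : ‖((j : ℚ_[p]) / (p : ℚ_[p]) ^ n) * w (Sum.inl i0)‖ ≤ (p : ℝ) ^ R := by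
        have : ((j : ℚ_[p]) / (p : ℚ_[p]) ^ n) * w (Sum.inl i0) =
          (x0 + wa (((j : ℚ_[p]) / (p : ℚ_[p]) ^ n) • w)) i0 - x0 i0 := by
          simp [wa]
        rw [this]
        exact (norm_sub_le_max' _ _).trans (max_le h3 hx0R)
      rw [norm_mul, ← le_div_iff₀ hwpos] at h4
      have h5 : ‖(j : ℚ_[p]) / (p : ℚ_[p]) ^ n‖ ≤ (p : ℝ) ^ n0 := h4.trans hn0
      rw [norm_div, norm_pow, Padic.norm_p, inv_pow, div_inv_eq_mul] at h5
      have h6 : ‖((j : ℤ) : ℚ_[p])‖ ≤ (p : ℝ) ^ (-((n - n0 : ℕ) : ℤ)) := by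
        rw [zpow_neg, zpow_natCast, Int.cast_natCast]
        have h7 : (p : ℝ) ^ n = (p : ℝ) ^ n0 * (p : ℝ) ^ (n - n0) := by
          rw [← pow_add]; congr 1; omega
        rw [h7] at h5
        rw [← one_div, le_div_iff₀ (pow_pos hp0 _)]
        have h8 : (0 : ℝ) < (p : ℝ) ^ n0 := pow_pos hp0 _
        have h9 : (p : ℝ) ^ n0 * (‖(j : ℚ_[p])‖ * (p : ℝ) ^ (n - n0)) ≤ (p : ℝ) ^ n0 * 1 := by
          calc (p : ℝ) ^ n0 * (‖(j : ℚ_[p])‖ * (p : ℝ) ^ (n - n0)) =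
              ‖(j : ℚ_[p])‖ * ((p : ℝ) ^ n0 * (p : ℝ) ^ (n - n0)) := by ring
            _ ≤ _ := by rw [mul_one]; exact h5
        exact le_of_mul_le_mul_left h9 h8
      rw [Padic.norm_int_le_pow_iff_dvd] at h6
      have h10 : p ^ (n - n0) ∣ j := by exact_mod_cast h6
      obtain ⟨j', rfl⟩ := h10
      refine ⟨j', ?_, ?_⟩
      · rw [Finset.mem_coe, Finset.mem_range]
        rw [Finset.mem_range] at hj
        have : p ^ n = p ^ (n - n0) * p ^ n0 := by rw [← pow_add]; congr 1; omega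
        rw [this] at hj
        exact lt_of_mul_lt_mul_left hj (Nat.zero_le _)
      · show j' * p ^ (n - n0) = p ^ (n - n0) * j'
        ring
    · intro j _
      have : ((j * p ^ (n - n0) : ℕ) : ℚ_[p]) / (p : ℚ_[p]) ^ n =
          (j : ℚ_[p]) / (p : ℚ_[p]) ^ n0 := by
        have h7 : (p : ℚ_[p]) ^ n = (p : ℚ_[p]) ^ n0 * (p : ℚ_[p]) ^ (n - n0) := by
          rw [← pow_add]; congr 1; omega
        rw [h7]
        push_cast
        field_simp
      rw [this]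
  rw [← hstab]
  exact norm_le_supNorm _ _

lemma Av_ne_zero_tr (i : Fin d) (n : ℕ) : (Ptr i n : SB p d K) ≠ 0 := by
  classical
  intro h
  have h1 : (Ptr i n : SB p d K).1 0 = 0 := by rw [h]; rfl
  rw [Ptr, Submodule.coe_sum, Finset.sum_apply] at h1
  have h2 : ∀ t : ℕ, (trans (sgl i ((t : ℚ_[p]) / (p : ℚ_[p]) ^ n)) (v0 : SB p d K)).1 0 =
      ((if (sgl i ((t : ℚ_[p]) / (p : ℚ_[p]) ^ n)) ∈ Zpd p d then 1 else 0 : ℕ) : K) := by
    intro t
    rw [trans_apply, zero_add]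
    split_ifs with h
    · rw [v0_apply_of_mem h]; simp
    · rw [v0_apply_of_notMem h]; simp
  rw [Finset.sum_congr rfl (fun t _ => h2 t), ← Nat.cast_sum] at h1
  have h3 := Nat.cast_eq_zero.1 h1
  rw [Finset.sum_eq_zero_iff] at h3
  have h4 := h3 0 (Finset.mem_range.2 (pow_pos hpp.out.pos n))
  rw [if_pos] at h4
  · exact one_ne_zero h4
  · intro j
    simp [sgl]

lemma Av_ne_zero_mo {e : AddChar ℚ_[p] K} (he : StdChar e) (i : Fin d) (n : ℕ) :
    (Pmo he i n : SB p d K) ≠ 0 := by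
  intro h
  have h1 : (Pmo he i n : SB p d K).1 0 = 0 := by rw [h]; rfl
  rw [Pmo, Submodule.coe_sum, Finset.sum_apply] at h1
  have h2 : ∀ t : ℕ, (modu he (sgl i ((t : ℚ_[p]) / (p : ℚ_[p]) ^ n)) (v0 : SB p d K)).1 0 = 1 := by
    intro t
    rw [modu_apply, dotProduct_zero, AddChar.map_zero_eq_one, one_mul, v0_apply_of_mem Zpd_zero]
  rw [Finset.sum_congr rfl (fun t _ => h2 t)] at h1
  simp at h1
  exact hpp.out.ne_zero h1.1

/-- Main result over a general complete field. -/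
theorem exotic_main [IsUltrametricDist K] (hp : ‖(p : K)‖ = (p : ℝ)⁻¹) (hd : 1 ≤ d)
    (ψ : AddChar ℚ_[p] K) (hψ : IsOpen {t : ℚ_[p] | ψ t = 1}) (hψ1 : ψ ≠ 1) :
    ∃ N : SB p d K → ℝ, IsNANorm N ∧ (∀ w t f, N (rho ψ hψ w t f) = N f) ∧
      ∀ g ∈ Matrix.symplecticGroup (Fin d) ℚ_[p], ∀ T : SB p d K ≃ₗ[K] SB p d K,
        (∀ w t f, rho ψ hψ w t (T f) = T (rho ψ hψ (Matrix.vecMul w g) t f)) →
        ¬ ∃ c : ℝ, 0 < c ∧ ∀ f, grNorm T f ≤ c * N f := by
  classical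
  have hpQ : (p : ℚ_[p]) ≠ 0 := by exact_mod_cast hpp.out.ne_zero
  have hp1 : (1 : ℝ) < p := by exact_mod_cast hpp.out.one_lt
  obtain ⟨π, hπ, he⟩ := exists_std hψ hψ1
  obtain ⟨N, hN, hNtr, hNmo, hN1, hN2⟩ := exists_exotic (d := d) hp he
  have hψn : ∀ t : ℚ_[p], ‖ψ t‖ = 1 := by
    intro t
    have := he.norm_eq_one (π⁻¹ * t)
    rwa [scale_apply, mul_inv_cancel_left₀ hπ] at this
  refine ⟨N, hN, ?_, ?_⟩
  · intro w t f
    rw [rho_eq hψ hπ he, hN.smul, hψn, one_mul, hNmo, hNtr]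
  intro g hg T hT
  rintro ⟨c, hc, hdom⟩
  -- inverse matrix
  have hdet : IsUnit g.det := SymplecticGroup.symplectic_det hg
  set h := g⁻¹ with hh
  have hhg : h * g = 1 := Matrix.nonsing_inv_mul g hdet
  have hgh : g * h = 1 := Matrix.mul_nonsing_inv g hdet
  set i0 : Fin d := ⟨0, hd⟩ with hi0
  obtain ⟨r, hr⟩ : ∃ r, h r (Sum.inl i0) ≠ 0 := by
    by_contra hcon
    push Not at hcon
    have h1 : (g * h) (Sum.inl i0) (Sum.inl i0) = 1 := by rw [hgh, Matrix.one_apply_eq]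
    rw [Matrix.mul_apply] at h1
    simp [hcon] at h1
  -- the direction and its averages
  obtain ⟨u, cr, hcr, hu, P, hP1, hPne, hPN⟩ : ∃ (u : Fin d ⊕ Fin d → ℚ_[p]) (cr : ℚ_[p]),
      cr ≠ 0 ∧ u = Pi.single r cr ∧ ∃ P : ℕ → SB p d K,
      (∀ n, P n = ∑ t ∈ Finset.range (p ^ n),
        rho ψ hψ (((t : ℚ_[p]) / (p : ℚ_[p]) ^ n) • u) 0 v0) ∧
      (∀ n, P n ≠ 0) ∧ (∀ k, N (P (nn p k)) ≤ ((p : ℝ)⁻¹) ^ k) ∧ rho ψ hψ u 0 v0 = v0 := by
    rcases r with i | i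
    · refine ⟨Pi.single (Sum.inl i) 1, 1, one_ne_zero, rfl, fun n => Ptr i n, ?_, ?_, ?_, ?_⟩
      · intro n
        show Ptr i n = _
        rw [Ptr]
        apply Finset.sum_congr rfl
        intro t _
        rw [rho_eq hψ hπ he]
        have e1 : wa ((((t : ℚ_[p]) / (p : ℚ_[p]) ^ n)) •
            (Pi.single (Sum.inl i) 1 : Fin d ⊕ Fin d → ℚ_[p])) =
            sgl i ((t : ℚ_[p]) / (p : ℚ_[p]) ^ n) := by
          funext j
          by_cases hj : j = i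
          · subst hj; simp [wa, sgl]
          · simp [wa, sgl, hj]
        have e2 : wb ((((t : ℚ_[p]) / (p : ℚ_[p]) ^ n)) •
            (Pi.single (Sum.inl i) 1 : Fin d ⊕ Fin d → ℚ_[p])) = 0 := by
          funext j
          simp [wb]
        rw [e1, e2, dotProduct_zero, mul_zero, add_zero, AddChar.map_zero_eq_one, one_smul,
          smul_zero, modu_zero]
      · intro n; exact Av_ne_zero_tr i n
      · intro k; exact hN1 i k
      · rw [rho_eq hψ hπ he]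
        have e1 : wa (Pi.single (Sum.inl i) 1 : Fin d ⊕ Fin d → ℚ_[p]) ∈ Zpd p d := by
          intro j
          by_cases hj : j = i
          · subst hj; simp [wa]
          · simp [wa, hj]
        have e2 : wb (Pi.single (Sum.inl i) 1 : Fin d ⊕ Fin d → ℚ_[p]) = 0 := by
          funext j
          simp [wb]
        rw [e2, dotProduct_zero, mul_zero, add_zero, AddChar.map_zero_eq_one, one_smul,
          smul_zero, modu_zero, trans_v0 e1]
    · refine ⟨Pi.single (Sum.inr i) π, π, hπ, rfl, fun n => Pmo he i n, ?_, ?_, ?_, ?_⟩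
      · intro n
        show Pmo he i n = _
        rw [Pmo]
        apply Finset.sum_congr rfl
        intro t _
        rw [rho_eq hψ hπ he]
        have e1 : wa ((((t : ℚ_[p]) / (p : ℚ_[p]) ^ n)) •
            (Pi.single (Sum.inr i) π : Fin d ⊕ Fin d → ℚ_[p])) = 0 := by
          funext j
          simp [wa]
        have e2 : π⁻¹ • wb ((((t : ℚ_[p]) / (p : ℚ_[p]) ^ n)) •
            (Pi.single (Sum.inr i) π : Fin d ⊕ Fin d → ℚ_[p])) =
            sgl i ((t : ℚ_[p]) / (p : ℚ_[p]) ^ n) := by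
          funext j
          by_cases hj : j = i
          · subst hj
            simp only [wb, sgl, Pi.smul_apply, Pi.single_eq_same, smul_eq_mul]
            field_simp
          · simp [wb, sgl, hj]
        rw [e1, e2, zero_dotProduct, mul_zero, add_zero, AddChar.map_zero_eq_one, one_smul,
          trans_zero]
      · intro n; exact Av_ne_zero_mo he i n
      · intro k; exact hN2 i k
      · rw [rho_eq hψ hπ he]
        have e1 : wa (Pi.single (Sum.inr i) π : Fin d ⊕ Fin d → ℚ_[p]) = 0 := by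
          funext j
          simp [wa]
        have e2 : π⁻¹ • wb (Pi.single (Sum.inr i) π : Fin d ⊕ Fin d → ℚ_[p]) ∈ Zpd p d := by
          intro j
          by_cases hj : j = i
          · subst hj; simp [wb, hπ]
          · simp [wb, hj]
        rw [e1, zero_dotProduct, mul_zero, add_zero, AddChar.map_zero_eq_one, one_smul,
          trans_zero, modu_v0 he e2]
  -- the transported direction
  set w' : Fin d ⊕ Fin d → ℚ_[p] := Matrix.vecMul u h with hw'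
  have hw'g : Matrix.vecMul w' g = u := by
    rw [hw', Matrix.vecMul_vecMul, hhg, Matrix.vecMul_one]
  have hw'0 : w' (Sum.inl i0) ≠ 0 := by
    rw [hw', hu, Matrix.single_vecMul]
    simp only [Pi.smul_apply, smul_eq_mul, Matrix.row_apply]
    exact mul_ne_zero hcr hr
  set φ : SB p d K := T v0 with hφ
  have hTP : ∀ n, T (P n) = Av ψ hψ w' φ n := by
    intro n
    rw [hP1, map_sum, Av]
    apply Finset.sum_congr rfl
    intro t _
    rw [hφ, hT, Matrix.smul_vecMul, hw'g]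
  have hper : rho ψ hψ w' 0 φ = φ := by
    rw [hφ, hT, hw'g, hPN.2]
  have hne : ∀ n, Av ψ hψ w' φ n ≠ 0 := by
    intro n
    rw [← hTP]
    intro h0
    exact hPne n ((LinearEquiv.map_eq_zero_iff T).1 h0)
  obtain ⟨δ, hδ, n0, hn0⟩ := Av_not_small hψ hw'0 hper hne
  have hTv0 : 0 < supNorm (T v0 : SB p d K) := by
    apply supNorm_pos
    intro h0
    exact v0_ne_zero ((LinearEquiv.map_eq_zero_iff T).1 h0)
  -- choose k large
  obtain ⟨k, hk⟩ : ∃ k : ℕ, n0 ≤ k ∧ (c * supNorm (T v0 : SB p d K)) * ((p : ℝ)⁻¹) ^ k < δ := by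
    have hpinv : (p : ℝ)⁻¹ < 1 := inv_lt_one_of_one_lt₀ hp1
    have htend : Filter.Tendsto (fun k : ℕ => (c * supNorm (T v0 : SB p d K)) * ((p : ℝ)⁻¹) ^ k)
        Filter.atTop (nhds ((c * supNorm (T v0 : SB p d K)) * 0)) :=
      (tendsto_pow_atTop_nhds_zero_of_lt_one (by positivity) hpinv).const_mul _
    rw [mul_zero] at htend
    have h1 := (htend.eventually_lt_const hδ).and (Filter.eventually_ge_atTop n0)
    obtain ⟨k, hk1, hk2⟩ := h1.exists
    exact ⟨k, hk2, hk1⟩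
  have hnnk : n0 ≤ nn p k := by
    have h1 : nn p k = rr p k + (k + 2) := rfl
    omega
  have h1 := hdom (P (nn p k))
  rw [grNorm, hTP, div_le_iff₀ hTv0] at h1
  have h2 := hn0 _ hnnk
  have h3 := hPN.1 k
  have h4 : c * N (P (nn p k)) * supNorm (T v0 : SB p d K) ≤
      (c * supNorm (T v0 : SB p d K)) * ((p : ℝ)⁻¹) ^ k := by
    calc c * N (P (nn p k)) * supNorm (T v0 : SB p d K) =
        (c * supNorm (T v0 : SB p d K)) * N (P (nn p k)) := by ring
      _ ≤ _ := by gcongr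
  linarith [hk.2]

end Pool.Agent.V11283.Heis
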